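import Pool.Agent.TH210.BRing

/-!
The pullback ring has dimension at least four.
-/

set_option autoImplicit false
set_option linter.all false

namespace Pool.Agent.TH210

open MvPolynomial IsLocalRing

variable {R₁ K : Type} [CommRing R₁] [IsDomain R₁] [Field K] (D : Dat R₁ K)

namespace Dat

theorem disj {Q : Ideal (R0 R₁)} (hQ : Q ≤ RingHom.ker D.f2) :
    Disjoint (D.W : Set (R0 R₁)) (Q : Set (R0 R₁)) := by
  rw [Set.disjoint_left]
  intro a ha haQ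
  exact ha.2 (hQ haQ)

/-- the prime of the pullback ring given by a prime of the Segre ring through the second point -/
noncomputable def pr (Q : Ideal (R0 R₁)) (hp : Q.IsPrime) (hQ : Q ≤ RingHom.ker D.f2) :
    PrimeSpectrum (Apb D.Φ1 D.Φ2) :=
  ⟨(Q.map (algebraMap (R0 R₁) D.B)).comap (Apb D.Φ1 D.Φ2).subtype, by
    haveI : (Q.map (algebraMap (R0 R₁) D.B)).IsPrime :=
      IsLocalization.isPrime_of_isPrime_disjoint D.W D.B Q hp (D.disj hQ)
    exact Ideal.comap_isPrime _ _⟩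

theorem pr_lt {Q Q' : Ideal (R0 R₁)} (hp : Q.IsPrime) (hQ : Q ≤ RingHom.ker D.f2)
    (hp' : Q'.IsPrime) (hQ' : Q' ≤ RingHom.ker D.f2) (hle : Q ≤ Q')
    (t : R0 R₁) (h1 : D.f1 t = 0) (ht : t ∉ Q) (ht' : t ∈ Q') :
    D.pr Q hp hQ < D.pr Q' hp' hQ' := by
  have h2 : D.f2 t = 0 := hQ' ht'
  have hmem : algebraMap (R0 R₁) D.B t ∈ Apb D.Φ1 D.Φ2 := by
    change D.Φ1 _ = D.Φ2 _
    rw [Φ1_alg, Φ2_alg, h1, h2]
  rw [lt_iff_le_not_ge]
  constructor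
  · change (Q.map (algebraMap (R0 R₁) D.B)).comap (Apb D.Φ1 D.Φ2).subtype ≤
      (Q'.map (algebraMap (R0 R₁) D.B)).comap (Apb D.Φ1 D.Φ2).subtype
    exact Ideal.comap_mono (Ideal.map_mono hle)
  · intro h
    have h3 : (⟨_, hmem⟩ : Apb D.Φ1 D.Φ2) ∈
        (Q'.map (algebraMap (R0 R₁) D.B)).comap (Apb D.Φ1 D.Φ2).subtype :=
      Ideal.mem_map_of_mem (algebraMap (R0 R₁) D.B) ht'
    have h4 : (⟨_, hmem⟩ : Apb D.Φ1 D.Φ2) ∈
        (Q.map (algebraMap (R0 R₁) D.B)).comap (Apb D.Φ1 D.Φ2).subtype := h h3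
    have h5 : t ∈ (Q.map (algebraMap (R0 R₁) D.B)).under (R0 R₁) := h4
    haveI := hp
    rw [IsLocalization.comap_map_of_isPrime_disjoint D.W D.B hp (D.disj hQ)] at h5
    exact ht h5

/-- kill `b` -/
noncomputable def k1 : MvPolynomial (Fin 4) R₁ →ₐ[R₁] MvPolynomial (Fin 4) R₁ :=
  aeval ![X 0, 0, X 2, X 3]
/-- kill `b` and `d` -/
noncomputable def k2 : MvPolynomial (Fin 4) R₁ →ₐ[R₁] MvPolynomial (Fin 4) R₁ :=
  aeval ![X 0, 0, X 2, 0]
/-- kill `b` and `d`, put `a = c = 1` -/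
noncomputable def k3 : MvPolynomial (Fin 4) R₁ →ₐ[R₁] R₁ :=
  aeval ![1, 0, 1, 0]

theorem k2_k1 (r : MvPolynomial (Fin 4) R₁) : k2 (k1 r) = k2 r := by
  have h : (k2 (R₁ := R₁)).comp k1 = k2 := by
    apply MvPolynomial.algHom_ext
    intro i
    fin_cases i <;> simp [k1, k2]
  exact DFunLike.congr_fun h r

theorem k3_k2 (r : MvPolynomial (Fin 4) R₁) : k3 (k2 r) = k3 r := by
  have h : (k3 (R₁ := R₁)).comp k2 = k3 := by
    apply MvPolynomial.algHom_ext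
    intro i
    fin_cases i <;> simp [k2, k3]
  exact DFunLike.congr_fun h r

theorem e_k3 (r : MvPolynomial (Fin 4) R₁) : D.e (k3 r) = D.ev2 r := by
  have h : D.e.comp (k3 (R₁ := R₁)).toRingHom = D.ev2 := by
    apply MvPolynomial.ringHom_ext
    · intro c
      simp [k3, ev2]
    · intro i
      fin_cases i <;> simp [k3, ev2]
  exact RingHom.congr_fun h r

noncomputable def Q1 : Ideal (R0 R₁) := RingHom.ker ((k1 (R₁ := R₁)).comp (R0 R₁).val)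
noncomputable def Q2 : Ideal (R0 R₁) := RingHom.ker ((k2 (R₁ := R₁)).comp (R0 R₁).val)
noncomputable def Q3 : Ideal (R0 R₁) := RingHom.ker ((k3 (R₁ := R₁)).comp (R0 R₁).val)

theorem mem_Q1 {r : R0 R₁} : r ∈ Q1 (R₁ := R₁) ↔ k1 (r : MvPolynomial (Fin 4) R₁) = 0 := Iff.rfl
theorem mem_Q2 {r : R0 R₁} : r ∈ Q2 (R₁ := R₁) ↔ k2 (r : MvPolynomial (Fin 4) R₁) = 0 := Iff.rfl
theorem mem_Q3 {r : R0 R₁} : r ∈ Q3 (R₁ := R₁) ↔ k3 (r : MvPolynomial (Fin 4) R₁) = 0 := Iff.rfl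

theorem Q1_le : Q1 (R₁ := R₁) ≤ Q2 := by
  intro r hr
  rw [mem_Q1] at hr
  rw [mem_Q2, ← k2_k1, hr, map_zero]

theorem Q2_le : Q2 (R₁ := R₁) ≤ Q3 := by
  intro r hr
  rw [mem_Q2] at hr
  rw [mem_Q3, ← k3_k2, hr, map_zero]

theorem Q3_le : Q3 (R₁ := R₁) ≤ RingHom.ker D.f2 := by
  intro r hr
  rw [mem_Q3] at hr
  rw [RingHom.mem_ker, f2_apply, ← e_k3, hr, map_zero]

theorem four_le_dim : 4 ≤ ringKrullDim (Apb D.Φ1 D.Φ2) := by
  have p0 : (⊥ : Ideal (R0 R₁)).IsPrime := Ideal.isPrime_bot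
  have p1 : (Q1 (R₁ := R₁)).IsPrime := RingHom.ker_isPrime _
  have p2 : (Q2 (R₁ := R₁)).IsPrime := RingHom.ker_isPrime _
  have p3 : (Q3 (R₁ := R₁)).IsPrime := RingHom.ker_isPrime _
  have p4 : (RingHom.ker D.f2).IsPrime := RingHom.ker_isPrime _
  have l3 := D.Q3_le
  have l2 : Q2 ≤ RingHom.ker D.f2 := Q2_le.trans l3
  have l1 : Q1 ≤ RingHom.ker D.f2 := Q1_le.trans l2
  have l0 : (⊥ : Ideal (R0 R₁)) ≤ RingHom.ker D.f2 := bot_le
  have h01 : D.pr ⊥ p0 l0 < D.pr Q1 p1 l1 := by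
    refine D.pr_lt p0 l0 p1 l1 bot_le (w0 R₁) (by simp) ?_ ?_
    · rw [Ideal.mem_bot]
      intro h
      have h' := congrArg Subtype.val h
      rw [w0_val] at h'
      exact mul_ne_zero (X_ne_zero 1) (X_ne_zero 2) h'
    · rw [mem_Q1, w0_val]; simp [k1]
  have h12 : D.pr Q1 p1 l1 < D.pr Q2 p2 l2 := by
    refine D.pr_lt p1 l1 p2 l2 Q1_le (z0 R₁) (by simp) ?_ ?_
    · rw [mem_Q1, z0_val]
      simp [k1]
    · rw [mem_Q2, z0_val]; simp [k2]
  have h23 : D.pr Q2 p2 l2 < D.pr Q3 p3 l3 := by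
    refine D.pr_lt p2 l2 p3 l3 Q2_le (x0 R₁ * (1 + x0 R₁)) (by simp) ?_ ?_
    · rw [mem_Q2, Subalgebra.coe_mul, Subalgebra.coe_add, Subalgebra.coe_one, x0_val]
      simp only [k2, map_mul, map_add, map_one, aeval_X]
      simp only [Matrix.cons_val_zero, Matrix.cons_val]
      refine mul_ne_zero (mul_ne_zero (X_ne_zero 0) (X_ne_zero 2)) ?_
      intro h
      have := congrArg (fun t => (aeval ![(0 : R₁), 0, 0, 0] : MvPolynomial (Fin 4) R₁ →ₐ[R₁] R₁) t) h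
      simp at this
    · rw [mem_Q3, Subalgebra.coe_mul, Subalgebra.coe_add, Subalgebra.coe_one, x0_val]
      simp [k3, one_add_one_eq_two, D.two]
  have h34 : D.pr Q3 p3 l3 < D.pr (RingHom.ker D.f2) p4 le_rfl := by
    refine D.pr_lt p3 l3 p4 le_rfl l3 (x0 R₁ * algebraMap R₁ (R0 R₁) D.ϖ) (by simp) ?_ ?_
    · rw [mem_Q3, Subalgebra.coe_mul, x0_val]
      have : ((algebraMap R₁ (R0 R₁) D.ϖ : R0 R₁) : MvPolynomial (Fin 4) R₁) = C D.ϖ := rfl
      rw [this]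
      simp [k3, D.ϖ_ne]
    · rw [RingHom.mem_ker]; simp [D.e_ϖ]
  let l : LTSeries (PrimeSpectrum (Apb D.Φ1 D.Φ2)) :=
    { length := 4
      toFun := ![D.pr ⊥ p0 l0, D.pr Q1 p1 l1, D.pr Q2 p2 l2, D.pr Q3 p3 l3,
        D.pr (RingHom.ker D.f2) p4 le_rfl]
      step := by
        intro i
        fin_cases i
        · exact h01
        · exact h12
        · exact h23
        · exact h34 }
  have := Order.LTSeries.length_le_krullDim l
  exact this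

end Dat

end Pool.Agent.TH210
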