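import Pool.Agent.TH210.BRing

/-!
A field `K` of characteristic two which is isomorphic to the fraction field of `K[X]`.
-/

set_option autoImplicit false
set_option linter.all false

namespace Pool.Agent.TH210

namespace KF

/-- polynomials in countably many variables over the field with two elements -/
abbrev Pz : Type := MvPolynomial ℕ (ZMod 2)

/-- the field -/
abbrev K0 : Type := FractionRing Pz

/-- the shift `t_n ↦ t_(n+1)` -/
noncomputable def sh : Pz →+* Pz := (MvPolynomial.rename (R := ZMod 2) Nat.succ).toRingHom

theorem sh_inj : Function.Injective sh := MvPolynomial.rename_injective _ Nat.succ_injective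

/-- the shift on the field -/
noncomputable def shK : K0 →+* K0 :=
  IsFractionRing.lift (A := Pz) (K := K0) (L := K0) (g := (algebraMap Pz K0).comp sh)
    ((IsFractionRing.injective Pz K0).comp sh_inj)

theorem shK_alg (a : Pz) : shK (algebraMap Pz K0 a) = algebraMap Pz K0 (sh a) :=
  IsFractionRing.lift_algebraMap _ _

/-- `X ↦ t_0`, `t_n ↦ t_(n+1)` -/
noncomputable def j : Polynomial Pz →+* Pz := Polynomial.eval₂RingHom sh (MvPolynomial.X 0)

/-- the inverse of `j` -/
noncomputable def lam : Pz →+* Polynomial Pz :=
  (MvPolynomial.aeval (R := ZMod 2) (fun n : ℕ => match n with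
    | 0 => (Polynomial.X : Polynomial Pz)
    | n + 1 => Polynomial.C (MvPolynomial.X n))).toRingHom

theorem lam_j (p : Polynomial Pz) : lam (j p) = p := by
  have h : lam.comp j = RingHom.id _ := by
    apply Polynomial.ringHom_ext'
    · apply MvPolynomial.ringHom_ext
      · intro c
        simp only [RingHom.comp_apply, RingHom.id_comp, j, Polynomial.coe_eval₂RingHom,
          Polynomial.eval₂_C, sh]
        simp [lam]
      · intro n
        simp only [RingHom.comp_apply, RingHom.id_comp, j, Polynomial.coe_eval₂RingHom,
          Polynomial.eval₂_C, sh]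
        simp [lam]
    · simp only [RingHom.comp_apply, j, Polynomial.coe_eval₂RingHom, Polynomial.eval₂_X,
        RingHom.id_apply]
      simp [lam]
  exact RingHom.congr_fun h p

theorem j_lam (a : Pz) : j (lam a) = a := by
  have h : j.comp lam = RingHom.id _ := by
    apply MvPolynomial.ringHom_ext
    · intro c
      simp only [RingHom.comp_apply, RingHom.id_apply, lam]
      have : (MvPolynomial.aeval (R := ZMod 2) (fun n : ℕ => match n with
          | 0 => (Polynomial.X : Polynomial Pz)
          | n + 1 => Polynomial.C (MvPolynomial.X n))).toRingHom (MvPolynomial.C c) =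
          Polynomial.C (MvPolynomial.C c) := by
        simp
      rw [this]
      simp [j, sh]
    · intro n
      rcases n with _ | n
      · simp [lam, j]
      · simp [lam, j, sh]
  exact RingHom.congr_fun h a

/-- the embedding `K[X] → K` -/
noncomputable def i : Polynomial K0 →+* K0 :=
  Polynomial.eval₂RingHom shK (algebraMap Pz K0 (MvPolynomial.X 0))

theorem i_map (p : Polynomial Pz) : i (p.map (algebraMap Pz K0)) = algebraMap Pz K0 (j p) := by
  have h : i.comp (Polynomial.mapRingHom (algebraMap Pz K0)) = (algebraMap Pz K0).comp j := by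
    apply Polynomial.ringHom_ext'
    · refine RingHom.ext fun a => ?_
      simp only [RingHom.comp_apply, Polynomial.coe_mapRingHom, Polynomial.map_C, i, j,
        Polynomial.coe_eval₂RingHom, Polynomial.eval₂_C, shK_alg]
    · simp only [RingHom.comp_apply, Polynomial.coe_mapRingHom, Polynomial.map_X, i, j,
        Polynomial.coe_eval₂RingHom, Polynomial.eval₂_X]
  exact RingHom.congr_fun h p

theorem i_inj : Function.Injective i := by
  rw [injective_iff_map_eq_zero]
  intro p hp
  obtain ⟨b, hb⟩ := IsLocalization.integerNormalization_map_to_map (nonZeroDivisors Pz) p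
  have h1 := i_map (IsLocalization.integerNormalization (nonZeroDivisors Pz) p)
  rw [hb] at h1
  have h2 : ((b : Pz) • p : Polynomial K0) = Polynomial.C (algebraMap Pz K0 b) * p := by
    rw [← Polynomial.smul_eq_C_mul, algebraMap_smul]
  have h3 : i ((b : Pz) • p) = 0 := by rw [h2, map_mul, hp, mul_zero]
  rw [h3] at h1
  have h4 : j (IsLocalization.integerNormalization (nonZeroDivisors Pz) p) = 0 := by
    apply IsFractionRing.injective Pz K0
    rw [← h1, map_zero]
  have h5 : IsLocalization.integerNormalization (nonZeroDivisors Pz) p = 0 := by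
    rw [← lam_j (IsLocalization.integerNormalization (nonZeroDivisors Pz) p), h4, map_zero]
  rw [h5, Polynomial.map_zero, h2] at hb
  have hb0 : algebraMap Pz K0 b ≠ 0 := by
    rw [Ne, map_eq_zero_iff _ (IsFractionRing.injective Pz K0)]
    exact nonZeroDivisors.ne_zero b.2
  rcases mul_eq_zero.mp hb.symm with h | h
  · exact absurd (Polynomial.C_eq_zero.mp h) hb0
  · exact h

theorem frac (c : K0) : ∃ f g : Polynomial K0, i g ≠ 0 ∧ i g * c = i f := by
  obtain ⟨a, b, hb, rfl⟩ := IsFractionRing.div_surjective (A := Pz) c
  have hb0 : algebraMap Pz K0 b ≠ 0 := by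
    rw [Ne, map_eq_zero_iff _ (IsFractionRing.injective Pz K0)]
    exact nonZeroDivisors.ne_zero hb
  refine ⟨(lam a).map (algebraMap Pz K0), (lam b).map (algebraMap Pz K0), ?_, ?_⟩
  · rw [i_map, j_lam]; exact hb0
  · rw [i_map, i_map, j_lam, j_lam]
    field_simp

/-- the data used for the counterexample -/
noncomputable def dat : Dat (Polynomial K0) K0 where
  i := i
  e := Polynomial.evalRingHom 0
  i_inj := i_inj
  frac := frac
  e_surj := fun c => ⟨Polynomial.C c, by simp⟩
  ϖ := Polynomial.X
  ϖ_ne := Polynomial.X_ne_zero
  e_ϖ := by simp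
  e_ker := by
    intro c hc
    rw [Polynomial.X_dvd_iff, Polynomial.coeff_zero_eq_eval_zero]
    exact hc
  two := by
    have h : (2 : ZMod 2) = 0 := by decide
    rw [← map_ofNat (Polynomial.C : K0 →+* Polynomial K0) 2, ← map_ofNat (algebraMap Pz K0) 2,
      ← map_ofNat (MvPolynomial.C : ZMod 2 →+* Pz) 2, h, map_zero, map_zero, map_zero]

end KF

end Pool.Agent.TH210
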