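import Mathlib

/-!
Lengths of homology modules.
-/

set_option autoImplicit false
set_option linter.all false

namespace Pool.Agent.TH210

open IsLocalRing

section FiniteLength

variable {A : Type*} [CommRing A] [IsLocalRing A] [IsNoetherianRing A]

/-- A finite module over a Noetherian local ring on which every element of the maximal ideal acts
nilpotently has finite length. -/
theorem length_ne_top_of_nilp {H : Type*} [AddCommGroup H] [Module A H] [Module.Finite A H]
    (h : ∀ a ∈ maximalIdeal A, ∃ n : ℕ, ∀ v : H, a ^ n • v = 0) : Module.length A H ≠ ⊤ := by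
  rcases subsingleton_or_nontrivial H with hH | hH
  · rw [Module.length_eq_zero]
    exact ENat.zero_ne_top
  · set I := Module.annihilator A H with hI
    have hI1 : I ≠ ⊤ := by
      intro h1
      rw [hI, Module.annihilator_eq_top_iff] at h1
      exact not_subsingleton H h1
    have : Nontrivial (A ⧸ I) := Ideal.Quotient.nontrivial_iff.mpr hI1
    have : IsLocalRing (A ⧸ I) :=
      IsLocalRing.of_surjective' (Ideal.Quotient.mk I) Ideal.Quotient.mk_surjective
    have hart : IsArtinianRing (A ⧸ I) := by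
      rw [isArtinianRing_iff_isNilpotent_maximalIdeal,
        Ideal.FG.isNilpotent_iff_le_nilradical (IsNoetherian.noetherian _)]
      intro q hq
      obtain ⟨a, rfl⟩ := Ideal.Quotient.mk_surjective q
      have ha : a ∈ maximalIdeal A := by
        rw [mem_maximalIdeal, mem_nonunits_iff] at hq ⊢
        exact fun hu => hq (hu.map _)
      obtain ⟨n, hn⟩ := h a ha
      rw [mem_nilradical]
      refine ⟨n, ?_⟩
      rw [← map_pow, Ideal.Quotient.eq_zero_iff_mem, hI, Module.mem_annihilator]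
      exact hn
    letI : Module (A ⧸ I) H := Module.quotientAnnihilator
    haveI : IsScalarTower A (A ⧸ I) H :=
      Module.IsTorsionBySet.isScalarTower (Module.isTorsionBySet_annihilator A H)
    haveI : Module.Finite (A ⧸ I) H := Module.Finite.of_restrictScalars_finite A _ _
    haveI : IsArtinian A H :=
      isArtinian_of_surjective_algebraMap (R := A ⧸ I) Ideal.Quotient.mk_surjective
    exact Module.length_ne_top

end FiniteLength

section Hlen

variable {A : Type*} [CommRing A]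
variable {C₂ C₁ C₀ : Type*} [AddCommGroup C₂] [Module A C₂] [AddCommGroup C₁] [Module A C₁]
  [AddCommGroup C₀] [Module A C₀]
variable {T : Type*} [AddCommGroup T] [Module A T]

/-- length of the homology of `C₂ → C₁ → C₀` -/
noncomputable def hlen (f : C₂ →ₗ[A] C₁) (g : C₁ →ₗ[A] C₀) : ℕ∞ :=
  Module.length A ↥(Submodule.map (LinearMap.range f).mkQ (LinearMap.ker g))

theorem hlen_eq_of_surj (f : C₂ →ₗ[A] C₁) (g : C₁ →ₗ[A] C₀)
    (θ : ↥(LinearMap.ker g) →ₗ[A] T) (hθ : Function.Surjective θ)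
    (h : ∀ v, θ v = 0 ↔ (v : C₁) ∈ LinearMap.range f) :
    hlen f g = Module.length A T := by
  set φ : ↥(LinearMap.ker g) →ₗ[A] C₁ ⧸ LinearMap.range f :=
    (LinearMap.range f).mkQ ∘ₗ (LinearMap.ker g).subtype with hφ
  have hr : LinearMap.range φ = Submodule.map (LinearMap.range f).mkQ (LinearMap.ker g) := by
    rw [hφ, LinearMap.range_comp, Submodule.range_subtype]
  have hk : LinearMap.ker φ = LinearMap.ker θ := by
    ext v
    rw [LinearMap.mem_ker, LinearMap.mem_ker, h, hφ]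
    simp
  have e1 : (↥(LinearMap.ker g) ⧸ LinearMap.ker φ) ≃ₗ[A] ↥(LinearMap.range φ) :=
    LinearMap.quotKerEquivRange φ
  have e2 : (↥(LinearMap.ker g) ⧸ LinearMap.ker θ) ≃ₗ[A] T :=
    LinearMap.quotKerEquivOfSurjective θ hθ
  have e3 := Submodule.quotEquivOfEq _ _ hk
  unfold hlen
  rw [← hr]
  exact ((e1.symm.trans e3).trans e2).length_eq

theorem hlen_eq_of_theta (f : C₂ →ₗ[A] C₁) (g : C₁ →ₗ[A] C₀)
    (θ : C₁ →ₗ[A] T) (h1 : ∀ v, g v = 0 → θ v = 0 → ∃ u, f u = v)
    (h2 : ∀ u, θ (f u) = 0) (h3 : ∀ t, ∃ v, g v = 0 ∧ θ v = t) :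
    hlen f g = Module.length A T := by
  refine hlen_eq_of_surj f g (θ ∘ₗ (LinearMap.ker g).subtype) ?_ ?_
  · intro t
    obtain ⟨v, hv, hvt⟩ := h3 t
    exact ⟨⟨v, hv⟩, hvt⟩
  · rintro ⟨v, hv⟩
    constructor
    · intro h
      exact h1 v hv h
    · rintro ⟨u, hu⟩
      change θ v = 0
      rw [← show f u = v from hu]
      exact h2 u

theorem hlen_eq_zero (f : C₂ →ₗ[A] C₁) (g : C₁ →ₗ[A] C₀)
    (h1 : ∀ v, g v = 0 → ∃ u, f u = v) : hlen f g = 0 := by
  rw [hlen_eq_of_theta (T := PUnit.{1}) f g 0 (fun v hv _ => h1 v hv) (fun _ => rfl)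
    (fun t => ⟨0, by simp⟩)]
  exact Module.length_eq_zero

theorem hlen_congr {C₂' C₁' C₀' : Type*} [AddCommGroup C₂'] [Module A C₂'] [AddCommGroup C₁']
    [Module A C₁'] [AddCommGroup C₀'] [Module A C₀']
    (f : C₂ →ₗ[A] C₁) (g : C₁ →ₗ[A] C₀) (f' : C₂' →ₗ[A] C₁') (g' : C₁' →ₗ[A] C₀')
    (e₂ : C₂ ≃ₗ[A] C₂') (e₁ : C₁ ≃ₗ[A] C₁') (e₀ : C₀ ≃ₗ[A] C₀')
    (hf : ∀ u, f' (e₂ u) = e₁ (f u)) (hg : ∀ u, g' (e₁ u) = e₀ (g u)) :
    hlen f g = hlen f' g' := by
  set π : ↥(LinearMap.ker g') →ₗ[A] ↥(Submodule.map (LinearMap.range f').mkQ (LinearMap.ker g')) :=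
    ((LinearMap.range f').mkQ ∘ₗ (LinearMap.ker g').subtype).codRestrict _ (by
      rintro ⟨v, hv⟩
      exact ⟨v, hv, rfl⟩) with hπ
  set ρ : ↥(LinearMap.ker g) →ₗ[A] ↥(LinearMap.ker g') :=
    (e₁.toLinearMap ∘ₗ (LinearMap.ker g).subtype).codRestrict _ (by
      rintro ⟨v, hv⟩
      change g' (e₁ v) = 0
      rw [hg, show g v = 0 from hv, map_zero]) with hρ
  refine hlen_eq_of_surj f g (π ∘ₗ ρ) ?_ ?_
  · rintro ⟨t, v, hv, rfl⟩
    have hv' : g (e₁.symm v) = 0 := by
      apply e₀.injective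
      rw [← hg, LinearEquiv.apply_symm_apply, map_zero]
      exact hv
    refine ⟨⟨e₁.symm v, hv'⟩, ?_⟩
    apply Subtype.ext
    change (LinearMap.range f').mkQ (e₁ (e₁.symm v)) = _
    rw [LinearEquiv.apply_symm_apply]
  · rintro ⟨v, hv⟩
    have : (π ∘ₗ ρ) ⟨v, hv⟩ = 0 ↔ (LinearMap.range f').mkQ (e₁ v) = 0 := by
      rw [← Submodule.coe_eq_zero]
      rfl
    rw [this, Submodule.mkQ_apply, Submodule.Quotient.mk_eq_zero]
    constructor
    · rintro ⟨u, hu⟩
      refine ⟨e₂.symm u, ?_⟩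
      apply e₁.injective
      rw [← hf, LinearEquiv.apply_symm_apply]
      exact hu
    · rintro ⟨u, hu⟩
      refine ⟨e₂ u, ?_⟩
      rw [hf]
      congr 1

/-- A lower bound: if `θ` maps the homology onto `T` and some class in the kernel is nonzero, the
length is at least `length T + 1`. -/
theorem length_add_one_le_hlen (f : C₂ →ₗ[A] C₁) (g : C₁ →ₗ[A] C₀)
    (θ : C₁ →ₗ[A] T) (h2 : ∀ u, θ (f u) = 0) (h3 : ∀ t, ∃ v, g v = 0 ∧ θ v = t)
    (v : C₁) (hv : g v = 0) (hθ : θ v = 0) (hvf : ∀ u, f u ≠ v) :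
    Module.length A T + 1 ≤ hlen f g := by
  set S := Submodule.map (LinearMap.range f).mkQ (LinearMap.ker g) with hS
  let Θ : ↥S →ₗ[A] T := ((LinearMap.range f).liftQ θ (by
    rintro _ ⟨u, rfl⟩
    exact h2 u)) ∘ₗ S.subtype
  have hsurj : Function.Surjective Θ := by
    intro t
    obtain ⟨v, hv, hvt⟩ := h3 t
    exact ⟨⟨(LinearMap.range f).mkQ v, v, hv, rfl⟩, hvt⟩
  have hex := LinearMap.exact_subtype_ker_map Θ
  have hadd : Module.length A ↥S = Module.length A ↥(LinearMap.ker Θ) + Module.length A T :=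
    Module.length_eq_add_of_exact (R := A) (N := ↥(LinearMap.ker Θ)) (M := ↥S) (P := T)
      (Submodule.subtype (LinearMap.ker Θ)) Θ (Submodule.subtype_injective _) hsurj hex
  have hnt : Nontrivial ↥(LinearMap.ker Θ) := by
    rw [Submodule.nontrivial_iff_ne_bot, Submodule.ne_bot_iff]
    refine ⟨⟨(LinearMap.range f).mkQ v, v, hv, rfl⟩, hθ, ?_⟩
    intro h0
    have h0' := congrArg Subtype.val h0
    change (LinearMap.range f).mkQ v = 0 at h0'
    rw [Submodule.mkQ_apply, Submodule.Quotient.mk_eq_zero] at h0'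
    obtain ⟨u, hu⟩ := h0'
    exact hvf u hu
  have hpos : 1 ≤ Module.length A ↥(LinearMap.ker Θ) :=
    Order.one_le_iff_pos.mpr Module.length_pos
  unfold hlen
  rw [← hS, hadd, add_comm]
  exact add_le_add_left hpos _

theorem hlen_lt_top [IsLocalRing A] [IsNoetherianRing A] [Module.Finite A C₁]
    (f : C₂ →ₗ[A] C₁) (g : C₁ →ₗ[A] C₀)
    (h : ∀ a ∈ maximalIdeal A, ∃ n : ℕ, ∀ v, g v = 0 → ∃ u, f u = a ^ n • v) :
    hlen f g < ⊤ := by
  rw [lt_top_iff_ne_top]
  unfold hlen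
  haveI : IsNoetherian A C₁ := isNoetherian_of_isNoetherianRing_of_finite A C₁
  apply length_ne_top_of_nilp
  intro a ha
  obtain ⟨n, hn⟩ := h a ha
  refine ⟨n, ?_⟩
  rintro ⟨_, v, hv, rfl⟩
  apply Subtype.ext
  change a ^ n • (LinearMap.range f).mkQ v = 0
  rw [← map_smul, Submodule.mkQ_apply, Submodule.Quotient.mk_eq_zero]
  exact hn v hv

end Hlen

end Pool.Agent.TH210
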