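import Pool.Agent.TH210.BRing
import Pool.Agent.TH210.Homology

/-!
The two-dimensional module `P = R₁[y,w]_{(y,w)}`.
-/

set_option autoImplicit false
set_option linter.all false

namespace Pool.Agent.TH210

open MvPolynomial IsLocalRing

variable {R₁ K : Type} [CommRing R₁] [IsDomain R₁] [Field K] (D : Dat R₁ K)

namespace Dat

/-- evaluation at `y = w = 0` -/
noncomputable def evT : MvPolynomial (Fin 2) R₁ →+* K := eval₂Hom D.i ![0, 0]

/-- the prime `(y,w)` -/
noncomputable def pT : Ideal (MvPolynomial (Fin 2) R₁) := RingHom.ker D.evT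

instance : D.pT.IsPrime := RingHom.ker_isPrime _

/-- the module -/
def P : Type := Localization.AtPrime D.pT

noncomputable instance : CommRing D.P := inferInstanceAs (CommRing (Localization.AtPrime D.pT))
noncomputable instance : Algebra (MvPolynomial (Fin 2) R₁) D.P :=
  inferInstanceAs (Algebra (MvPolynomial (Fin 2) R₁) (Localization.AtPrime D.pT))
instance : IsLocalization.AtPrime D.P D.pT :=
  inferInstanceAs (IsLocalization.AtPrime (Localization.AtPrime D.pT) D.pT)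
instance : IsLocalRing D.P := IsLocalization.AtPrime.isLocalRing D.P D.pT
instance : IsDomain D.P :=
  IsLocalization.isDomain_of_le_nonZeroDivisors D.P D.pT.primeCompl_le_nonZeroDivisors
instance [IsNoetherianRing R₁] : IsNoetherianRing D.P :=
  IsLocalization.isNoetherianRing D.pT.primeCompl _ inferInstance

theorem algP_inj : Function.Injective (algebraMap (MvPolynomial (Fin 2) R₁) D.P) :=
  IsLocalization.injective D.P D.pT.primeCompl_le_nonZeroDivisors

/-- the projection of the Segre ring on `R₁[y,w]` -/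
noncomputable def piT : MvPolynomial (Fin 4) R₁ →ₐ[R₁] MvPolynomial (Fin 2) R₁ :=
  aeval ![0, 1, X 1, X 0]

theorem evT_piT (r : MvPolynomial (Fin 4) R₁) : D.evT (piT r) = D.ev1 r := by
  have h : D.evT.comp (piT (R₁ := R₁)).toRingHom = D.ev1 := by
    apply MvPolynomial.ringHom_ext
    · intro c
      simp [evT, piT, ev1]
    · intro i
      fin_cases i <;> simp [evT, piT, ev1]
  exact RingHom.congr_fun h r

/-- the map `B → P` -/
noncomputable def ψ : D.B →+* D.P :=
  IsLocalization.lift (M := D.W)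
    (g := (algebraMap (MvPolynomial (Fin 2) R₁) D.P).comp
      ((piT (R₁ := R₁)).toRingHom.comp (R0 R₁).val.toRingHom)) (by
    intro u
    have hu : piT ((u : R0 R₁) : MvPolynomial (Fin 4) R₁) ∈ D.pT.primeCompl := by
      intro h
      have h' : D.evT (piT ((u : R0 R₁) : MvPolynomial (Fin 4) R₁)) = 0 := h
      rw [evT_piT] at h'
      exact u.2.1 h'
    exact IsLocalization.map_units D.P (⟨_, hu⟩ : D.pT.primeCompl))

theorem ψ_alg (r : R0 R₁) : D.ψ (algebraMap _ D.B r) =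
    algebraMap (MvPolynomial (Fin 2) R₁) D.P (piT (r : MvPolynomial (Fin 4) R₁)) :=
  IsLocalization.lift_eq _ _

theorem ψ_x : D.ψ D.x = 0 := by
  rw [x, ψ_alg, x0_val]; simp [piT]
theorem ψ_z : D.ψ D.z = 0 := by
  rw [z, ψ_alg, z0_val]; simp [piT]
theorem ψ_y : D.ψ D.y = algebraMap (MvPolynomial (Fin 2) R₁) D.P (X 0) := by
  rw [y, ψ_alg, y0_val]; simp [piT]
theorem ψ_w : D.ψ D.w = algebraMap (MvPolynomial (Fin 2) R₁) D.P (X 1) := by
  rw [w, ψ_alg, w0_val]; simp [piT]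

theorem ψ_y_ne : D.ψ D.y ≠ 0 := by
  rw [ψ_y, Ne, map_eq_zero_iff _ D.algP_inj]
  exact X_ne_zero 0

theorem X_mem_pT (i : Fin 2) : (X i : MvPolynomial (Fin 2) R₁) ∈ D.pT := by
  change D.evT (X i) = 0
  fin_cases i <;> simp [evT]

theorem exists_fracP (b : D.P) : ∃ (r u : MvPolynomial (Fin 2) R₁), u ∉ D.pT ∧
    algebraMap _ D.P u * b = algebraMap _ D.P r := by
  obtain ⟨⟨r, u⟩, h⟩ := IsLocalization.surj D.pT.primeCompl b
  exact ⟨r, u, u.2, by rw [mul_comm]; exact h⟩

theorem isUnit_P {u : MvPolynomial (Fin 2) R₁} (hu : u ∉ D.pT) : IsUnit (algebraMap _ D.P u) :=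
  IsLocalization.map_units D.P (⟨u, hu⟩ : D.pT.primeCompl)

theorem hreg (m : D.P) (h : D.ψ D.y ∣ D.ψ D.w * m) : D.ψ D.y ∣ m := by
  rw [ψ_y, ψ_w] at h
  rw [ψ_y]
  obtain ⟨n, hn⟩ := h
  obtain ⟨r, u, hu, hr⟩ := D.exists_fracP m
  obtain ⟨r', u', hu', hr'⟩ := D.exists_fracP n
  -- `X 1 * r * u' = X 0 * r' * u`
  have key : (X 1 * r * u' : MvPolynomial (Fin 2) R₁) = X 0 * (r' * u) := by
    apply D.algP_inj
    simp only [map_mul]
    rw [← hr, ← hr']
    linear_combination (algebraMap (MvPolynomial (Fin 2) R₁) D.P u *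
      algebraMap (MvPolynomial (Fin 2) R₁) D.P u') * hn
  have hprime : Prime (X 0 : MvPolynomial (Fin 2) R₁) := X_prime
  have hdvd : (X 0 : MvPolynomial (Fin 2) R₁) ∣ X 1 * r * u' := ⟨_, key⟩
  have hX1 : ¬ (X 0 : MvPolynomial (Fin 2) R₁) ∣ X 1 := by
    rintro ⟨g, hg⟩
    have := congrArg (fun t => (aeval ![(0 : R₁), 1] : MvPolynomial (Fin 2) R₁ →ₐ[R₁] R₁) t) hg
    simp at this
  have hu'' : ¬ (X 0 : MvPolynomial (Fin 2) R₁) ∣ u' := by
    rintro ⟨g, rfl⟩
    exact hu' (D.pT.mul_mem_right _ (D.X_mem_pT 0))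
  have hr0 : (X 0 : MvPolynomial (Fin 2) R₁) ∣ r := by
    rcases hprime.dvd_or_dvd hdvd with h1 | h1
    · rcases hprime.dvd_or_dvd h1 with h2 | h2
      · exact absurd h2 hX1
      · exact h2
    · exact absurd h1 hu''
  have h3 : algebraMap (MvPolynomial (Fin 2) R₁) D.P (X 0) ∣ algebraMap _ D.P u * m := by
    rw [hr]
    exact map_dvd _ hr0
  exact (IsUnit.dvd_mul_left (D.isUnit_P hu)).mp h3

theorem pT_eq : D.pT = Ideal.span {X 0, X 1} := by
  apply le_antisymm
  · intro f hf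
    have hmod : ∀ g : MvPolynomial (Fin 2) R₁, ∃ c : R₁,
        g - C c ∈ (Ideal.span {X 0, X 1} : Ideal (MvPolynomial (Fin 2) R₁)) := by
      intro g
      induction g using MvPolynomial.induction_on with
      | C a => exact ⟨a, by rw [sub_self]; exact Ideal.zero_mem _⟩
      | add p q hp hq =>
        obtain ⟨c, hc⟩ := hp
        obtain ⟨d, hd⟩ := hq
        refine ⟨c + d, ?_⟩
        have := Ideal.add_mem _ hc hd
        rw [C_add]
        convert this using 1
        ring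
      | mul_X p i hp =>
        refine ⟨0, ?_⟩
        rw [C_0, sub_zero]
        apply Ideal.mul_mem_left
        apply Ideal.subset_span
        fin_cases i <;> simp
    obtain ⟨c, hc⟩ := hmod f
    have hle : (Ideal.span {X 0, X 1} : Ideal (MvPolynomial (Fin 2) R₁)) ≤ D.pT := by
      rw [Ideal.span_le]
      rintro a (rfl | rfl)
      · exact D.X_mem_pT 0
      · exact D.X_mem_pT 1
    have h1 : D.evT (f - C c) = 0 := hle hc
    have h2 : D.evT f = 0 := hf
    rw [map_sub, h2, zero_sub, neg_eq_zero] at h1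
    have h3 : D.i c = 0 := by simpa [evT] using h1
    rw [map_eq_zero_iff _ D.i_inj] at h3
    rw [h3, C_0, sub_zero] at hc
    exact hc
  · rw [Ideal.span_le]
    rintro a (rfl | rfl)
    · exact D.X_mem_pT 0
    · exact D.X_mem_pT 1

theorem maximalIdeal_P : maximalIdeal D.P = Ideal.span {D.ψ D.y, D.ψ D.w} := by
  rw [← IsLocalization.AtPrime.map_eq_maximalIdeal D.pT D.P, pT_eq, Ideal.map_span, ψ_y, ψ_w,
    Set.image_pair]

theorem dim_P [IsNoetherianRing R₁] : ringKrullDim D.P ≤ 2 := by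
  refine (ringKrullDim_le_spanFinrank_maximalIdeal D.P).trans ?_
  have h1 : (maximalIdeal D.P).spanFinrank ≤ 2 := by
    rw [maximalIdeal_P]
    refine (Submodule.spanFinrank_span_le_ncard_of_finite (Set.toFinite _)).trans ?_
    refine (Set.ncard_insert_le _ _).trans ?_
    rw [Set.ncard_singleton]
  exact_mod_cast h1

theorem piT_surj (t : MvPolynomial (Fin 2) R₁) :
    ∃ r : R0 R₁, piT (r : MvPolynomial (Fin 4) R₁) = t := by
  refine ⟨aeval ![y0 R₁, w0 R₁] t, ?_⟩
  have h : (piT.comp ((R0 R₁).val.comp (aeval ![y0 R₁, w0 R₁]))) =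
      AlgHom.id R₁ (MvPolynomial (Fin 2) R₁) := by
    apply MvPolynomial.algHom_ext
    intro i
    fin_cases i
    · simp [y0_val, piT]
    · simp [w0_val, piT]
  exact DFunLike.congr_fun h t

theorem ψ_surj (m : D.P) : ∃ b : D.B, D.ψ b = m := by
  obtain ⟨t, u, hu, h⟩ := D.exists_fracP m
  obtain ⟨r, hr⟩ := piT_surj t
  obtain ⟨v, hv⟩ := piT_surj u
  have hv1 : D.f1 v ≠ 0 := by
    rw [f1_apply, ← evT_piT, hv]
    exact hu
  obtain ⟨c, hc⟩ := D.exists_modify v hv1
  obtain ⟨ω, hω⟩ := D.isUnit_W hc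
  refine ⟨algebraMap _ D.B r * ((ω⁻¹ : (D.B)ˣ) : D.B), ?_⟩
  have h1 : D.ψ (ω : D.B) = algebraMap _ D.P u := by
    rw [hω, ψ_alg]
    congr 1
    have : piT ((x0 R₁ : R0 R₁) : MvPolynomial (Fin 4) R₁) = 0 := by
      rw [x0_val]; simp [piT]
    rw [Subalgebra.coe_add, Subalgebra.coe_mul, map_add, map_mul, this, zero_mul, add_zero, hv]
  have h2 : D.ψ (ω : D.B) * D.ψ ((ω⁻¹ : (D.B)ˣ) : D.B) = 1 := by
    rw [← map_mul]; simp
  apply (D.isUnit_P hu).mul_left_cancel
  rw [map_mul, ψ_alg, hr, ← h, ← h1]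
  linear_combination (D.ψ (ω : D.B) * m) * h2

/-- the restriction of `ψ` to the pullback ring is surjective -/
theorem ψA_surj (m : D.P) : ∃ a : Apb D.Φ1 D.Φ2, D.ψ (a : D.B) = m := by
  obtain ⟨b, hb⟩ := D.ψ_surj m
  obtain ⟨v, hv⟩ := D.Φ2_surj (D.Φ1 b - D.Φ2 b)
  refine ⟨⟨b + D.x * v, ?_⟩, ?_⟩
  · change D.Φ1 _ = D.Φ2 _
    have h1 : D.Φ1 D.x = 0 := by rw [x, Φ1_alg, f1_x]
    have h2 : D.Φ2 D.x = 1 := by rw [x, Φ2_alg, f2_x]
    rw [map_add, map_add, map_mul, map_mul, h1, h2, hv]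
    ring
  · change D.ψ (b + D.x * v) = m
    rw [map_add, map_mul, ψ_x, zero_mul, add_zero, hb]

end Dat

end Pool.Agent.TH210
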