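import Pool.Agent.TH210.Assemble
import Pool.Agent.TH210.PSide
import Pool.Agent.TH210.Dim
import Pool.Agent.TH210.KField

/-!
The properties of the counterexample.
-/

set_option autoImplicit false
set_option linter.all false

namespace Pool.Agent.TH210

open IsLocalRing

theorem exists_dim (A : Type) [CommRing A] [IsLocalRing A] [IsNoetherianRing A]
    (h4 : 4 ≤ ringKrullDim A) : ∃ d : ℕ, ringKrullDim A = (d : WithBot ℕ∞) ∧ 4 ≤ d := by
  have h1 : ringKrullDim A ≠ ⊤ := ringKrullDim_ne_top
  have h2 : ringKrullDim A ≠ ⊥ := ringKrullDim_ne_bot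
  obtain ⟨e, he⟩ := WithBot.ne_bot_iff_exists.mp h2
  have he1 : e ≠ ⊤ := by
    rintro rfl
    exact h1 he.symm
  obtain ⟨d, hd⟩ := ENat.ne_top_iff_exists.mp he1
  refine ⟨d, ?_, ?_⟩
  · rw [← he, ← hd]; rfl
  · rw [← he, ← hd] at h4
    have h5 : (((4 : ℕ) : ℕ∞) : WithBot ℕ∞) ≤ ((d : ℕ∞) : WithBot ℕ∞) := h4
    have h6 := WithBot.coe_le_coe.mp h5
    exact_mod_cast h6

theorem dim_quot_le {A P : Type} [CommRing A] [CommRing P] [Algebra A P]
    (hs : Function.Surjective (algebraMap A P)) (p : PrimeSpectrum A)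
    (hp : p ∈ Module.support A P) : ringKrullDim (A ⧸ p.asIdeal) ≤ ringKrullDim P := by
  have hker : RingHom.ker (algebraMap A P) ≤ p.asIdeal := by
    refine le_trans ?_ (Module.annihilator_le_of_mem_support hp)
    intro a ha
    rw [Module.mem_annihilator]
    intro m
    rw [Algebra.smul_def, show algebraMap A P a = 0 from ha, zero_mul]
  have h1 : ringKrullDim (A ⧸ p.asIdeal) ≤ ringKrullDim (A ⧸ RingHom.ker (algebraMap A P)) :=
    ringKrullDim_le_of_surjective (Ideal.Quotient.factor hker) (Ideal.Quotient.factor_surjective hker)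
  have h2 : ringKrullDim (A ⧸ RingHom.ker (algebraMap A P)) = ringKrullDim P :=
    ringKrullDim_eq_of_ringEquiv (RingHom.quotientKerEquivOfSurjective hs)
  exact h1.trans h2.le

theorem length_residue {A P : Type} [CommRing A] [CommRing P] [Algebra A P] [IsLocalRing P]
    (hs : Function.Surjective (algebraMap A P)) (I : Ideal P) (hI : maximalIdeal P = I) :
    Module.length A (P ⧸ I) = 1 := by
  subst hI
  rw [Module.length_eq_of_surjective (R := P) (S := A) (M := P ⧸ maximalIdeal P) hs,
    Module.length_eq_one_iff, isSimpleModule_iff_isCoatom, ← Ideal.isMaximal_def]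
  infer_instance

end Pool.Agent.TH210
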