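import Pool.Agent.TH210.MatBase

set_option autoImplicit false
set_option linter.all false
set_option maxRecDepth 4000

namespace Pool.Agent.TH210

open Matrix

variable {R : Type*} [CommRing R]

theorem F_comp1 (x y z w : R) (h2 : (2 : R) = 0) (h : x * y = z * w) :
    F1 x y z w * F2 x y z w = 0 := by
  ext i j
  fin_cases i <;> fin_cases j
  · rw [mul4]; change x*z + y*0 + z*x + w*0 = 0; linear_combination (x*z) * h2
  · rw [mul4]; change x*w + y*0 + z*0 + w*x = 0; linear_combination (x*w) * h2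
  · rw [mul4]; change x*0 + y*z + z*y + w*0 = 0; linear_combination (y*z) * h2
  · rw [mul4]; change x*0 + y*w + z*0 + w*y = 0; linear_combination (y*w) * h2
  · rw [mul4]; change x*y + y*0 + z*w + w*0 = 0; linear_combination (z*w) * h2 + (1) * h
  · rw [mul4]; change x*0 + y*x + z*0 + w*z = 0; linear_combination (z*w) * h2 + (1) * h

theorem F_comp2 (x y z w : R) (h2 : (2 : R) = 0) (h : x * y = z * w) :
    F2 x y z w * F3 x y z w = 0 := by
  ext i j
  fin_cases i <;> fin_cases j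
  · rw [mul6]; change z*0 + w*z^2 + 0*x^2 + 0*0 + y*(x*z) + 0*(x*z) = 0; linear_combination (z^2*w) * h2 + (z) * h
  · rw [mul6]; change z*0 + w*y^2 + 0*w^2 + 0*0 + y*(y*w) + 0*(y*w) = 0; linear_combination (y^2*w) * h2
  · rw [mul6]; change z*w + w*(y*z) + 0*(x*w) + 0*0 + y*(x*y + x) + 0*(x*y) = 0; linear_combination (y*z*w + z*w) * h2 + (y + 1) * h
  · rw [mul6]; change z*y + w*0 + 0*0 + 0*0 + y*z + 0*0 = 0; linear_combination (y*z) * h2
  · rw [mul6]; change z*0 + w*0 + 0*0 + 0*x + y*0 + 0*w = 0; ring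
  · rw [mul6]; change z*0 + w*(y*z) + 0*(x*w) + 0*z + y*(x*y) + 0*(x*y + y) = 0; linear_combination (y*z*w) * h2 + (y) * h
  · rw [mul6]; change 0*0 + 0*z^2 + z*x^2 + w*0 + 0*(x*z) + x*(x*z) = 0; linear_combination (x^2*z) * h2
  · rw [mul6]; change 0*0 + 0*y^2 + z*w^2 + w*0 + 0*(y*w) + x*(y*w) = 0; linear_combination (z*w^2) * h2 + (w) * h
  · rw [mul6]; change 0*w + 0*(y*z) + z*(x*w) + w*0 + 0*(x*y + x) + x*(x*y) = 0; linear_combination (x*z*w) * h2 + (x) * h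
  · rw [mul6]; change 0*y + 0*0 + z*0 + w*0 + 0*z + x*0 = 0; ring
  · rw [mul6]; change 0*0 + 0*0 + z*0 + w*x + 0*0 + x*w = 0; linear_combination (x*w) * h2
  · rw [mul6]; change 0*0 + 0*(y*z) + z*(x*w) + w*z + 0*(x*y) + x*(x*y + y) = 0; linear_combination (x*z*w + z*w) * h2 + (x + 1) * h
  · rw [mul6]; change x*0 + 0*z^2 + y*x^2 + 0*0 + w*(x*z) + 0*(x*z) = 0; linear_combination (x*z*w) * h2 + (x) * h
  · rw [mul6]; change x*0 + 0*y^2 + y*w^2 + 0*0 + w*(y*w) + 0*(y*w) = 0; linear_combination (y*w^2) * h2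
  · rw [mul6]; change x*w + 0*(y*z) + y*(x*w) + 0*0 + w*(x*y + x) + 0*(x*y) = 0; linear_combination (x*w + z*w^2) * h2 + (2*w) * h
  · rw [mul6]; change x*y + 0*0 + y*0 + 0*0 + w*z + 0*0 = 0; linear_combination (z*w) * h2 + (1) * h
  · rw [mul6]; change x*0 + 0*0 + y*0 + 0*x + w*0 + 0*w = 0; ring
  · rw [mul6]; change x*0 + 0*(y*z) + y*(x*w) + 0*z + w*(x*y) + 0*(x*y + y) = 0; linear_combination (z*w^2) * h2 + (2*w) * h
  · rw [mul6]; change 0*0 + x*z^2 + 0*x^2 + y*0 + 0*(x*z) + z*(x*z) = 0; linear_combination (x*z^2) * h2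
  · rw [mul6]; change 0*0 + x*y^2 + 0*w^2 + y*0 + 0*(y*w) + z*(y*w) = 0; linear_combination (y*z*w) * h2 + (y) * h
  · rw [mul6]; change 0*w + x*(y*z) + 0*(x*w) + y*0 + 0*(x*y + x) + z*(x*y) = 0; linear_combination (z^2*w) * h2 + (2*z) * h
  · rw [mul6]; change 0*y + x*0 + 0*0 + y*0 + 0*z + z*0 = 0; ring
  · rw [mul6]; change 0*0 + x*0 + 0*0 + y*x + 0*0 + z*w = 0; linear_combination (z*w) * h2 + (1) * h
  · rw [mul6]; change 0*0 + x*(y*z) + 0*(x*w) + y*z + 0*(x*y) + z*(x*y + y) = 0; linear_combination (y*z + z^2*w) * h2 + (2*z) * h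

theorem F_comp3 (x y z w : R) (h2 : (2 : R) = 0) (h : x * y = z * w) :
    F3 x y z w * F4 x y z w = 0 := by
  ext i j
  fin_cases i <;> fin_cases j
  · rw [mul6]; change 0*y + 0*0 + w*z + y*x + 0*0 + 0*0 = 0; linear_combination (z*w) * h2 + (1) * h
  · rw [mul6]; change 0*w + 0*0 + w*0 + y*0 + 0*z + 0*x = 0; ring
  · rw [mul6]; change 0*0 + 0*z + w*y + y*w + 0*0 + 0*0 = 0; linear_combination (y*w) * h2
  · rw [mul6]; change 0*0 + 0*x + w*0 + y*0 + 0*y + 0*w = 0; ring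
  · rw [mul6]; change z^2*y + y^2*0 + (y*z)*z + 0*x + 0*0 + (y*z)*0 = 0; linear_combination (y*z^2) * h2
  · rw [mul6]; change z^2*w + y^2*0 + (y*z)*0 + 0*0 + 0*z + (y*z)*x = 0; linear_combination (z^2*w) * h2 + (z) * h
  · rw [mul6]; change z^2*0 + y^2*z + (y*z)*y + 0*w + 0*0 + (y*z)*0 = 0; linear_combination (y^2*z) * h2
  · rw [mul6]; change z^2*0 + y^2*x + (y*z)*0 + 0*0 + 0*y + (y*z)*w = 0; linear_combination (y*z*w) * h2 + (y) * h
  · rw [mul6]; change x^2*y + w^2*0 + (x*w)*z + 0*x + 0*0 + (x*w)*0 = 0; linear_combination (x*z*w) * h2 + (x) * h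
  · rw [mul6]; change x^2*w + w^2*0 + (x*w)*0 + 0*0 + 0*z + (x*w)*x = 0; linear_combination (x^2*w) * h2
  · rw [mul6]; change x^2*0 + w^2*z + (x*w)*y + 0*w + 0*0 + (x*w)*0 = 0; linear_combination (z*w^2) * h2 + (w) * h
  · rw [mul6]; change x^2*0 + w^2*x + (x*w)*0 + 0*0 + 0*y + (x*w)*w = 0; linear_combination (x*w^2) * h2
  · rw [mul6]; change 0*y + 0*0 + 0*z + 0*x + x*0 + z*0 = 0; ring
  · rw [mul6]; change 0*w + 0*0 + 0*0 + 0*0 + x*z + z*x = 0; linear_combination (x*z) * h2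
  · rw [mul6]; change 0*0 + 0*z + 0*y + 0*w + x*0 + z*0 = 0; ring
  · rw [mul6]; change 0*0 + 0*x + 0*0 + 0*0 + x*y + z*w = 0; linear_combination (z*w) * h2 + (1) * h
  · rw [mul6]; change (x*z)*y + (y*w)*0 + (x*y + x)*z + z*x + 0*0 + (x*y)*0 = 0; linear_combination (x*z + z^2*w) * h2 + (2*z) * h
  · rw [mul6]; change (x*z)*w + (y*w)*0 + (x*y + x)*0 + z*0 + 0*z + (x*y)*x = 0; linear_combination (x*z*w) * h2 + (x) * h
  · rw [mul6]; change (x*z)*0 + (y*w)*z + (x*y + x)*y + z*w + 0*0 + (x*y)*0 = 0; linear_combination (y*z*w + z*w) * h2 + (y + 1) * h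
  · rw [mul6]; change (x*z)*0 + (y*w)*x + (x*y + x)*0 + z*0 + 0*y + (x*y)*w = 0; linear_combination (z*w^2) * h2 + (2*w) * h
  · rw [mul6]; change (x*z)*y + (y*w)*0 + (x*y)*z + 0*x + w*0 + (x*y + y)*0 = 0; linear_combination (z^2*w) * h2 + (2*z) * h
  · rw [mul6]; change (x*z)*w + (y*w)*0 + (x*y)*0 + 0*0 + w*z + (x*y + y)*x = 0; linear_combination (x*z*w + z*w) * h2 + (x + 1) * h
  · rw [mul6]; change (x*z)*0 + (y*w)*z + (x*y)*y + 0*w + w*0 + (x*y + y)*0 = 0; linear_combination (y*z*w) * h2 + (y) * h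
  · rw [mul6]; change (x*z)*0 + (y*w)*x + (x*y)*0 + 0*0 + w*y + (x*y + y)*w = 0; linear_combination (y*w + z*w^2) * h2 + (2*w) * h

theorem F_comp4 (x y z w : R) (h2 : (2 : R) = 0) (h : x * y = z * w) :
    F4 x y z w * F5 x y z w = 0 := by
  ext i j
  fin_cases i <;> fin_cases j
  · rw [mul4]; change y*w + w*y + 0*x + 0*z = 0; linear_combination (y*w) * h2
  · rw [mul4]; change 0*w + 0*y + z*x + x*z = 0; linear_combination (x*z) * h2
  · rw [mul4]; change z*w + 0*y + y*x + 0*z = 0; linear_combination (z*w) * h2 + (1) * h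
  · rw [mul4]; change x*w + 0*y + w*x + 0*z = 0; linear_combination (x*w) * h2
  · rw [mul4]; change 0*w + z*y + 0*x + y*z = 0; linear_combination (y*z) * h2
  · rw [mul4]; change 0*w + x*y + 0*x + w*z = 0; linear_combination (z*w) * h2 + (1) * h

theorem dF_comp (x y z w : R) (h2 : (2 : R) = 0) (h : x * y = z * w) (j : ℕ) :
    dF x y z w j * dF x y z w (j+1) = 0 := by
  rcases j with _ | _ | _ | _ | _ | j
  · ext i; exact i.elim0
  · exact F_comp1 x y z w h2 h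
  · exact F_comp2 x y z w h2 h
  · exact F_comp3 x y z w h2 h
  · exact F_comp4 x y z w h2 h
  · ext i k; exact k.elim0

end Pool.Agent.TH210
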