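import Pool.Agent.TH210.MatBase

set_option autoImplicit false
set_option linter.all false
set_option maxRecDepth 4000

namespace Pool.Agent.TH210

open Matrix

variable {R : Type*} [CommRing R]

theorem G_comp1 (a b c e : R) (h2 : (2 : R) = 0) :
    G1 a b c e * G2 a b c e = 0 := by
  ext i j
  fin_cases i <;> fin_cases j
  · rw [mul4]; change a*c + b*0 + c*a + e*0 = 0; linear_combination (a*c) * h2
  · rw [mul4]; change a*e + b*0 + c*0 + e*a = 0; linear_combination (a*e) * h2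
  · rw [mul4]; change a*0 + b*c + c*b + e*0 = 0; linear_combination (b*c) * h2
  · rw [mul4]; change a*0 + b*e + c*0 + e*b = 0; linear_combination (b*e) * h2
  · rw [mul4]; change a*b^2 + b*(a*b) + c*0 + e*0 = 0; linear_combination (a*b^2) * h2
  · rw [mul4]; change a*(a*b) + b*a^2 + c*e + e*c = 0; linear_combination (a^2*b + c*e) * h2

theorem G_comp2 (a b c e : R) (h2 : (2 : R) = 0) :
    G2 a b c e * G3 a b c e = 0 := by
  ext i j
  fin_cases i <;> fin_cases j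
  · rw [mul6]; change c*(a^2*b + c*e) + e*c^2 + 0*a^3 + 0*0 + b^2*0 + (a*b)*(a*c) = 0; linear_combination (a^2*b*c + c^2*e) * h2
  · rw [mul6]; change c*(b*e) + e*(b*c) + 0*(a*e) + 0*(a*c) + b^2*0 + (a*b)*0 = 0; linear_combination (b*c*e) * h2
  · rw [mul6]; change c*0 + e*0 + 0*e + 0*c + b^2*a + (a*b)*b = 0; linear_combination (a*b^2) * h2
  · rw [mul6]; change c*b^2 + e*0 + 0*(a*b) + 0*0 + b^2*c + (a*b)*0 = 0; linear_combination (b^2*c) * h2
  · rw [mul6]; change c*e^2 + e*(a^2*b + c*e) + 0*0 + 0*a^3 + b^2*0 + (a*b)*(a*e) = 0; linear_combination (a^2*b*e + c*e^2) * h2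
  · rw [mul6]; change c*0 + e*b^2 + 0*0 + 0*(a*b) + b^2*e + (a*b)*0 = 0; linear_combination (b^2*e) * h2
  · rw [mul6]; change 0*(a^2*b + c*e) + 0*c^2 + c*a^3 + e*0 + (a*b)*0 + a^2*(a*c) = 0; linear_combination (a^3*c) * h2
  · rw [mul6]; change 0*(b*e) + 0*(b*c) + c*(a*e) + e*(a*c) + (a*b)*0 + a^2*0 = 0; linear_combination (a*c*e) * h2
  · rw [mul6]; change 0*0 + 0*0 + c*e + e*c + (a*b)*a + a^2*b = 0; linear_combination (a^2*b + c*e) * h2
  · rw [mul6]; change 0*b^2 + 0*0 + c*(a*b) + e*0 + (a*b)*c + a^2*0 = 0; linear_combination (a*b*c) * h2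
  · rw [mul6]; change 0*e^2 + 0*(a^2*b + c*e) + c*0 + e*a^3 + (a*b)*0 + a^2*(a*e) = 0; linear_combination (a^3*e) * h2
  · rw [mul6]; change 0*0 + 0*b^2 + c*0 + e*(a*b) + (a*b)*e + a^2*0 = 0; linear_combination (a*b*e) * h2
  · rw [mul6]; change a*(a^2*b + c*e) + 0*c^2 + b*a^3 + 0*0 + 0*0 + e*(a*c) = 0; linear_combination (a^3*b + a*c*e) * h2
  · rw [mul6]; change a*(b*e) + 0*(b*c) + b*(a*e) + 0*(a*c) + 0*0 + e*0 = 0; linear_combination (a*b*e) * h2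
  · rw [mul6]; change a*0 + 0*0 + b*e + 0*c + 0*a + e*b = 0; linear_combination (b*e) * h2
  · rw [mul6]; change a*b^2 + 0*0 + b*(a*b) + 0*0 + 0*c + e*0 = 0; linear_combination (a*b^2) * h2
  · rw [mul6]; change a*e^2 + 0*(a^2*b + c*e) + b*0 + 0*a^3 + 0*0 + e*(a*e) = 0; linear_combination (a*e^2) * h2
  · rw [mul6]; change a*0 + 0*b^2 + b*0 + 0*(a*b) + 0*e + e*0 = 0; ring
  · rw [mul6]; change 0*(a^2*b + c*e) + a*c^2 + 0*a^3 + b*0 + 0*0 + c*(a*c) = 0; linear_combination (a*c^2) * h2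
  · rw [mul6]; change 0*(b*e) + a*(b*c) + 0*(a*e) + b*(a*c) + 0*0 + c*0 = 0; linear_combination (a*b*c) * h2
  · rw [mul6]; change 0*0 + a*0 + 0*e + b*c + 0*a + c*b = 0; linear_combination (b*c) * h2
  · rw [mul6]; change 0*b^2 + a*0 + 0*(a*b) + b*0 + 0*c + c*0 = 0; ring
  · rw [mul6]; change 0*e^2 + a*(a^2*b + c*e) + 0*0 + b*a^3 + 0*0 + c*(a*e) = 0; linear_combination (a^3*b + a*c*e) * h2
  · rw [mul6]; change 0*0 + a*b^2 + 0*0 + b*(a*b) + 0*e + c*0 = 0; linear_combination (a*b^2) * h2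

theorem G_comp3 (a b c e : R) (h2 : (2 : R) = 0) :
    G3 a b c e * G4 a b c e = 0 := by
  ext i j
  fin_cases i <;> fin_cases j
  · rw [mul6]; change (a^2*b + c*e)*b + (b*e)*c + 0*(a*c) + b^2*a^2 + e^2*0 + 0*0 = 0; linear_combination (a^2*b^2 + b*c*e) * h2
  · rw [mul6]; change (a^2*b + c*e)*0 + (b*e)*e + 0*(a*e) + b^2*0 + e^2*b + 0*a^2 = 0; linear_combination (b*e^2) * h2
  · rw [mul6]; change (a^2*b + c*e)*0 + (b*e)*b + 0*0 + b^2*e + e^2*0 + 0*c = 0; linear_combination (b^2*e) * h2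
  · rw [mul6]; change (a^2*b + c*e)*e + (b*e)*a^2 + 0*0 + b^2*0 + e^2*c + 0*0 = 0; linear_combination (a^2*b*e + c*e^2) * h2
  · rw [mul6]; change c^2*b + (b*c)*c + 0*(a*c) + 0*a^2 + (a^2*b + c*e)*0 + b^2*0 = 0; linear_combination (b*c^2) * h2
  · rw [mul6]; change c^2*0 + (b*c)*e + 0*(a*e) + 0*0 + (a^2*b + c*e)*b + b^2*a^2 = 0; linear_combination (a^2*b^2 + b*c*e) * h2
  · rw [mul6]; change c^2*0 + (b*c)*b + 0*0 + 0*e + (a^2*b + c*e)*0 + b^2*c = 0; linear_combination (b^2*c) * h2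
  · rw [mul6]; change c^2*e + (b*c)*a^2 + 0*0 + 0*0 + (a^2*b + c*e)*c + b^2*0 = 0; linear_combination (a^2*b*c + c^2*e) * h2
  · rw [mul6]; change a^3*b + (a*e)*c + e*(a*c) + (a*b)*a^2 + 0*0 + 0*0 = 0; linear_combination (a^3*b + a*c*e) * h2
  · rw [mul6]; change a^3*0 + (a*e)*e + e*(a*e) + (a*b)*0 + 0*b + 0*a^2 = 0; linear_combination (a*e^2) * h2
  · rw [mul6]; change a^3*0 + (a*e)*b + e*0 + (a*b)*e + 0*0 + 0*c = 0; linear_combination (a*b*e) * h2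
  · rw [mul6]; change a^3*e + (a*e)*a^2 + e*0 + (a*b)*0 + 0*c + 0*0 = 0; linear_combination (a^3*e) * h2
  · rw [mul6]; change 0*b + (a*c)*c + c*(a*c) + 0*a^2 + a^3*0 + (a*b)*0 = 0; linear_combination (a*c^2) * h2
  · rw [mul6]; change 0*0 + (a*c)*e + c*(a*e) + 0*0 + a^3*b + (a*b)*a^2 = 0; linear_combination (a^3*b + a*c*e) * h2
  · rw [mul6]; change 0*0 + (a*c)*b + c*0 + 0*e + a^3*0 + (a*b)*c = 0; linear_combination (a*b*c) * h2
  · rw [mul6]; change 0*e + (a*c)*a^2 + c*0 + 0*0 + a^3*c + (a*b)*0 = 0; linear_combination (a^3*c) * h2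
  · rw [mul6]; change 0*b + 0*c + a*(a*c) + c*a^2 + 0*0 + e*0 = 0; linear_combination (a^2*c) * h2
  · rw [mul6]; change 0*0 + 0*e + a*(a*e) + c*0 + 0*b + e*a^2 = 0; linear_combination (a^2*e) * h2
  · rw [mul6]; change 0*0 + 0*b + a*0 + c*e + 0*0 + e*c = 0; linear_combination (c*e) * h2
  · rw [mul6]; change 0*e + 0*a^2 + a*0 + c*0 + 0*c + e*0 = 0; ring
  · rw [mul6]; change (a*c)*b + 0*c + b*(a*c) + 0*a^2 + (a*e)*0 + 0*0 = 0; linear_combination (a*b*c) * h2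
  · rw [mul6]; change (a*c)*0 + 0*e + b*(a*e) + 0*0 + (a*e)*b + 0*a^2 = 0; linear_combination (a*b*e) * h2
  · rw [mul6]; change (a*c)*0 + 0*b + b*0 + 0*e + (a*e)*0 + 0*c = 0; ring
  · rw [mul6]; change (a*c)*e + 0*a^2 + b*0 + 0*0 + (a*e)*c + 0*0 = 0; linear_combination (a*c*e) * h2

theorem G_comp4 (a b c e : R) (h2 : (2 : R) = 0) :
    G4 a b c e * G5 a b c e = 0 := by
  ext i j
  fin_cases i <;> fin_cases j
  · rw [mul4]; change b*e + 0*c + 0*a^2 + e*b = 0; linear_combination (b*e) * h2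
  · rw [mul4]; change c*e + e*c + b*a^2 + a^2*b = 0; linear_combination (a^2*b + c*e) * h2
  · rw [mul4]; change (a*c)*e + (a*e)*c + 0*a^2 + 0*b = 0; linear_combination (a*c*e) * h2
  · rw [mul4]; change a^2*e + 0*c + e*a^2 + 0*b = 0; linear_combination (a^2*e) * h2
  · rw [mul4]; change 0*e + b*c + 0*a^2 + c*b = 0; linear_combination (b*c) * h2
  · rw [mul4]; change 0*e + a^2*c + c*a^2 + 0*b = 0; linear_combination (a^2*c) * h2

theorem dG_comp (a b c e : R) (h2 : (2 : R) = 0) (j : ℕ) :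
    dG a b c e j * dG a b c e (j+1) = 0 := by
  rcases j with _ | _ | _ | _ | _ | j
  · ext i; exact i.elim0
  · exact G_comp1 a b c e h2
  · exact G_comp2 a b c e h2
  · exact G_comp3 a b c e h2
  · exact G_comp4 a b c e h2
  · ext i k; exact k.elim0

end Pool.Agent.TH210
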