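import Pool.Agent.TH210.MatBase

set_option autoImplicit false
set_option linter.all false
set_option maxRecDepth 4000

namespace Pool.Agent.TH210

open Matrix

variable {R : Type*} [CommRing R]

theorem hx_id1 (x y z w : R) (h2 : (2 : R) = 0) (h : x * y = z * w) :
    F1 x y z w * hx1 x y z w = !![x^2] := by
  ext i j
  fin_cases i <;> fin_cases j
  · rw [mul4]; change x*x + y*0 + z*0 + w*0 = x^2; ring

theorem hx_id2 (x y z w : R) (h2 : (2 : R) = 0) (h : x * y = z * w) :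
    hx1 x y z w * F1 x y z w + F2 x y z w * hx2 x y z w = !![x^2, 0, 0, 0; 0, x^2, 0, 0; 0, 0, x^2, 0; 0, 0, 0, x^2] := by
  ext i j
  fin_cases i <;> fin_cases j
  · rw [Matrix.add_apply, mul1, mul6]; change (x*x) + (z*0 + w*0 + 0*0 + 0*0 + y*0 + 0*0) = x^2; ring
  · rw [Matrix.add_apply, mul1, mul6]; change (x*y) + (z*w + w*z + 0*0 + 0*0 + y*x + 0*x) = 0; linear_combination (2*z*w) * h2 + (2) * h
  · rw [Matrix.add_apply, mul1, mul6]; change (x*z) + (z*x + w*0 + 0*0 + 0*0 + y*0 + 0*0) = 0; linear_combination (x*z) * h2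
  · rw [Matrix.add_apply, mul1, mul6]; change (x*w) + (z*0 + w*x + 0*0 + 0*0 + y*0 + 0*0) = 0; linear_combination (x*w) * h2
  · rw [Matrix.add_apply, mul1, mul6]; change (0*x) + (0*0 + 0*0 + z*0 + w*0 + 0*0 + x*0) = 0; ring
  · rw [Matrix.add_apply, mul1, mul6]; change (0*y) + (0*w + 0*z + z*0 + w*0 + 0*x + x*x) = x^2; ring
  · rw [Matrix.add_apply, mul1, mul6]; change (0*z) + (0*x + 0*0 + z*0 + w*0 + 0*0 + x*0) = 0; ring
  · rw [Matrix.add_apply, mul1, mul6]; change (0*w) + (0*0 + 0*x + z*0 + w*0 + 0*0 + x*0) = 0; ring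
  · rw [Matrix.add_apply, mul1, mul6]; change (0*x) + (x*0 + 0*0 + y*0 + 0*0 + w*0 + 0*0) = 0; ring
  · rw [Matrix.add_apply, mul1, mul6]; change (0*y) + (x*w + 0*z + y*0 + 0*0 + w*x + 0*x) = 0; linear_combination (x*w) * h2
  · rw [Matrix.add_apply, mul1, mul6]; change (0*z) + (x*x + 0*0 + y*0 + 0*0 + w*0 + 0*0) = x^2; ring
  · rw [Matrix.add_apply, mul1, mul6]; change (0*w) + (x*0 + 0*x + y*0 + 0*0 + w*0 + 0*0) = 0; ring
  · rw [Matrix.add_apply, mul1, mul6]; change (0*x) + (0*0 + x*0 + 0*0 + y*0 + 0*0 + z*0) = 0; ring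
  · rw [Matrix.add_apply, mul1, mul6]; change (0*y) + (0*w + x*z + 0*0 + y*0 + 0*x + z*x) = 0; linear_combination (x*z) * h2
  · rw [Matrix.add_apply, mul1, mul6]; change (0*z) + (0*x + x*0 + 0*0 + y*0 + 0*0 + z*0) = 0; ring
  · rw [Matrix.add_apply, mul1, mul6]; change (0*w) + (0*0 + x*x + 0*0 + y*0 + 0*0 + z*0) = x^2; ring

theorem hx_id3 (x y z w : R) (h2 : (2 : R) = 0) (h : x * y = z * w) :
    hx2 x y z w * F2 x y z w + F3 x y z w * hx3 x y z w = !![x^2, 0, 0, 0, 0, 0; 0, x^2, 0, 0, 0, 0; 0, 0, x^2, 0, 0, 0; 0, 0, 0, x^2, 0, 0; 0, 0, 0, 0, x^2, 0; 0, 0, 0, 0, 0, x^2] := by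
  ext i j
  fin_cases i <;> fin_cases j
  · rw [Matrix.add_apply, mul4, mul6]; change (0*z + w*0 + x*x + 0*0) + (0*0 + 0*0 + w*0 + y*0 + 0*0 + 0*0) = x^2; ring
  · rw [Matrix.add_apply, mul4, mul6]; change (0*w + w*0 + x*0 + 0*x) + (0*0 + 0*0 + w*0 + y*0 + 0*0 + 0*0) = 0; ring
  · rw [Matrix.add_apply, mul4, mul6]; change (0*0 + w*z + x*y + 0*0) + (0*1 + 0*0 + w*0 + y*0 + 0*0 + 0*0) = 0; linear_combination (z*w) * h2 + (1) * h
  · rw [Matrix.add_apply, mul4, mul6]; change (0*0 + w*w + x*0 + 0*y) + (0*0 + 0*x + w*w + y*0 + 0*x + 0*0) = 0; linear_combination (w^2) * h2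
  · rw [Matrix.add_apply, mul4, mul6]; change (0*y + w*0 + x*w + 0*0) + (0*w + 0*0 + w*x + y*0 + 0*0 + 0*0) = 0; linear_combination (x*w) * h2
  · rw [Matrix.add_apply, mul4, mul6]; change (0*0 + w*x + x*0 + 0*z) + (0*w + 0*0 + w*x + y*0 + 0*0 + 0*0) = 0; linear_combination (x*w) * h2
  · rw [Matrix.add_apply, mul4, mul6]; change (0*z + z*0 + 0*x + x*0) + (z^2*0 + y^2*0 + (y*z)*0 + 0*0 + 0*0 + (y*z)*0) = 0; ring
  · rw [Matrix.add_apply, mul4, mul6]; change (0*w + z*0 + 0*0 + x*x) + (z^2*0 + y^2*0 + (y*z)*0 + 0*0 + 0*0 + (y*z)*0) = x^2; ring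
  · rw [Matrix.add_apply, mul4, mul6]; change (0*0 + z*z + 0*y + x*0) + (z^2*1 + y^2*0 + (y*z)*0 + 0*0 + 0*0 + (y*z)*0) = 0; linear_combination (z^2) * h2
  · rw [Matrix.add_apply, mul4, mul6]; change (0*0 + z*w + 0*0 + x*y) + (z^2*0 + y^2*x + (y*z)*w + 0*0 + 0*x + (y*z)*0) = 0; linear_combination (y*z*w + z*w) * h2 + (y + 1) * h
  · rw [Matrix.add_apply, mul4, mul6]; change (0*y + z*0 + 0*w + x*0) + (z^2*w + y^2*0 + (y*z)*x + 0*0 + 0*0 + (y*z)*0) = 0; linear_combination (z^2*w) * h2 + (z) * h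
  · rw [Matrix.add_apply, mul4, mul6]; change (0*0 + z*x + 0*0 + x*z) + (z^2*w + y^2*0 + (y*z)*x + 0*0 + 0*0 + (y*z)*0) = 0; linear_combination (x*z + z^2*w) * h2 + (z) * h
  · rw [Matrix.add_apply, mul4, mul6]; change (0*z + 0*0 + 0*x + 0*0) + (x^2*0 + w^2*0 + (x*w)*0 + 0*0 + 0*0 + (x*w)*0) = 0; ring
  · rw [Matrix.add_apply, mul4, mul6]; change (0*w + 0*0 + 0*0 + 0*x) + (x^2*0 + w^2*0 + (x*w)*0 + 0*0 + 0*0 + (x*w)*0) = 0; ring
  · rw [Matrix.add_apply, mul4, mul6]; change (0*0 + 0*z + 0*y + 0*0) + (x^2*1 + w^2*0 + (x*w)*0 + 0*0 + 0*0 + (x*w)*0) = x^2; ring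
  · rw [Matrix.add_apply, mul4, mul6]; change (0*0 + 0*w + 0*0 + 0*y) + (x^2*0 + w^2*x + (x*w)*w + 0*0 + 0*x + (x*w)*0) = 0; linear_combination (x*w^2) * h2
  · rw [Matrix.add_apply, mul4, mul6]; change (0*y + 0*0 + 0*w + 0*0) + (x^2*w + w^2*0 + (x*w)*x + 0*0 + 0*0 + (x*w)*0) = 0; linear_combination (x^2*w) * h2
  · rw [Matrix.add_apply, mul4, mul6]; change (0*0 + 0*x + 0*0 + 0*z) + (x^2*w + w^2*0 + (x*w)*x + 0*0 + 0*0 + (x*w)*0) = 0; linear_combination (x^2*w) * h2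
  · rw [Matrix.add_apply, mul4, mul6]; change (0*z + 0*0 + 0*x + 0*0) + (0*0 + 0*0 + 0*0 + 0*0 + x*0 + z*0) = 0; ring
  · rw [Matrix.add_apply, mul4, mul6]; change (0*w + 0*0 + 0*0 + 0*x) + (0*0 + 0*0 + 0*0 + 0*0 + x*0 + z*0) = 0; ring
  · rw [Matrix.add_apply, mul4, mul6]; change (0*0 + 0*z + 0*y + 0*0) + (0*1 + 0*0 + 0*0 + 0*0 + x*0 + z*0) = 0; ring
  · rw [Matrix.add_apply, mul4, mul6]; change (0*0 + 0*w + 0*0 + 0*y) + (0*0 + 0*x + 0*w + 0*0 + x*x + z*0) = x^2; ring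
  · rw [Matrix.add_apply, mul4, mul6]; change (0*y + 0*0 + 0*w + 0*0) + (0*w + 0*0 + 0*x + 0*0 + x*0 + z*0) = 0; ring
  · rw [Matrix.add_apply, mul4, mul6]; change (0*0 + 0*x + 0*0 + 0*z) + (0*w + 0*0 + 0*x + 0*0 + x*0 + z*0) = 0; ring
  · rw [Matrix.add_apply, mul4, mul6]; change (0*z + x*0 + 0*x + 0*0) + ((x*z)*0 + (y*w)*0 + (x*y + x)*0 + z*0 + 0*0 + (x*y)*0) = 0; ring
  · rw [Matrix.add_apply, mul4, mul6]; change (0*w + x*0 + 0*0 + 0*x) + ((x*z)*0 + (y*w)*0 + (x*y + x)*0 + z*0 + 0*0 + (x*y)*0) = 0; ring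
  · rw [Matrix.add_apply, mul4, mul6]; change (0*0 + x*z + 0*y + 0*0) + ((x*z)*1 + (y*w)*0 + (x*y + x)*0 + z*0 + 0*0 + (x*y)*0) = 0; linear_combination (x*z) * h2
  · rw [Matrix.add_apply, mul4, mul6]; change (0*0 + x*w + 0*0 + 0*y) + ((x*z)*0 + (y*w)*x + (x*y + x)*w + z*0 + 0*x + (x*y)*0) = 0; linear_combination (x*w + z*w^2) * h2 + (2*w) * h
  · rw [Matrix.add_apply, mul4, mul6]; change (0*y + x*0 + 0*w + 0*0) + ((x*z)*w + (y*w)*0 + (x*y + x)*x + z*0 + 0*0 + (x*y)*0) = x^2; linear_combination (x*z*w) * h2 + (x) * h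
  · rw [Matrix.add_apply, mul4, mul6]; change (0*0 + x*x + 0*0 + 0*z) + ((x*z)*w + (y*w)*0 + (x*y + x)*x + z*0 + 0*0 + (x*y)*0) = 0; linear_combination (x^2 + x*z*w) * h2 + (x) * h
  · rw [Matrix.add_apply, mul4, mul6]; change (0*z + x*0 + 0*x + 0*0) + ((x*z)*0 + (y*w)*0 + (x*y)*0 + 0*0 + w*0 + (x*y + y)*0) = 0; ring
  · rw [Matrix.add_apply, mul4, mul6]; change (0*w + x*0 + 0*0 + 0*x) + ((x*z)*0 + (y*w)*0 + (x*y)*0 + 0*0 + w*0 + (x*y + y)*0) = 0; ring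
  · rw [Matrix.add_apply, mul4, mul6]; change (0*0 + x*z + 0*y + 0*0) + ((x*z)*1 + (y*w)*0 + (x*y)*0 + 0*0 + w*0 + (x*y + y)*0) = 0; linear_combination (x*z) * h2
  · rw [Matrix.add_apply, mul4, mul6]; change (0*0 + x*w + 0*0 + 0*y) + ((x*z)*0 + (y*w)*x + (x*y)*w + 0*0 + w*x + (x*y + y)*0) = 0; linear_combination (x*w + z*w^2) * h2 + (2*w) * h
  · rw [Matrix.add_apply, mul4, mul6]; change (0*y + x*0 + 0*w + 0*0) + ((x*z)*w + (y*w)*0 + (x*y)*x + 0*0 + w*0 + (x*y + y)*0) = 0; linear_combination (x*z*w) * h2 + (x) * h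
  · rw [Matrix.add_apply, mul4, mul6]; change (0*0 + x*x + 0*0 + 0*z) + ((x*z)*w + (y*w)*0 + (x*y)*x + 0*0 + w*0 + (x*y + y)*0) = x^2; linear_combination (x*z*w) * h2 + (x) * h

theorem hx_id4 (x y z w : R) (h2 : (2 : R) = 0) (h : x * y = z * w) :
    hx3 x y z w * F3 x y z w + F4 x y z w * hx4 x y z w = !![x^2, 0, 0, 0, 0, 0; 0, x^2, 0, 0, 0, 0; 0, 0, x^2, 0, 0, 0; 0, 0, 0, x^2, 0, 0; 0, 0, 0, 0, x^2, 0; 0, 0, 0, 0, 0, x^2] := by
  ext i j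
  fin_cases i <;> fin_cases j
  · rw [Matrix.add_apply, mul6, mul4]; change (0*0 + 0*z^2 + 1*x^2 + 0*0 + w*(x*z) + w*(x*z)) + (y*0 + w*0 + 0*0 + 0*0) = x^2; linear_combination (x*z*w) * h2
  · rw [Matrix.add_apply, mul6, mul4]; change (0*0 + 0*y^2 + 1*w^2 + 0*0 + w*(y*w) + w*(y*w)) + (y*0 + w*w + 0*0 + 0*x) = 0; linear_combination (y*w^2 + w^2) * h2
  · rw [Matrix.add_apply, mul6, mul4]; change (0*w + 0*(y*z) + 1*(x*w) + 0*0 + w*(x*y + x) + w*(x*y)) + (y*0 + w*0 + 0*0 + 0*0) = 0; linear_combination (x*w + z*w^2) * h2 + (2*w) * h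
  · rw [Matrix.add_apply, mul6, mul4]; change (0*y + 0*0 + 1*0 + 0*0 + w*z + w*0) + (y*x + w*0 + 0*0 + 0*0) = 0; linear_combination (z*w) * h2 + (1) * h
  · rw [Matrix.add_apply, mul6, mul4]; change (0*0 + 0*0 + 1*0 + 0*x + w*0 + w*w) + (y*0 + w*w + 0*0 + 0*x) = 0; linear_combination (w^2) * h2
  · rw [Matrix.add_apply, mul6, mul4]; change (0*0 + 0*(y*z) + 1*(x*w) + 0*z + w*(x*y) + w*(x*y + y)) + (y*w + w*x + 0*x + 0*0) = 0; linear_combination (x*w + y*w + z*w^2) * h2 + (2*w) * h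
  · rw [Matrix.add_apply, mul6, mul4]; change (0*0 + 0*z^2 + 0*x^2 + x*0 + 0*(x*z) + 0*(x*z)) + (0*0 + 0*0 + z*0 + x*0) = 0; ring
  · rw [Matrix.add_apply, mul6, mul4]; change (0*0 + 0*y^2 + 0*w^2 + x*0 + 0*(y*w) + 0*(y*w)) + (0*0 + 0*w + z*0 + x*x) = x^2; ring
  · rw [Matrix.add_apply, mul6, mul4]; change (0*w + 0*(y*z) + 0*(x*w) + x*0 + 0*(x*y + x) + 0*(x*y)) + (0*0 + 0*0 + z*0 + x*0) = 0; ring
  · rw [Matrix.add_apply, mul6, mul4]; change (0*y + 0*0 + 0*0 + x*0 + 0*z + 0*0) + (0*x + 0*0 + z*0 + x*0) = 0; ring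
  · rw [Matrix.add_apply, mul6, mul4]; change (0*0 + 0*0 + 0*0 + x*x + 0*0 + 0*w) + (0*0 + 0*w + z*0 + x*x) = 0; linear_combination (x^2) * h2
  · rw [Matrix.add_apply, mul6, mul4]; change (0*0 + 0*(y*z) + 0*(x*w) + x*z + 0*(x*y) + 0*(x*y + y)) + (0*w + 0*x + z*x + x*0) = 0; linear_combination (x*z) * h2
  · rw [Matrix.add_apply, mul6, mul4]; change (0*0 + 0*z^2 + 0*x^2 + w*0 + x*(x*z) + x*(x*z)) + (z*0 + 0*0 + y*0 + 0*0) = 0; linear_combination (x^2*z) * h2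
  · rw [Matrix.add_apply, mul6, mul4]; change (0*0 + 0*y^2 + 0*w^2 + w*0 + x*(y*w) + x*(y*w)) + (z*0 + 0*w + y*0 + 0*x) = 0; linear_combination (z*w^2) * h2 + (2*w) * h
  · rw [Matrix.add_apply, mul6, mul4]; change (0*w + 0*(y*z) + 0*(x*w) + w*0 + x*(x*y + x) + x*(x*y)) + (z*0 + 0*0 + y*0 + 0*0) = x^2; linear_combination (x*z*w) * h2 + (2*x) * h
  · rw [Matrix.add_apply, mul6, mul4]; change (0*y + 0*0 + 0*0 + w*0 + x*z + x*0) + (z*x + 0*0 + y*0 + 0*0) = 0; linear_combination (x*z) * h2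
  · rw [Matrix.add_apply, mul6, mul4]; change (0*0 + 0*0 + 0*0 + w*x + x*0 + x*w) + (z*0 + 0*w + y*0 + 0*x) = 0; linear_combination (x*w) * h2
  · rw [Matrix.add_apply, mul6, mul4]; change (0*0 + 0*(y*z) + 0*(x*w) + w*z + x*(x*y) + x*(x*y + y)) + (z*w + 0*x + y*x + 0*0) = 0; linear_combination (x*z*w + 2*z*w) * h2 + (2*x + 2) * h
  · rw [Matrix.add_apply, mul6, mul4]; change (0*0 + 0*z^2 + 0*x^2 + 0*0 + 0*(x*z) + 0*(x*z)) + (x*0 + 0*0 + w*0 + 0*0) = 0; ring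
  · rw [Matrix.add_apply, mul6, mul4]; change (0*0 + 0*y^2 + 0*w^2 + 0*0 + 0*(y*w) + 0*(y*w)) + (x*0 + 0*w + w*0 + 0*x) = 0; ring
  · rw [Matrix.add_apply, mul6, mul4]; change (0*w + 0*(y*z) + 0*(x*w) + 0*0 + 0*(x*y + x) + 0*(x*y)) + (x*0 + 0*0 + w*0 + 0*0) = 0; ring
  · rw [Matrix.add_apply, mul6, mul4]; change (0*y + 0*0 + 0*0 + 0*0 + 0*z + 0*0) + (x*x + 0*0 + w*0 + 0*0) = x^2; ring
  · rw [Matrix.add_apply, mul6, mul4]; change (0*0 + 0*0 + 0*0 + 0*x + 0*0 + 0*w) + (x*0 + 0*w + w*0 + 0*x) = 0; ring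
  · rw [Matrix.add_apply, mul6, mul4]; change (0*0 + 0*(y*z) + 0*(x*w) + 0*z + 0*(x*y) + 0*(x*y + y)) + (x*w + 0*x + w*x + 0*0) = 0; linear_combination (x*w) * h2
  · rw [Matrix.add_apply, mul6, mul4]; change (0*0 + 0*z^2 + 0*x^2 + x*0 + 0*(x*z) + 0*(x*z)) + (0*0 + z*0 + 0*0 + y*0) = 0; ring
  · rw [Matrix.add_apply, mul6, mul4]; change (0*0 + 0*y^2 + 0*w^2 + x*0 + 0*(y*w) + 0*(y*w)) + (0*0 + z*w + 0*0 + y*x) = 0; linear_combination (z*w) * h2 + (1) * h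
  · rw [Matrix.add_apply, mul6, mul4]; change (0*w + 0*(y*z) + 0*(x*w) + x*0 + 0*(x*y + x) + 0*(x*y)) + (0*0 + z*0 + 0*0 + y*0) = 0; ring
  · rw [Matrix.add_apply, mul6, mul4]; change (0*y + 0*0 + 0*0 + x*0 + 0*z + 0*0) + (0*x + z*0 + 0*0 + y*0) = 0; ring
  · rw [Matrix.add_apply, mul6, mul4]; change (0*0 + 0*0 + 0*0 + x*x + 0*0 + 0*w) + (0*0 + z*w + 0*0 + y*x) = x^2; linear_combination (z*w) * h2 + (1) * h
  · rw [Matrix.add_apply, mul6, mul4]; change (0*0 + 0*(y*z) + 0*(x*w) + x*z + 0*(x*y) + 0*(x*y + y)) + (0*w + z*x + 0*x + y*0) = 0; linear_combination (x*z) * h2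
  · rw [Matrix.add_apply, mul6, mul4]; change (0*0 + 0*z^2 + 0*x^2 + 0*0 + 0*(x*z) + 0*(x*z)) + (0*0 + x*0 + 0*0 + w*0) = 0; ring
  · rw [Matrix.add_apply, mul6, mul4]; change (0*0 + 0*y^2 + 0*w^2 + 0*0 + 0*(y*w) + 0*(y*w)) + (0*0 + x*w + 0*0 + w*x) = 0; linear_combination (x*w) * h2
  · rw [Matrix.add_apply, mul6, mul4]; change (0*w + 0*(y*z) + 0*(x*w) + 0*0 + 0*(x*y + x) + 0*(x*y)) + (0*0 + x*0 + 0*0 + w*0) = 0; ring
  · rw [Matrix.add_apply, mul6, mul4]; change (0*y + 0*0 + 0*0 + 0*0 + 0*z + 0*0) + (0*x + x*0 + 0*0 + w*0) = 0; ring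
  · rw [Matrix.add_apply, mul6, mul4]; change (0*0 + 0*0 + 0*0 + 0*x + 0*0 + 0*w) + (0*0 + x*w + 0*0 + w*x) = 0; linear_combination (x*w) * h2
  · rw [Matrix.add_apply, mul6, mul4]; change (0*0 + 0*(y*z) + 0*(x*w) + 0*z + 0*(x*y) + 0*(x*y + y)) + (0*w + x*x + 0*x + w*0) = x^2; ring

theorem hx_id5 (x y z w : R) (h2 : (2 : R) = 0) (h : x * y = z * w) :
    hx4 x y z w * F4 x y z w + F5 x y z w * hx5 x y z w = !![x^2, 0, 0, 0; 0, x^2, 0, 0; 0, 0, x^2, 0; 0, 0, 0, x^2] := by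
  ext i j
  fin_cases i <;> fin_cases j
  · rw [Matrix.add_apply, mul6, mul1]; change (0*y + 0*0 + 0*z + x*x + 0*0 + w*0) + (w*0) = x^2; ring
  · rw [Matrix.add_apply, mul6, mul1]; change (0*w + 0*0 + 0*0 + x*0 + 0*z + w*x) + (w*x) = 0; linear_combination (x*w) * h2
  · rw [Matrix.add_apply, mul6, mul1]; change (0*0 + 0*z + 0*y + x*w + 0*0 + w*0) + (w*x) = 0; linear_combination (x*w) * h2
  · rw [Matrix.add_apply, mul6, mul1]; change (0*0 + 0*x + 0*0 + x*0 + 0*y + w*w) + (w*w) = 0; linear_combination (w^2) * h2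
  · rw [Matrix.add_apply, mul6, mul1]; change (0*y + w*0 + 0*z + 0*x + w*0 + x*0) + (y*0) = 0; ring
  · rw [Matrix.add_apply, mul6, mul1]; change (0*w + w*0 + 0*0 + 0*0 + w*z + x*x) + (y*x) = x^2; linear_combination (z*w) * h2 + (1) * h
  · rw [Matrix.add_apply, mul6, mul1]; change (0*0 + w*z + 0*y + 0*w + w*0 + x*0) + (y*x) = 0; linear_combination (z*w) * h2 + (1) * h
  · rw [Matrix.add_apply, mul6, mul1]; change (0*0 + w*x + 0*0 + 0*0 + w*y + x*w) + (y*w) = 0; linear_combination (x*w + y*w) * h2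
  · rw [Matrix.add_apply, mul6, mul1]; change (0*y + 0*0 + 0*z + 0*x + 0*0 + x*0) + (x*0) = 0; ring
  · rw [Matrix.add_apply, mul6, mul1]; change (0*w + 0*0 + 0*0 + 0*0 + 0*z + x*x) + (x*x) = 0; linear_combination (x^2) * h2
  · rw [Matrix.add_apply, mul6, mul1]; change (0*0 + 0*z + 0*y + 0*w + 0*0 + x*0) + (x*x) = x^2; ring
  · rw [Matrix.add_apply, mul6, mul1]; change (0*0 + 0*x + 0*0 + 0*0 + 0*y + x*w) + (x*w) = 0; linear_combination (x*w) * h2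
  · rw [Matrix.add_apply, mul6, mul1]; change (0*y + x*0 + 0*z + 0*x + x*0 + 0*0) + (z*0) = 0; ring
  · rw [Matrix.add_apply, mul6, mul1]; change (0*w + x*0 + 0*0 + 0*0 + x*z + 0*x) + (z*x) = 0; linear_combination (x*z) * h2
  · rw [Matrix.add_apply, mul6, mul1]; change (0*0 + x*z + 0*y + 0*w + x*0 + 0*0) + (z*x) = 0; linear_combination (x*z) * h2
  · rw [Matrix.add_apply, mul6, mul1]; change (0*0 + x*x + 0*0 + 0*0 + x*y + 0*w) + (z*w) = x^2; linear_combination (z*w) * h2 + (1) * h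

theorem hx_id6 (x y z w : R) (h2 : (2 : R) = 0) (h : x * y = z * w) :
    hx5 x y z w * F5 x y z w = !![x^2] := by
  ext i j
  fin_cases i <;> fin_cases j
  · rw [mul4]; change 0*w + x*y + x*x + w*z = x^2; linear_combination (z*w) * h2 + (1) * h

theorem hx_null (x y z w : R) (h2 : (2 : R) = 0) (h : x * y = z * w) (j : ℕ) :
    hx x y z w j * dF x y z w j + dF x y z w (j+1) * hx x y z w (j+1) =
      (x^2) • (1 : Matrix (Fin (rk (j+1))) (Fin (rk (j+1))) R) := by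
  rcases j with _ | _ | _ | _ | _ | _ | j
  · exact end_left _ _ _ _ ((hx_id1 x y z w h2 h).trans (smul_one_one _).symm)
  · exact (hx_id2 x y z w h2 h).trans (smul_one_four _).symm
  · exact (hx_id3 x y z w h2 h).trans (smul_one_six _).symm
  · exact (hx_id4 x y z w h2 h).trans (smul_one_six _).symm
  · exact (hx_id5 x y z w h2 h).trans (smul_one_four _).symm
  · exact end_right _ _ _ _ ((hx_id6 x y z w h2 h).trans (smul_one_one _).symm)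
  · ext i; exact i.elim0

end Pool.Agent.TH210
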