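import Pool.Agent.TH210.MatBase

set_option autoImplicit false
set_option linter.all false
set_option maxRecDepth 4000

namespace Pool.Agent.TH210

open Matrix

variable {R : Type*} [CommRing R]

theorem hy_id1 (x y z w : R) (h2 : (2 : R) = 0) (h : x * y = z * w) :
    F1 x y z w * hy1 x y z w = !![y^2] := by
  ext i j
  fin_cases i <;> fin_cases j
  · rw [mul4]; change x*0 + y*y + z*0 + w*0 = y^2; ring

theorem hy_id2 (x y z w : R) (h2 : (2 : R) = 0) (h : x * y = z * w) :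
    hy1 x y z w * F1 x y z w + F2 x y z w * hy2 x y z w = !![y^2, 0, 0, 0; 0, y^2, 0, 0; 0, 0, y^2, 0; 0, 0, 0, y^2] := by
  ext i j
  fin_cases i <;> fin_cases j
  · rw [Matrix.add_apply, mul1, mul6]; change (0*x) + (z*0 + w*0 + 0*w + 0*z + y*y + 0*y) = y^2; ring
  · rw [Matrix.add_apply, mul1, mul6]; change (0*y) + (z*0 + w*0 + 0*0 + 0*0 + y*0 + 0*0) = 0; ring
  · rw [Matrix.add_apply, mul1, mul6]; change (0*z) + (z*0 + w*0 + 0*y + 0*0 + y*0 + 0*0) = 0; ring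
  · rw [Matrix.add_apply, mul1, mul6]; change (0*w) + (z*0 + w*0 + 0*0 + 0*y + y*0 + 0*0) = 0; ring
  · rw [Matrix.add_apply, mul1, mul6]; change (y*x) + (0*0 + 0*0 + z*w + w*z + 0*y + x*y) = 0; linear_combination (2*z*w) * h2 + (2) * h
  · rw [Matrix.add_apply, mul1, mul6]; change (y*y) + (0*0 + 0*0 + z*0 + w*0 + 0*0 + x*0) = y^2; ring
  · rw [Matrix.add_apply, mul1, mul6]; change (y*z) + (0*0 + 0*0 + z*y + w*0 + 0*0 + x*0) = 0; linear_combination (y*z) * h2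
  · rw [Matrix.add_apply, mul1, mul6]; change (y*w) + (0*0 + 0*0 + z*0 + w*y + 0*0 + x*0) = 0; linear_combination (y*w) * h2
  · rw [Matrix.add_apply, mul1, mul6]; change (0*x) + (x*0 + 0*0 + y*w + 0*z + w*y + 0*y) = 0; linear_combination (y*w) * h2
  · rw [Matrix.add_apply, mul1, mul6]; change (0*y) + (x*0 + 0*0 + y*0 + 0*0 + w*0 + 0*0) = 0; ring
  · rw [Matrix.add_apply, mul1, mul6]; change (0*z) + (x*0 + 0*0 + y*y + 0*0 + w*0 + 0*0) = y^2; ring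
  · rw [Matrix.add_apply, mul1, mul6]; change (0*w) + (x*0 + 0*0 + y*0 + 0*y + w*0 + 0*0) = 0; ring
  · rw [Matrix.add_apply, mul1, mul6]; change (0*x) + (0*0 + x*0 + 0*w + y*z + 0*y + z*y) = 0; linear_combination (y*z) * h2
  · rw [Matrix.add_apply, mul1, mul6]; change (0*y) + (0*0 + x*0 + 0*0 + y*0 + 0*0 + z*0) = 0; ring
  · rw [Matrix.add_apply, mul1, mul6]; change (0*z) + (0*0 + x*0 + 0*y + y*0 + 0*0 + z*0) = 0; ring
  · rw [Matrix.add_apply, mul1, mul6]; change (0*w) + (0*0 + x*0 + 0*0 + y*y + 0*0 + z*0) = y^2; ring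

theorem hy_id3 (x y z w : R) (h2 : (2 : R) = 0) (h : x * y = z * w) :
    hy2 x y z w * F2 x y z w + F3 x y z w * hy3 x y z w = !![y^2, 0, 0, 0, 0, 0; 0, y^2, 0, 0, 0, 0; 0, 0, y^2, 0, 0, 0; 0, 0, 0, y^2, 0, 0; 0, 0, 0, 0, y^2, 0; 0, 0, 0, 0, 0, y^2] := by
  ext i j
  fin_cases i <;> fin_cases j
  · rw [Matrix.add_apply, mul4, mul6]; change (0*z + 0*0 + 0*x + 0*0) + (0*y + 0*0 + w*0 + y*y + 0*0 + 0*z) = y^2; ring
  · rw [Matrix.add_apply, mul4, mul6]; change (0*w + 0*0 + 0*0 + 0*x) + (0*0 + 0*1 + w*0 + y*0 + 0*0 + 0*0) = 0; ring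
  · rw [Matrix.add_apply, mul4, mul6]; change (0*0 + 0*z + 0*y + 0*0) + (0*0 + 0*0 + w*0 + y*0 + 0*0 + 0*0) = 0; ring
  · rw [Matrix.add_apply, mul4, mul6]; change (0*0 + 0*w + 0*0 + 0*y) + (0*0 + 0*0 + w*0 + y*0 + 0*0 + 0*0) = 0; ring
  · rw [Matrix.add_apply, mul4, mul6]; change (0*y + 0*0 + 0*w + 0*0) + (0*0 + 0*z + w*0 + y*0 + 0*0 + 0*y) = 0; ring
  · rw [Matrix.add_apply, mul4, mul6]; change (0*0 + 0*x + 0*0 + 0*z) + (0*0 + 0*z + w*0 + y*0 + 0*0 + 0*y) = 0; ring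
  · rw [Matrix.add_apply, mul4, mul6]; change (0*z + 0*0 + 0*x + 0*0) + (z^2*y + y^2*0 + (y*z)*0 + 0*y + 0*0 + (y*z)*z) = 0; linear_combination (y*z^2) * h2
  · rw [Matrix.add_apply, mul4, mul6]; change (0*w + 0*0 + 0*0 + 0*x) + (z^2*0 + y^2*1 + (y*z)*0 + 0*0 + 0*0 + (y*z)*0) = y^2; ring
  · rw [Matrix.add_apply, mul4, mul6]; change (0*0 + 0*z + 0*y + 0*0) + (z^2*0 + y^2*0 + (y*z)*0 + 0*0 + 0*0 + (y*z)*0) = 0; ring
  · rw [Matrix.add_apply, mul4, mul6]; change (0*0 + 0*w + 0*0 + 0*y) + (z^2*0 + y^2*0 + (y*z)*0 + 0*0 + 0*0 + (y*z)*0) = 0; ring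
  · rw [Matrix.add_apply, mul4, mul6]; change (0*y + 0*0 + 0*w + 0*0) + (z^2*0 + y^2*z + (y*z)*0 + 0*0 + 0*0 + (y*z)*y) = 0; linear_combination (y^2*z) * h2
  · rw [Matrix.add_apply, mul4, mul6]; change (0*0 + 0*x + 0*0 + 0*z) + (z^2*0 + y^2*z + (y*z)*0 + 0*0 + 0*0 + (y*z)*y) = 0; linear_combination (y^2*z) * h2
  · rw [Matrix.add_apply, mul4, mul6]; change (w*z + 0*0 + y*x + 0*0) + (x^2*y + w^2*0 + (x*w)*0 + 0*y + 0*0 + (x*w)*z) = 0; linear_combination (x*z*w + z*w) * h2 + (x + 1) * h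
  · rw [Matrix.add_apply, mul4, mul6]; change (w*w + 0*0 + y*0 + 0*x) + (x^2*0 + w^2*1 + (x*w)*0 + 0*0 + 0*0 + (x*w)*0) = 0; linear_combination (w^2) * h2
  · rw [Matrix.add_apply, mul4, mul6]; change (w*0 + 0*z + y*y + 0*0) + (x^2*0 + w^2*0 + (x*w)*0 + 0*0 + 0*0 + (x*w)*0) = y^2; ring
  · rw [Matrix.add_apply, mul4, mul6]; change (w*0 + 0*w + y*0 + 0*y) + (x^2*0 + w^2*0 + (x*w)*0 + 0*0 + 0*0 + (x*w)*0) = 0; ring
  · rw [Matrix.add_apply, mul4, mul6]; change (w*y + 0*0 + y*w + 0*0) + (x^2*0 + w^2*z + (x*w)*0 + 0*0 + 0*0 + (x*w)*y) = 0; linear_combination (y*w + z*w^2) * h2 + (w) * h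
  · rw [Matrix.add_apply, mul4, mul6]; change (w*0 + 0*x + y*0 + 0*z) + (x^2*0 + w^2*z + (x*w)*0 + 0*0 + 0*0 + (x*w)*y) = 0; linear_combination (z*w^2) * h2 + (w) * h
  · rw [Matrix.add_apply, mul4, mul6]; change (z*z + 0*0 + 0*x + y*0) + (0*y + 0*0 + 0*0 + 0*y + x*0 + z*z) = 0; linear_combination (z^2) * h2
  · rw [Matrix.add_apply, mul4, mul6]; change (z*w + 0*0 + 0*0 + y*x) + (0*0 + 0*1 + 0*0 + 0*0 + x*0 + z*0) = 0; linear_combination (z*w) * h2 + (1) * h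
  · rw [Matrix.add_apply, mul4, mul6]; change (z*0 + 0*z + 0*y + y*0) + (0*0 + 0*0 + 0*0 + 0*0 + x*0 + z*0) = 0; ring
  · rw [Matrix.add_apply, mul4, mul6]; change (z*0 + 0*w + 0*0 + y*y) + (0*0 + 0*0 + 0*0 + 0*0 + x*0 + z*0) = y^2; ring
  · rw [Matrix.add_apply, mul4, mul6]; change (z*y + 0*0 + 0*w + y*0) + (0*0 + 0*z + 0*0 + 0*0 + x*0 + z*y) = 0; linear_combination (y*z) * h2
  · rw [Matrix.add_apply, mul4, mul6]; change (z*0 + 0*x + 0*0 + y*z) + (0*0 + 0*z + 0*0 + 0*0 + x*0 + z*y) = 0; linear_combination (y*z) * h2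
  · rw [Matrix.add_apply, mul4, mul6]; change (y*z + 0*0 + 0*x + 0*0) + ((x*z)*y + (y*w)*0 + (x*y + x)*0 + z*y + 0*0 + (x*y)*z) = 0; linear_combination (y*z + z^2*w) * h2 + (2*z) * h
  · rw [Matrix.add_apply, mul4, mul6]; change (y*w + 0*0 + 0*0 + 0*x) + ((x*z)*0 + (y*w)*1 + (x*y + x)*0 + z*0 + 0*0 + (x*y)*0) = 0; linear_combination (y*w) * h2
  · rw [Matrix.add_apply, mul4, mul6]; change (y*0 + 0*z + 0*y + 0*0) + ((x*z)*0 + (y*w)*0 + (x*y + x)*0 + z*0 + 0*0 + (x*y)*0) = 0; ring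
  · rw [Matrix.add_apply, mul4, mul6]; change (y*0 + 0*w + 0*0 + 0*y) + ((x*z)*0 + (y*w)*0 + (x*y + x)*0 + z*0 + 0*0 + (x*y)*0) = 0; ring
  · rw [Matrix.add_apply, mul4, mul6]; change (y*y + 0*0 + 0*w + 0*0) + ((x*z)*0 + (y*w)*z + (x*y + x)*0 + z*0 + 0*0 + (x*y)*y) = y^2; linear_combination (y*z*w) * h2 + (y) * h
  · rw [Matrix.add_apply, mul4, mul6]; change (y*0 + 0*x + 0*0 + 0*z) + ((x*z)*0 + (y*w)*z + (x*y + x)*0 + z*0 + 0*0 + (x*y)*y) = 0; linear_combination (y*z*w) * h2 + (y) * h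
  · rw [Matrix.add_apply, mul4, mul6]; change (y*z + 0*0 + 0*x + 0*0) + ((x*z)*y + (y*w)*0 + (x*y)*0 + 0*y + w*0 + (x*y + y)*z) = 0; linear_combination (y*z + z^2*w) * h2 + (2*z) * h
  · rw [Matrix.add_apply, mul4, mul6]; change (y*w + 0*0 + 0*0 + 0*x) + ((x*z)*0 + (y*w)*1 + (x*y)*0 + 0*0 + w*0 + (x*y + y)*0) = 0; linear_combination (y*w) * h2
  · rw [Matrix.add_apply, mul4, mul6]; change (y*0 + 0*z + 0*y + 0*0) + ((x*z)*0 + (y*w)*0 + (x*y)*0 + 0*0 + w*0 + (x*y + y)*0) = 0; ring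
  · rw [Matrix.add_apply, mul4, mul6]; change (y*0 + 0*w + 0*0 + 0*y) + ((x*z)*0 + (y*w)*0 + (x*y)*0 + 0*0 + w*0 + (x*y + y)*0) = 0; ring
  · rw [Matrix.add_apply, mul4, mul6]; change (y*y + 0*0 + 0*w + 0*0) + ((x*z)*0 + (y*w)*z + (x*y)*0 + 0*0 + w*0 + (x*y + y)*y) = 0; linear_combination (y^2 + y*z*w) * h2 + (y) * h
  · rw [Matrix.add_apply, mul4, mul6]; change (y*0 + 0*x + 0*0 + 0*z) + ((x*z)*0 + (y*w)*z + (x*y)*0 + 0*0 + w*0 + (x*y + y)*y) = y^2; linear_combination (y*z*w) * h2 + (y) * h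

theorem hy_id4 (x y z w : R) (h2 : (2 : R) = 0) (h : x * y = z * w) :
    hy3 x y z w * F3 x y z w + F4 x y z w * hy4 x y z w = !![y^2, 0, 0, 0, 0, 0; 0, y^2, 0, 0, 0, 0; 0, 0, y^2, 0, 0, 0; 0, 0, 0, y^2, 0, 0; 0, 0, 0, 0, y^2, 0; 0, 0, 0, 0, 0, y^2] := by
  ext i j
  fin_cases i <;> fin_cases j
  · rw [Matrix.add_apply, mul6, mul4]; change (y*0 + 0*z^2 + 0*x^2 + 0*0 + 0*(x*z) + 0*(x*z)) + (y*y + w*0 + 0*z + 0*0) = y^2; ring
  · rw [Matrix.add_apply, mul6, mul4]; change (y*0 + 0*y^2 + 0*w^2 + 0*0 + 0*(y*w) + 0*(y*w)) + (y*0 + w*0 + 0*0 + 0*0) = 0; ring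
  · rw [Matrix.add_apply, mul6, mul4]; change (y*w + 0*(y*z) + 0*(x*w) + 0*0 + 0*(x*y + x) + 0*(x*y)) + (y*0 + w*y + 0*y + 0*z) = 0; linear_combination (y*w) * h2
  · rw [Matrix.add_apply, mul6, mul4]; change (y*y + 0*0 + 0*0 + 0*0 + 0*z + 0*0) + (y*y + w*0 + 0*z + 0*0) = 0; linear_combination (y^2) * h2
  · rw [Matrix.add_apply, mul6, mul4]; change (y*0 + 0*0 + 0*0 + 0*x + 0*0 + 0*w) + (y*0 + w*0 + 0*0 + 0*y) = 0; ring
  · rw [Matrix.add_apply, mul6, mul4]; change (y*0 + 0*(y*z) + 0*(x*w) + 0*z + 0*(x*y) + 0*(x*y + y)) + (y*0 + w*0 + 0*0 + 0*0) = 0; ring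
  · rw [Matrix.add_apply, mul6, mul4]; change (0*0 + 1*z^2 + 0*x^2 + 0*0 + z*(x*z) + z*(x*z)) + (0*y + 0*0 + z*z + x*0) = 0; linear_combination (x*z^2 + z^2) * h2
  · rw [Matrix.add_apply, mul6, mul4]; change (0*0 + 1*y^2 + 0*w^2 + 0*0 + z*(y*w) + z*(y*w)) + (0*0 + 0*0 + z*0 + x*0) = y^2; linear_combination (y*z*w) * h2
  · rw [Matrix.add_apply, mul6, mul4]; change (0*w + 1*(y*z) + 0*(x*w) + 0*0 + z*(x*y + x) + z*(x*y)) + (0*0 + 0*y + z*y + x*z) = 0; linear_combination (x*z + y*z + z^2*w) * h2 + (2*z) * h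
  · rw [Matrix.add_apply, mul6, mul4]; change (0*y + 1*0 + 0*0 + 0*0 + z*z + z*0) + (0*y + 0*0 + z*z + x*0) = 0; linear_combination (z^2) * h2
  · rw [Matrix.add_apply, mul6, mul4]; change (0*0 + 1*0 + 0*0 + 0*x + z*0 + z*w) + (0*0 + 0*0 + z*0 + x*y) = 0; linear_combination (z*w) * h2 + (1) * h
  · rw [Matrix.add_apply, mul6, mul4]; change (0*0 + 1*(y*z) + 0*(x*w) + 0*z + z*(x*y) + z*(x*y + y)) + (0*0 + 0*0 + z*0 + x*0) = 0; linear_combination (y*z + z^2*w) * h2 + (2*z) * h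
  · rw [Matrix.add_apply, mul6, mul4]; change (0*0 + 0*z^2 + 0*x^2 + 0*0 + 0*(x*z) + 0*(x*z)) + (z*y + 0*0 + y*z + 0*0) = 0; linear_combination (y*z) * h2
  · rw [Matrix.add_apply, mul6, mul4]; change (0*0 + 0*y^2 + 0*w^2 + 0*0 + 0*(y*w) + 0*(y*w)) + (z*0 + 0*0 + y*0 + 0*0) = 0; ring
  · rw [Matrix.add_apply, mul6, mul4]; change (0*w + 0*(y*z) + 0*(x*w) + 0*0 + 0*(x*y + x) + 0*(x*y)) + (z*0 + 0*y + y*y + 0*z) = y^2; ring
  · rw [Matrix.add_apply, mul6, mul4]; change (0*y + 0*0 + 0*0 + 0*0 + 0*z + 0*0) + (z*y + 0*0 + y*z + 0*0) = 0; linear_combination (y*z) * h2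
  · rw [Matrix.add_apply, mul6, mul4]; change (0*0 + 0*0 + 0*0 + 0*x + 0*0 + 0*w) + (z*0 + 0*0 + y*0 + 0*y) = 0; ring
  · rw [Matrix.add_apply, mul6, mul4]; change (0*0 + 0*(y*z) + 0*(x*w) + 0*z + 0*(x*y) + 0*(x*y + y)) + (z*0 + 0*0 + y*0 + 0*0) = 0; ring
  · rw [Matrix.add_apply, mul6, mul4]; change (y*0 + 0*z^2 + 0*x^2 + 0*0 + 0*(x*z) + 0*(x*z)) + (x*y + 0*0 + w*z + 0*0) = 0; linear_combination (z*w) * h2 + (1) * h
  · rw [Matrix.add_apply, mul6, mul4]; change (y*0 + 0*y^2 + 0*w^2 + 0*0 + 0*(y*w) + 0*(y*w)) + (x*0 + 0*0 + w*0 + 0*0) = 0; ring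
  · rw [Matrix.add_apply, mul6, mul4]; change (y*w + 0*(y*z) + 0*(x*w) + 0*0 + 0*(x*y + x) + 0*(x*y)) + (x*0 + 0*y + w*y + 0*z) = 0; linear_combination (y*w) * h2
  · rw [Matrix.add_apply, mul6, mul4]; change (y*y + 0*0 + 0*0 + 0*0 + 0*z + 0*0) + (x*y + 0*0 + w*z + 0*0) = y^2; linear_combination (z*w) * h2 + (1) * h
  · rw [Matrix.add_apply, mul6, mul4]; change (y*0 + 0*0 + 0*0 + 0*x + 0*0 + 0*w) + (x*0 + 0*0 + w*0 + 0*y) = 0; ring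
  · rw [Matrix.add_apply, mul6, mul4]; change (y*0 + 0*(y*z) + 0*(x*w) + 0*z + 0*(x*y) + 0*(x*y + y)) + (x*0 + 0*0 + w*0 + 0*0) = 0; ring
  · rw [Matrix.add_apply, mul6, mul4]; change (0*0 + 0*z^2 + 0*x^2 + 0*0 + 0*(x*z) + 0*(x*z)) + (0*y + z*0 + 0*z + y*0) = 0; ring
  · rw [Matrix.add_apply, mul6, mul4]; change (0*0 + 0*y^2 + 0*w^2 + 0*0 + 0*(y*w) + 0*(y*w)) + (0*0 + z*0 + 0*0 + y*0) = 0; ring
  · rw [Matrix.add_apply, mul6, mul4]; change (0*w + 0*(y*z) + 0*(x*w) + 0*0 + 0*(x*y + x) + 0*(x*y)) + (0*0 + z*y + 0*y + y*z) = 0; linear_combination (y*z) * h2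
  · rw [Matrix.add_apply, mul6, mul4]; change (0*y + 0*0 + 0*0 + 0*0 + 0*z + 0*0) + (0*y + z*0 + 0*z + y*0) = 0; ring
  · rw [Matrix.add_apply, mul6, mul4]; change (0*0 + 0*0 + 0*0 + 0*x + 0*0 + 0*w) + (0*0 + z*0 + 0*0 + y*y) = y^2; ring
  · rw [Matrix.add_apply, mul6, mul4]; change (0*0 + 0*(y*z) + 0*(x*w) + 0*z + 0*(x*y) + 0*(x*y + y)) + (0*0 + z*0 + 0*0 + y*0) = 0; ring
  · rw [Matrix.add_apply, mul6, mul4]; change (z*0 + 0*z^2 + 0*x^2 + 0*0 + y*(x*z) + y*(x*z)) + (0*y + x*0 + 0*z + w*0) = 0; linear_combination (z^2*w) * h2 + (2*z) * h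
  · rw [Matrix.add_apply, mul6, mul4]; change (z*0 + 0*y^2 + 0*w^2 + 0*0 + y*(y*w) + y*(y*w)) + (0*0 + x*0 + 0*0 + w*0) = 0; linear_combination (y^2*w) * h2
  · rw [Matrix.add_apply, mul6, mul4]; change (z*w + 0*(y*z) + 0*(x*w) + 0*0 + y*(x*y + x) + y*(x*y)) + (0*0 + x*y + 0*y + w*z) = 0; linear_combination (y*z*w + 2*z*w) * h2 + (2*y + 2) * h
  · rw [Matrix.add_apply, mul6, mul4]; change (z*y + 0*0 + 0*0 + 0*0 + y*z + y*0) + (0*y + x*0 + 0*z + w*0) = 0; linear_combination (y*z) * h2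
  · rw [Matrix.add_apply, mul6, mul4]; change (z*0 + 0*0 + 0*0 + 0*x + y*0 + y*w) + (0*0 + x*0 + 0*0 + w*y) = 0; linear_combination (y*w) * h2
  · rw [Matrix.add_apply, mul6, mul4]; change (z*0 + 0*(y*z) + 0*(x*w) + 0*z + y*(x*y) + y*(x*y + y)) + (0*0 + x*0 + 0*0 + w*0) = y^2; linear_combination (y*z*w) * h2 + (2*y) * h

theorem hy_id5 (x y z w : R) (h2 : (2 : R) = 0) (h : x * y = z * w) :
    hy4 x y z w * F4 x y z w + F5 x y z w * hy5 x y z w = !![y^2, 0, 0, 0; 0, y^2, 0, 0; 0, 0, y^2, 0; 0, 0, 0, y^2] := by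
  ext i j
  fin_cases i <;> fin_cases j
  · rw [Matrix.add_apply, mul6, mul1]; change (y*y + 0*0 + 0*z + y*x + 0*0 + 0*0) + (w*z) = y^2; linear_combination (z*w) * h2 + (1) * h
  · rw [Matrix.add_apply, mul6, mul1]; change (y*w + 0*0 + 0*0 + y*0 + 0*z + 0*x) + (w*y) = 0; linear_combination (y*w) * h2
  · rw [Matrix.add_apply, mul6, mul1]; change (y*0 + 0*z + 0*y + y*w + 0*0 + 0*0) + (w*y) = 0; linear_combination (y*w) * h2
  · rw [Matrix.add_apply, mul6, mul1]; change (y*0 + 0*x + 0*0 + y*0 + 0*y + 0*w) + (w*0) = 0; ring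
  · rw [Matrix.add_apply, mul6, mul1]; change (0*y + 0*0 + y*z + 0*x + 0*0 + 0*0) + (y*z) = 0; linear_combination (y*z) * h2
  · rw [Matrix.add_apply, mul6, mul1]; change (0*w + 0*0 + y*0 + 0*0 + 0*z + 0*x) + (y*y) = y^2; ring
  · rw [Matrix.add_apply, mul6, mul1]; change (0*0 + 0*z + y*y + 0*w + 0*0 + 0*0) + (y*y) = 0; linear_combination (y^2) * h2
  · rw [Matrix.add_apply, mul6, mul1]; change (0*0 + 0*x + y*0 + 0*0 + 0*y + 0*w) + (y*0) = 0; ring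
  · rw [Matrix.add_apply, mul6, mul1]; change (z*y + 0*0 + y*z + z*x + 0*0 + 0*0) + (x*z) = 0; linear_combination (x*z + y*z) * h2
  · rw [Matrix.add_apply, mul6, mul1]; change (z*w + 0*0 + y*0 + z*0 + 0*z + 0*x) + (x*y) = 0; linear_combination (z*w) * h2 + (1) * h
  · rw [Matrix.add_apply, mul6, mul1]; change (z*0 + 0*z + y*y + z*w + 0*0 + 0*0) + (x*y) = y^2; linear_combination (z*w) * h2 + (1) * h
  · rw [Matrix.add_apply, mul6, mul1]; change (z*0 + 0*x + y*0 + z*0 + 0*y + 0*w) + (x*0) = 0; ring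
  · rw [Matrix.add_apply, mul6, mul1]; change (0*y + 0*0 + z*z + 0*x + y*0 + 0*0) + (z*z) = 0; linear_combination (z^2) * h2
  · rw [Matrix.add_apply, mul6, mul1]; change (0*w + 0*0 + z*0 + 0*0 + y*z + 0*x) + (z*y) = 0; linear_combination (y*z) * h2
  · rw [Matrix.add_apply, mul6, mul1]; change (0*0 + 0*z + z*y + 0*w + y*0 + 0*0) + (z*y) = 0; linear_combination (y*z) * h2
  · rw [Matrix.add_apply, mul6, mul1]; change (0*0 + 0*x + z*0 + 0*0 + y*y + 0*w) + (z*0) = y^2; ring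

theorem hy_id6 (x y z w : R) (h2 : (2 : R) = 0) (h : x * y = z * w) :
    hy5 x y z w * F5 x y z w = !![y^2] := by
  ext i j
  fin_cases i <;> fin_cases j
  · rw [mul4]; change z*w + y*y + y*x + 0*z = y^2; linear_combination (z*w) * h2 + (1) * h

theorem hy_null (x y z w : R) (h2 : (2 : R) = 0) (h : x * y = z * w) (j : ℕ) :
    hy x y z w j * dF x y z w j + dF x y z w (j+1) * hy x y z w (j+1) =
      (y^2) • (1 : Matrix (Fin (rk (j+1))) (Fin (rk (j+1))) R) := by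
  rcases j with _ | _ | _ | _ | _ | _ | j
  · exact end_left _ _ _ _ ((hy_id1 x y z w h2 h).trans (smul_one_one _).symm)
  · exact (hy_id2 x y z w h2 h).trans (smul_one_four _).symm
  · exact (hy_id3 x y z w h2 h).trans (smul_one_six _).symm
  · exact (hy_id4 x y z w h2 h).trans (smul_one_six _).symm
  · exact (hy_id5 x y z w h2 h).trans (smul_one_four _).symm
  · exact end_right _ _ _ _ ((hy_id6 x y z w h2 h).trans (smul_one_one _).symm)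
  · ext i; exact i.elim0

end Pool.Agent.TH210
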