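import Pool.Agent.TH210.MSide
import Pool.Agent.TH210.Mat_hx
import Pool.Agent.TH210.Mat_hy
import Pool.Agent.TH210.Mat_hz
import Pool.Agent.TH210.Mat_hw
import Pool.Agent.TH210.Mat_kb
import Pool.Agent.TH210.Mat_kc
import Pool.Agent.TH210.Mat_ke
import Pool.Agent.TH210.Mat_Fc
import Pool.Agent.TH210.Mat_Gc

/-!
The glued complex over the pullback ring, and its Euler characteristic on the module `P`.
-/

set_option autoImplicit false
set_option linter.all false

namespace Pool.Agent.TH210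

open Matrix IsLocalRing TensorProduct

section tensor

variable {A : Type*} [CommRing A] {P : Type*} [CommRing P] [Algebra A P]

/-- `A^n ⊗ P = P^n` -/
noncomputable def eP (A : Type*) [CommRing A] (P : Type*) [CommRing P] [Algebra A P]
    (n : Type*) [Fintype n] [DecidableEq n] : (n → A) ⊗[A] P ≃ₗ[A] (n → P) :=
  (TensorProduct.comm A (n → A) P).trans (TensorProduct.piScalarRight A A P n)

theorem eP_tmul {n : Type*} [Fintype n] [DecidableEq n] (v : n → A) (p : P) :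
    eP A P n (v ⊗ₜ[A] p) = fun i => v i • p := by
  simp [eP]

theorem eP_rTensor {m n : Type*} [Fintype m] [DecidableEq m] [Fintype n] [DecidableEq n]
    (Q : Matrix m n A) (t : (n → A) ⊗[A] P) :
    eP A P m ((Q.mulVecLin).rTensor P t) = mvl A (Q.map (algebraMap A P)) (eP A P n t) := by
  induction t using TensorProduct.induction_on with
  | zero => simp
  | tmul v p =>
    rw [LinearMap.rTensor_tmul, eP_tmul, eP_tmul, mvl_apply]
    ext i
    simp only [Matrix.mulVecLin_apply, Matrix.mulVec, dotProduct, Matrix.map_apply,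
      Finset.sum_smul]
    refine Finset.sum_congr rfl fun j _ => ?_
    rw [Algebra.smul_def, Algebra.smul_def, map_mul, mul_assoc]
  | add a b ha hb => rw [map_add, map_add, map_add, map_add, ha, hb]

theorem hlen_rTensor {m n l : Type*} [Fintype m] [DecidableEq m] [Fintype n] [DecidableEq n]
    [Fintype l] [DecidableEq l] (Q : Matrix n l A) (R : Matrix m n A) :
    hlen ((Q.mulVecLin).rTensor P) ((R.mulVecLin).rTensor P) =
      hlen (mvl A (Q.map (algebraMap A P))) (mvl A (R.map (algebraMap A P))) :=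
  hlen_congr _ _ _ _ (eP A P l) (eP A P n) (eP A P m)
    (fun u => (eP_rTensor Q u).symm) (fun u => (eP_rTensor R u).symm)

theorem hlen_submatrix {m n l m' n' l' : Type*} [Fintype m] [Fintype n] [Fintype l]
    [Fintype m'] [Fintype n'] [Fintype l']
    (Q : Matrix n l P) (R : Matrix m n P) (e₂ : l' ≃ l) (e₁ : n' ≃ n) (e₀ : m' ≃ m) :
    hlen (mvl A (Q.submatrix e₁ e₂)) (mvl A (R.submatrix e₀ e₁)) = hlen (mvl A Q) (mvl A R) := by
  refine hlen_congr _ _ _ _ (LinearEquiv.funCongrLeft A P e₂.symm)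
    (LinearEquiv.funCongrLeft A P e₁.symm) (LinearEquiv.funCongrLeft A P e₀.symm) ?_ ?_
  · intro u
    rw [mvl_apply, mvl_apply, submatrix_mulVec_equiv]
    ext i
    simp [LinearEquiv.funCongrLeft, LinearMap.funLeft]
  · intro u
    rw [mvl_apply, mvl_apply, submatrix_mulVec_equiv]
    ext i
    simp [LinearEquiv.funCongrLeft, LinearMap.funLeft]

end tensor

theorem exists_lift_matrix {A B m n : Type*} [CommRing A] [CommRing B] (ι : A →+* B)
    (M : Matrix m n B) (hM : ∀ i j, M i j ∈ ι.range) : ∃ M' : Matrix m n A, M'.map ι = M := by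
  choose f hf using hM
  exact ⟨Matrix.of f, by ext i j; simp [hf]⟩

theorem map_injective' {A B m n : Type*} [CommRing A] [CommRing B] (ι : A →+* B)
    (hι : Function.Injective ι) {M N : Matrix m n A} (h : M.map ι = N.map ι) : M = N := by
  ext i j
  exact hι (congrFun (congrFun h i) j)

theorem exists_complex {A B k P : Type} [CommRing A] [IsLocalRing A] [IsNoetherianRing A]
    [CommRing B] [CommRing k] [CommRing P] [IsDomain P] [Algebra A P]
    (ι : A →+* B) (hι : Function.Injective ι) (Φ₁ Φ₂ : B →+* k)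
    (hA : ∀ b, Φ₁ b = Φ₂ b → b ∈ ι.range)
    (hm : ∀ a ∈ maximalIdeal A, Φ₁ (ι a) = 0 ∧ Φ₂ (ι a) = 0)
    (h2 : (2 : B) = 0)
    (x y z w s : B) (hxy : x * y = z * w)
    (x1 : Φ₁ x = 0) (y1 : Φ₁ y = 0) (z1 : Φ₁ z = 0) (w1 : Φ₁ w = 0)
    (x2 : Φ₂ x = 1) (y2 : Φ₂ y = 0) (z2 : Φ₂ z = 0) (w2 : Φ₂ w = 0) (s2 : Φ₂ s = 0)
    (hN1 : ∀ b, Φ₁ b = 0 → b ∈ Ideal.span {x, y, z, w})
    (hN2 : ∀ b, Φ₂ b = 0 → b ∈ Ideal.span {1 + x, x * s, z, w})
    (ψ : B →+* P) (hψ : ∀ a, algebraMap A P a = ψ (ι a)) (xψ : ψ x = 0) (zψ : ψ z = 0)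
    (hY : ψ y ≠ 0) (hreg : ∀ m : P, ψ y ∣ ψ w * m → ψ y ∣ m)
    (hlen1 : Module.length A (P ⧸ (Ideal.span {ψ y, ψ w} : Ideal P)) = 1) :
    ∃ (N : ℕ) (n : ℕ → ℕ) (D : ∀ j : ℕ, (Fin (n (j + 1)) → A) →ₗ[A] (Fin (n j) → A)),
      n 0 = 0 ∧ (∀ j, N < j → n j = 0) ∧ (∀ j, (D j).comp (D (j + 1)) = 0) ∧
      (∀ j, hlen (D (j + 1)) (D j) < ⊤) ∧
      ∑ j ∈ Finset.range (N + 1), (-1 : ℤ) ^ j *
        ((hlen ((D (j + 1)).rTensor P) ((D j).rTensor P)).toNat : ℤ) ≠ 0 := by
  have h2P : (2 : P) = 0 := by rw [← map_ofNat ψ 2, h2, map_zero]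
  have h2k : (2 : k) = 0 := by rw [← map_ofNat Φ₁ 2, h2, map_zero]
  -- the two complexes
  set F : ∀ j, Matrix (Fin (rk j)) (Fin (rk (j+1))) B := dF x y z w with hF
  set G : ∀ j, Matrix (Fin (rk j)) (Fin (rk (j+1))) B := dG (1 + x) (x * s) z w with hG
  have hentry : ∀ j i l, gl x F G j i l ∈ ι.range := by
    intro j i l
    apply hA
    have e1 : (gl x F G j).map Φ₁ = fromBlocks 0 0 0 (dG (1 : k) 0 0 0 j) := by
      rw [gl_map, x1, gl_of_zero, hF, hG, dF_map, dG_map]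
      simp [x1, y1, z1, w1, dF_zero]
    have e2 : (gl x F G j).map Φ₂ = fromBlocks 0 0 0 (dG (1 : k) 0 0 0 j) := by
      rw [gl_map, x2, gl_of_one h2k, hF, hG, dF_map, dG_map]
      simp [x2, y2, z2, w2, s2, one_add_one_eq_two, h2k, dG_zero, dF_one]
    have e3 := congrFun (congrFun (e1.trans e2.symm) i) l
    exact e3
  choose D' hD' using fun j => exists_lift_matrix ι (gl x F G j) (hentry j)
  have hD'comp : ∀ j, D' j * D' (j+1) = 0 := by
    intro j
    apply map_injective' ι hι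
    rw [Matrix.map_mul, hD', hD', gl_comp h2 x F G (dF_comp x y z w h2 hxy)
      (dG_comp (1 + x) (x * s) z w h2)]
    ext i l
    simp
  -- null-homotopies
  have hnull : ∀ a ∈ maximalIdeal A, ∃ n : ℕ, ∃ H : ∀ j,
      Matrix (Fin (rk (j+1)) ⊕ Fin (rk (j+1))) (Fin (rk j) ⊕ Fin (rk j)) A,
      ∀ j, H j * D' j + D' (j+1) * H (j+1) = a ^ n • 1 := by
    intro a ha
    obtain ⟨ha1, ha2⟩ := hm a ha
    have hxF : ∀ t, t ∈ ({x, y, z, w} : Set B) → t ∈ (nullIdeal F).radical := by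
      intro t ht
      refine ⟨2, ?_⟩
      rcases ht with rfl | rfl | rfl | rfl
      · exact ⟨_, hx_null t y z w h2 hxy⟩
      · exact ⟨_, hy_null x t z w h2 hxy⟩
      · exact ⟨_, hz_null x y t w h2 hxy⟩
      · exact ⟨_, hw_null x y z t h2 hxy⟩
    have hxG : ∀ t, t ∈ ({1 + x, x * s, z, w} : Set B) → t ∈ (nullIdeal G).radical := by
      intro t ht
      rcases ht with rfl | rfl | rfl | rfl
      · exact ⟨3, ⟨_, ka_null _ _ _ _ h2⟩⟩
      · exact ⟨2, ⟨_, kb_null _ _ _ _ h2⟩⟩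
      · exact ⟨2, ⟨_, kc_null _ _ _ _ h2⟩⟩
      · exact ⟨2, ⟨_, ke_null _ _ _ _ h2⟩⟩
    obtain ⟨n1, hn1⟩ : ι a ∈ (nullIdeal F).radical := (Ideal.span_le.mpr hxF) (hN1 _ ha1)
    obtain ⟨n2, hn2⟩ : ι a ∈ (nullIdeal G).radical := (Ideal.span_le.mpr hxG) (hN2 _ ha2)
    have hn1' : (ι a) ^ (n1 + n2) ∈ nullIdeal F := by
      rw [pow_add]; exact Ideal.mul_mem_right _ _ hn1
    have hn2' : (ι a) ^ (n1 + n2) ∈ nullIdeal G := by
      rw [pow_add]; exact Ideal.mul_mem_left _ _ hn2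
    obtain ⟨h, hh⟩ := hn1'
    obtain ⟨h', hh'⟩ := hn2'
    have hHentry : ∀ j i l, ((ι a) • glh x h h' j) i l ∈ ι.range := by
      intro j i l
      apply hA
      rw [Matrix.smul_apply, smul_eq_mul, map_mul, map_mul, ha1, ha2, zero_mul, zero_mul]
    choose H hH using fun j => exists_lift_matrix ι ((ι a) • glh x h h' j) (hHentry j)
    refine ⟨n1 + n2 + 1, H, fun j => ?_⟩
    apply map_injective' ι hι
    have e1 : (H j * D' j + D' (j+1) * H (j+1)).map ι =
        (H j).map ι * (D' j).map ι + (D' (j+1)).map ι * (H (j+1)).map ι := by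
      rw [← Matrix.map_mul, ← Matrix.map_mul, ← Matrix.map_add _ (map_add ι)]
    rw [e1, hD', hD', hH, hH, Matrix.smul_mul, Matrix.mul_smul, ← smul_add,
      gl_homotopy h2 x hh hh' j, smul_smul, ← pow_succ']
    ext i l
    simp only [Matrix.smul_apply, Matrix.map_apply, smul_eq_mul, map_mul, map_pow]
    congr 1
    rw [Matrix.one_apply, Matrix.one_apply]
    split_ifs <;> simp
  -- the differentials
  let n : ℕ → ℕ := fun j => rk j + rk j
  let E : ∀ j, Fin (n j) ≃ Fin (rk j) ⊕ Fin (rk j) := fun j => finSumFinEquiv.symm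
  let Q : ∀ j, Matrix (Fin (n j)) (Fin (n (j+1))) A := fun j => (D' j).submatrix (E j) (E (j+1))
  have hQ : ∀ j, Q j * Q (j+1) = 0 := by
    intro j
    change (D' j).submatrix (E j) (E (j+1)) * (D' (j+1)).submatrix (E (j+1)) (E (j+2)) = 0
    rw [submatrix_mul_equiv, hD'comp]
    rfl
  refine ⟨6, n, fun j => (Q j).mulVecLin, rfl, ?_, ?_, ?_, ?_⟩
  · intro j hj
    obtain ⟨i, rfl⟩ : ∃ i, j = i + 7 := ⟨j - 7, by omega⟩
    rfl
  · intro j
    rw [← Matrix.mulVecLin_mul, hQ, Matrix.mulVecLin_zero]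
  · intro j
    apply hlen_lt_top
    intro a ha
    obtain ⟨m, H, hH⟩ := hnull a ha
    refine ⟨m, fun v hv => ?_⟩
    refine ⟨(((H (j+1)).submatrix (E (j+2)) (E (j+1)))) *ᵥ v, ?_⟩
    have h1 : ((H j * D' j + D' (j+1) * H (j+1)).submatrix (E (j+1)) (E (j+1))) *ᵥ v =
        a ^ m • v := by
      rw [hH j]
      have : ((a ^ m • (1 : Matrix (Fin (rk (j+1)) ⊕ Fin (rk (j+1)))
          (Fin (rk (j+1)) ⊕ Fin (rk (j+1))) A)).submatrix (E (j+1)) (E (j+1))) =
          a ^ m • (1 : Matrix (Fin (n (j+1))) (Fin (n (j+1))) A) := by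
        ext i l
        simp [Matrix.one_apply]
      rw [this, Matrix.smul_mulVec, Matrix.one_mulVec]
    have h3 : (H j * D' j + D' (j+1) * H (j+1)).submatrix (E (j+1)) (E (j+1)) =
        (H j).submatrix (E (j+1)) (E j) * Q j +
          Q (j+1) * (H (j+1)).submatrix (E (j+2)) (E (j+1)) := by
      change _ = (H j).submatrix (E (j+1)) (E j) * (D' j).submatrix (E j) (E (j+1)) +
        (D' (j+1)).submatrix (E (j+1)) (E (j+2)) * (H (j+1)).submatrix (E (j+2)) (E (j+1))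
      rw [submatrix_mul_equiv, submatrix_mul_equiv]
      rfl
    rw [h3, Matrix.add_mulVec, ← Matrix.mulVec_mulVec, ← Matrix.mulVec_mulVec] at h1
    have hv' : Q j *ᵥ v = 0 := hv
    rw [hv', Matrix.mulVec_zero, zero_add] at h1
    exact h1
  · -- the Euler characteristic
    have hK : ∀ j, (D' j).map (algebraMap A P) =
        fromBlocks (dF 0 (ψ y) 0 (ψ w) j) 0 0 (dG 1 0 0 (ψ w) j) := by
      intro j
      have e1 : (D' j).map (algebraMap A P) = ((D' j).map ι).map ψ := by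
        ext i l
        simp [hψ]
      rw [e1, hD', gl_map, xψ, gl_of_zero, hF, hG, dF_map, dG_map]
      simp [xψ, zψ]
    have hred : ∀ j, hlen (((Q (j+1)).mulVecLin).rTensor P) (((Q j).mulVecLin).rTensor P) =
        hlen (mvl A (dF 0 (ψ y) 0 (ψ w) (j+1))) (mvl A (dF 0 (ψ y) 0 (ψ w) j)) := by
      intro j
      rw [hlen_rTensor]
      have e1 : (Q (j+1)).map (algebraMap A P) =
          (fromBlocks (dF 0 (ψ y) 0 (ψ w) (j+1)) 0 0 (dG 1 0 0 (ψ w) (j+1))).submatrix
            (E (j+1)) (E (j+2)) := by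
        rw [← hK]; rfl
      have e2 : (Q j).map (algebraMap A P) =
          (fromBlocks (dF 0 (ψ y) 0 (ψ w) j) 0 0 (dG 1 0 0 (ψ w) j)).submatrix
            (E j) (E (j+1)) := by
        rw [← hK]; rfl
      rw [e1, e2, hlen_submatrix]
      refine hlen_blocks A _ _ _ _ (ka 1 0 0 (ψ w) (j+1)) (ka 1 0 0 (ψ w) j) ?_
      rw [ka_null 1 0 0 (ψ w) h2P j]
      simp
    have H0 := (hred 0).trans (HF0 A hlen1)
    have H1 := (HF1 A hY hreg hlen1).trans (le_of_eq (hred 1).symm)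
    have H2 := (hred 2).trans (HF2 A h2P hY hreg hlen1)
    have H3 := (hred 3).trans (HF3 A h2P hY hreg hlen1)
    have H4 := (hred 4).trans (HF4 A h2P hY hreg hlen1)
    have H5 := (hred 5).trans (HF5 A hY)
    have H6 : hlen (((Q (6+1)).mulVecLin).rTensor P) (((Q 6).mulVecLin).rTensor P) = 0 := by
      rw [hred 6]
      apply hlen_eq_zero
      intro v _
      refine ⟨0, ?_⟩
      ext i
      exact i.elim0
    simp only [Finset.sum_range_succ, Finset.sum_range_zero]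
    rw [H0, H2, H3, H4, H5, H6]
    generalize hlen (((Q (1+1)).mulVecLin).rTensor P) (((Q 1).mulVecLin).rTensor P) = ℓ at H1 ⊢
    intro hsum
    have hℓ : (ℓ.toNat : ℤ) = 2 := by
      simp at hsum
      linarith
    have hℓ' : ℓ.toNat = 2 := by exact_mod_cast hℓ
    rcases eq_or_ne ℓ ⊤ with h | h
    · rw [h] at hℓ'
      simp at hℓ'
    · have h5 := ENat.coe_toNat h
      rw [hℓ'] at h5
      rw [← h5] at H1
      have : (3 : ℕ) ≤ 2 := by exact_mod_cast H1
      omega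

end Pool.Agent.TH210
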