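import Pool.Agent.TH210.Seg

/-!
The semilocal ring `B` and its two points.
-/

set_option autoImplicit false
set_option linter.all false

namespace Pool.Agent.TH210

open MvPolynomial IsLocalRing

/-- A ring `R₁` with an embedding `i` in the field `K` with fraction field `K`, and a
surjection `e` on `K` with principal nonzero kernel, in characteristic two. -/
structure Dat (R₁ K : Type) [CommRing R₁] [Field K] where
  i : R₁ →+* K
  e : R₁ →+* K
  i_inj : Function.Injective i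
  frac : ∀ c : K, ∃ f g : R₁, i g ≠ 0 ∧ i g * c = i f
  e_surj : Function.Surjective e
  ϖ : R₁
  ϖ_ne : ϖ ≠ 0
  e_ϖ : e ϖ = 0
  e_ker : ∀ c, e c = 0 → ϖ ∣ c
  two : (2 : R₁) = 0

variable {R₁ K : Type} [CommRing R₁] [Field K] (D : Dat R₁ K)

namespace Dat

/-- the first point -/
noncomputable def ev1 : MvPolynomial (Fin 4) R₁ →+* K := eval₂Hom D.i ![0, 1, 0, 0]

/-- the second point -/
noncomputable def ev2 : MvPolynomial (Fin 4) R₁ →+* K := eval₂Hom D.e ![1, 0, 1, 0]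

noncomputable def f1 : R0 R₁ →+* K := D.ev1.comp (R0 R₁).val.toRingHom
noncomputable def f2 : R0 R₁ →+* K := D.ev2.comp (R0 R₁).val.toRingHom

theorem f1_apply (r : R0 R₁) : D.f1 r = D.ev1 (r : MvPolynomial (Fin 4) R₁) := rfl
theorem f2_apply (r : R0 R₁) : D.f2 r = D.ev2 (r : MvPolynomial (Fin 4) R₁) := rfl

@[simp] theorem f1_x : D.f1 (x0 R₁) = 0 := by rw [f1_apply, x0_val]; simp [ev1]
@[simp] theorem f1_y : D.f1 (y0 R₁) = 0 := by rw [f1_apply, y0_val]; simp [ev1]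
@[simp] theorem f1_z : D.f1 (z0 R₁) = 0 := by rw [f1_apply, z0_val]; simp [ev1]
@[simp] theorem f1_w : D.f1 (w0 R₁) = 0 := by rw [f1_apply, w0_val]; simp [ev1]
@[simp] theorem f2_x : D.f2 (x0 R₁) = 1 := by rw [f2_apply, x0_val]; simp [ev2]
@[simp] theorem f2_y : D.f2 (y0 R₁) = 0 := by rw [f2_apply, y0_val]; simp [ev2]
@[simp] theorem f2_z : D.f2 (z0 R₁) = 0 := by rw [f2_apply, z0_val]; simp [ev2]
@[simp] theorem f2_w : D.f2 (w0 R₁) = 0 := by rw [f2_apply, w0_val]; simp [ev2]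
@[simp] theorem f1_C (c : R₁) : D.f1 (algebraMap R₁ (R0 R₁) c) = D.i c := by
  rw [f1_apply]
  change D.ev1 (C c) = _
  simp [ev1]
@[simp] theorem f2_C (c : R₁) : D.f2 (algebraMap R₁ (R0 R₁) c) = D.e c := by
  rw [f2_apply]
  change D.ev2 (C c) = _
  simp [ev2]

/-- the multiplicative set -/
def W : Submonoid (R0 R₁) where
  carrier := {r | D.f1 r ≠ 0 ∧ D.f2 r ≠ 0}
  one_mem' := by simp
  mul_mem' := by
    rintro a b ⟨ha, ha'⟩ ⟨hb, hb'⟩
    exact ⟨by rw [map_mul]; exact mul_ne_zero ha hb, by rw [map_mul]; exact mul_ne_zero ha' hb'⟩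

theorem mem_W {r : R0 R₁} : r ∈ D.W ↔ D.f1 r ≠ 0 ∧ D.f2 r ≠ 0 := Iff.rfl

/-- the semilocal ring -/
def B : Type := Localization D.W

noncomputable instance : CommRing D.B := inferInstanceAs (CommRing (Localization D.W))
noncomputable instance : Algebra (R0 R₁) D.B := inferInstanceAs (Algebra (R0 R₁) (Localization D.W))
instance : IsLocalization D.W D.B := inferInstanceAs (IsLocalization D.W (Localization D.W))

theorem W_le [IsDomain R₁] : D.W ≤ nonZeroDivisors (R0 R₁) := by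
  intro r hr
  apply mem_nonZeroDivisors_of_ne_zero
  rintro rfl
  exact hr.1 (map_zero _)

instance [IsDomain R₁] : IsDomain D.B := IsLocalization.isDomain_of_le_nonZeroDivisors D.B D.W_le

instance [IsNoetherianRing R₁] : IsNoetherianRing D.B :=
  IsLocalization.isNoetherianRing D.W _ inferInstance

/-- the two residue maps of `B` -/
noncomputable def Φ1 : D.B →+* K :=
  IsLocalization.lift (M := D.W) (g := D.f1) fun u => IsUnit.mk0 _ u.2.1
noncomputable def Φ2 : D.B →+* K :=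
  IsLocalization.lift (M := D.W) (g := D.f2) fun u => IsUnit.mk0 _ u.2.2

@[simp] theorem Φ1_alg (r : R0 R₁) : D.Φ1 (algebraMap _ D.B r) = D.f1 r :=
  IsLocalization.lift_eq _ _
@[simp] theorem Φ2_alg (r : R0 R₁) : D.Φ2 (algebraMap _ D.B r) = D.f2 r :=
  IsLocalization.lift_eq _ _

/-- every element of `B` is a fraction -/
theorem exists_frac (b : D.B) : ∃ (r u : R0 R₁), u ∈ D.W ∧
    algebraMap _ D.B u * b = algebraMap _ D.B r := by
  obtain ⟨⟨r, u⟩, h⟩ := IsLocalization.surj D.W b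
  exact ⟨r, u, u.2, by rw [mul_comm]; exact h⟩

theorem isUnit_W {u : R0 R₁} (hu : u ∈ D.W) : IsUnit (algebraMap _ D.B u) :=
  IsLocalization.map_units D.B (⟨u, hu⟩ : D.W)

theorem hunit (b : D.B) (h1 : D.Φ1 b ≠ 0) (h2 : D.Φ2 b ≠ 0) : IsUnit b := by
  obtain ⟨r, u, hu, h⟩ := D.exists_frac b
  have e1 := congrArg D.Φ1 h
  have e2 := congrArg D.Φ2 h
  rw [map_mul, Φ1_alg, Φ1_alg] at e1
  rw [map_mul, Φ2_alg, Φ2_alg] at e2
  have hr : r ∈ D.W := ⟨by rw [← e1]; exact mul_ne_zero hu.1 h1, by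
    rw [← e2]; exact mul_ne_zero hu.2 h2⟩
  have hr' := D.isUnit_W hr
  rw [← h] at hr'
  exact isUnit_of_mul_isUnit_right hr'

theorem Φ2_surj : Function.Surjective D.Φ2 := by
  intro c
  obtain ⟨r, hr⟩ := D.e_surj c
  exact ⟨algebraMap _ D.B (algebraMap R₁ (R0 R₁) r), by simp [hr]⟩

/-- modify an element outside the first point to be in `W` -/
theorem exists_modify (u : R0 R₁) (hu : D.f1 u ≠ 0) : ∃ c : R₁,
    u + x0 R₁ * algebraMap R₁ (R0 R₁) c ∈ D.W := by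
  obtain ⟨c, hc⟩ := D.e_surj (1 - D.f2 u)
  refine ⟨c, ?_, ?_⟩
  · simpa using hu
  · simp [hc]

theorem Φ1_surj : Function.Surjective D.Φ1 := by
  intro c
  obtain ⟨f, g, hg, hfg⟩ := D.frac c
  obtain ⟨d, hd⟩ := D.exists_modify (algebraMap R₁ (R0 R₁) g) (by simpa using hg)
  obtain ⟨v, hv⟩ := (D.isUnit_W hd)
  refine ⟨algebraMap _ D.B (algebraMap R₁ (R0 R₁) f) * ((v⁻¹ : (D.B)ˣ) : D.B), ?_⟩
  have h1 : D.Φ1 (v : D.B) = D.i g := by rw [hv]; simp
  have h2 : D.Φ1 (v : D.B) * D.Φ1 ((v⁻¹ : (D.B)ˣ) : D.B) = 1 := by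
    rw [← map_mul]; simp
  rw [map_mul, Φ1_alg, f1_C]
  apply mul_left_cancel₀ hg
  rw [h1] at h2
  calc D.i g * (D.i f * D.Φ1 ((v⁻¹ : (D.B)ˣ) : D.B)) =
      D.i f * (D.i g * D.Φ1 ((v⁻¹ : (D.B)ˣ) : D.B)) := by ring
    _ = D.i g * c := by rw [h2, hfg, mul_one]

/-- the elements of `B` -/
noncomputable def x : D.B := algebraMap _ D.B (x0 R₁)
noncomputable def y : D.B := algebraMap _ D.B (y0 R₁)
noncomputable def z : D.B := algebraMap _ D.B (z0 R₁)
noncomputable def w : D.B := algebraMap _ D.B (w0 R₁)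
noncomputable def s : D.B := algebraMap _ D.B (algebraMap R₁ (R0 R₁) D.ϖ)

theorem rel : D.x * D.y = D.z * D.w := by
  unfold x y z w
  rw [← map_mul, rel0, map_mul]

theorem two_B : (2 : D.B) = 0 := by
  rw [← map_ofNat (algebraMap (R0 R₁) D.B) 2, ← map_ofNat (algebraMap R₁ (R0 R₁)) 2, D.two,
    map_zero, map_zero]

include D in
theorem two_R0 : (2 : R0 R₁) = 0 := by
  rw [← map_ofNat (algebraMap R₁ (R0 R₁)) 2, D.two, map_zero]

theorem ker1 (r : R0 R₁) (hr : D.f1 r = 0) :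
    r ∈ (Ideal.span {x0 R₁, y0 R₁, z0 R₁, w0 R₁} : Ideal (R0 R₁)) := by
  set I := (Ideal.span {x0 R₁, y0 R₁, z0 R₁, w0 R₁} : Ideal (R0 R₁)) with hI
  obtain ⟨c, hc⟩ := R0_mod_ideal I (by
    intro i
    refine ⟨0, ?_⟩
    rw [map_zero, sub_zero]
    apply Ideal.subset_span
    fin_cases i <;> simp) r
  have hle : ∀ t ∈ I, D.f1 t = 0 := by
    intro t ht
    have : I ≤ RingHom.ker D.f1 := by
      rw [hI, Ideal.span_le]
      rintro a (rfl | rfl | rfl | rfl) <;> simp [RingHom.mem_ker]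
    exact this ht
  have h1 := hle _ hc
  rw [map_sub, hr, f1_C, zero_sub, neg_eq_zero, map_eq_zero_iff _ D.i_inj] at h1
  rw [h1, map_zero, sub_zero] at hc
  exact hc

theorem ker2 (r : R0 R₁) (hr : D.f2 r = 0) :
    r ∈ (Ideal.span {1 + x0 R₁, x0 R₁ * algebraMap R₁ (R0 R₁) D.ϖ, z0 R₁, w0 R₁} :
      Ideal (R0 R₁)) := by
  set I := (Ideal.span {1 + x0 R₁, x0 R₁ * algebraMap R₁ (R0 R₁) D.ϖ, z0 R₁, w0 R₁} :
      Ideal (R0 R₁)) with hI
  have h1x : 1 + x0 R₁ ∈ I := Ideal.subset_span (by simp)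
  have hxs : x0 R₁ * algebraMap R₁ (R0 R₁) D.ϖ ∈ I := Ideal.subset_span (by simp)
  have hz : z0 R₁ ∈ I := Ideal.subset_span (by simp)
  have hw : w0 R₁ ∈ I := Ideal.subset_span (by simp)
  have hy : y0 R₁ ∈ I := by
    have h3 : y0 R₁ = (1 + x0 R₁) * y0 R₁ - z0 R₁ * w0 R₁ := by
      rw [← rel0]; ring
    rw [h3]
    exact I.sub_mem (I.mul_mem_right _ h1x) (I.mul_mem_right _ hz)
  have hs : algebraMap R₁ (R0 R₁) D.ϖ ∈ I := by
    have h3 : algebraMap R₁ (R0 R₁) D.ϖ = (1 + x0 R₁) * algebraMap R₁ (R0 R₁) D.ϖ -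
        x0 R₁ * algebraMap R₁ (R0 R₁) D.ϖ := by ring
    rw [h3]
    exact I.sub_mem (I.mul_mem_right _ h1x) hxs
  obtain ⟨c, hc⟩ := R0_mod_ideal I (by
    intro i
    fin_cases i
    · refine ⟨1, ?_⟩
      have : x0 R₁ - algebraMap R₁ (R0 R₁) 1 = 1 + x0 R₁ := by
        rw [map_one]
        linear_combination -D.two_R0
      change x0 R₁ - algebraMap R₁ (R0 R₁) 1 ∈ I
      rw [this]; exact h1x
    · exact ⟨0, by rw [map_zero, sub_zero]; exact hy⟩
    · exact ⟨0, by rw [map_zero, sub_zero]; exact hz⟩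
    · exact ⟨0, by rw [map_zero, sub_zero]; exact hw⟩) r
  have two_K : (2 : K) = 0 := by
    rw [← map_ofNat D.e 2, D.two, map_zero]
  have hle : ∀ t ∈ I, D.f2 t = 0 := by
    intro t ht
    have : I ≤ RingHom.ker D.f2 := by
      rw [hI, Ideal.span_le]
      rintro a (rfl | rfl | rfl | rfl) <;>
        simp [RingHom.mem_ker, one_add_one_eq_two, two_K, D.e_ϖ]
    exact this ht
  have h1 := hle _ hc
  rw [map_sub, hr, f2_C, zero_sub, neg_eq_zero] at h1
  obtain ⟨c', rfl⟩ := D.e_ker c h1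
  have : r = (r - algebraMap R₁ (R0 R₁) (D.ϖ * c')) +
      algebraMap R₁ (R0 R₁) D.ϖ * algebraMap R₁ (R0 R₁) c' := by
    rw [map_mul]; ring
  rw [this]
  exact I.add_mem hc (I.mul_mem_right _ hs)

theorem hN1 (b : D.B) (hb : D.Φ1 b = 0) : b ∈ (Ideal.span {D.x, D.y, D.z, D.w} : Ideal D.B) := by
  obtain ⟨r, u, hu, h⟩ := D.exists_frac b
  have hr : D.f1 r = 0 := by
    rw [← Φ1_alg, ← h, map_mul, hb, mul_zero]
  have h1 := Ideal.mem_map_of_mem (algebraMap _ D.B) (D.ker1 r hr)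
  rw [Ideal.map_span, ← h] at h1
  have h2 : (algebraMap (R0 R₁) D.B) '' {x0 R₁, y0 R₁, z0 R₁, w0 R₁} = {D.x, D.y, D.z, D.w} := by
    simp only [Set.image_insert_eq, Set.image_singleton]; rfl
  rw [h2] at h1
  exact (Ideal.unit_mul_mem_iff_mem _ (D.isUnit_W hu)).mp h1

theorem hN2 (b : D.B) (hb : D.Φ2 b = 0) :
    b ∈ (Ideal.span {1 + D.x, D.x * D.s, D.z, D.w} : Ideal D.B) := by
  obtain ⟨r, u, hu, h⟩ := D.exists_frac b
  have hr : D.f2 r = 0 := by
    rw [← Φ2_alg, ← h, map_mul, hb, mul_zero]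
  have h1 := Ideal.mem_map_of_mem (algebraMap _ D.B) (D.ker2 r hr)
  rw [Ideal.map_span, ← h] at h1
  have h2 : (algebraMap (R0 R₁) D.B) ''
      {1 + x0 R₁, x0 R₁ * algebraMap R₁ (R0 R₁) D.ϖ, z0 R₁, w0 R₁} =
      {1 + D.x, D.x * D.s, D.z, D.w} := by
    simp only [Set.image_insert_eq, Set.image_singleton, map_add, map_one, map_mul]; rfl
  rw [h2] at h1
  exact (Ideal.unit_mul_mem_iff_mem _ (D.isUnit_W hu)).mp h1

/-- `B` is regular off the first point. -/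
theorem regular_B [IsDomain R₁] [IsRegularRing R₁] (q : Ideal D.B) [q.IsPrime]
    (hq : ∃ j, D.Φ1 j = 0 ∧ D.Φ2 j = 0 ∧ j ∉ q) : IsRegularLocalRing (Localization.AtPrime q) := by
  obtain ⟨j, hj, -, hjq⟩ := hq
  have hi : ∃ i : Fin 4, g0 R₁ i ∉ q.comap (algebraMap (R0 R₁) D.B) := by
    by_contra hcon
    push Not at hcon
    apply hjq
    have hle : (Ideal.span {D.x, D.y, D.z, D.w} : Ideal D.B) ≤ q := by
      rw [Ideal.span_le]
      rintro a (rfl | rfl | rfl | rfl)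
      · exact hcon 0
      · exact hcon 1
      · exact hcon 2
      · exact hcon 3
    exact hle (D.hN1 j hj)
  obtain ⟨i, hi⟩ := hi
  haveI := regular_R0 (q.comap (algebraMap (R0 R₁) D.B)) i hi
  exact regular_of_localization D.W q this

end Dat

end Pool.Agent.TH210
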