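import Pool.Agent.TH210.MatBase
import Pool.Agent.TH210.Homology

/-!
Null-homotopies, and gluing two complexes of matrices with a 2 x 2 matrix of square one.
-/

set_option autoImplicit false
set_option linter.all false

namespace Pool.Agent.TH210

open Matrix

variable {R : Type*} [CommRing R]

/-- `t` is null-homotopic on the complex `d` -/
def Null (d : ∀ j, Matrix (Fin (rk j)) (Fin (rk (j+1))) R) (t : R) : Prop :=
  ∃ h : ∀ j, Matrix (Fin (rk (j+1))) (Fin (rk j)) R, ∀ j,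
    h j * d j + d (j+1) * h (j+1) = t • (1 : Matrix (Fin (rk (j+1))) (Fin (rk (j+1))) R)

/-- The ideal of the elements null-homotopic on `d`. -/
def nullIdeal (d : ∀ j, Matrix (Fin (rk j)) (Fin (rk (j+1))) R) : Ideal R where
  carrier := {t | Null d t}
  zero_mem' := ⟨fun _ => 0, fun j => by simp⟩
  add_mem' := by
    rintro s t ⟨h, hh⟩ ⟨k, hk⟩
    refine ⟨fun j => h j + k j, fun j => ?_⟩
    rw [add_smul, ← hh j, ← hk j, Matrix.add_mul, Matrix.mul_add]
    abel
  smul_mem' := by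
    rintro c t ⟨h, hh⟩
    refine ⟨fun j => c • h j, fun j => ?_⟩
    rw [smul_eq_mul, mul_smul, ← hh j, Matrix.smul_mul, Matrix.mul_smul, smul_add]

theorem mem_nullIdeal {d : ∀ j, Matrix (Fin (rk j)) (Fin (rk (j+1))) R} {t : R} :
    t ∈ nullIdeal d ↔ Null d t := Iff.rfl

/-- the 2 x 2 block matrix `[[1+x, x],[x, 1+x]]` -/
def U (n : ℕ) (x : R) : Matrix (Fin n ⊕ Fin n) (Fin n ⊕ Fin n) R :=
  fromBlocks ((1 + x) • 1) (x • 1) (x • 1) ((1 + x) • 1)

theorem U_mul_U (h2 : (2 : R) = 0) (n : ℕ) (x : R) : U n x * U n x = 1 := by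
  unfold U
  rw [fromBlocks_multiply]
  simp only [Matrix.smul_mul, Matrix.mul_smul, Matrix.one_mul, smul_smul, ← add_smul]
  have h1 : (1 + x) * (1 + x) + x * x = 1 := by linear_combination (x + x^2) * h2
  have h3 : (1 + x) * x + x * (1 + x) = 0 := by linear_combination (x + x^2) * h2
  have h4 : x * (1 + x) + (1 + x) * x = 0 := by linear_combination (x + x^2) * h2
  have h5 : x * x + (1 + x) * (1 + x) = 1 := by linear_combination (x + x^2) * h2
  rw [h1, h3, h4, h5, zero_smul, one_smul, fromBlocks_one]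

/-- the glued differentials -/
def gl (x : R) (d d' : ∀ j, Matrix (Fin (rk j)) (Fin (rk (j+1))) R) (j : ℕ) :
    Matrix (Fin (rk j) ⊕ Fin (rk j)) (Fin (rk (j+1)) ⊕ Fin (rk (j+1))) R :=
  U (rk j) x * (fromBlocks (d j) 0 0 (d' j) :
    Matrix (Fin (rk j) ⊕ Fin (rk j)) (Fin (rk (j+1)) ⊕ Fin (rk (j+1))) R) * U (rk (j+1)) x

/-- the glued homotopies -/
def glh (x : R) (h h' : ∀ j, Matrix (Fin (rk (j+1))) (Fin (rk j)) R) (j : ℕ) :
    Matrix (Fin (rk (j+1)) ⊕ Fin (rk (j+1))) (Fin (rk j) ⊕ Fin (rk j)) R :=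
  U (rk (j+1)) x * (fromBlocks (h j) 0 0 (h' j) :
    Matrix (Fin (rk (j+1)) ⊕ Fin (rk (j+1))) (Fin (rk j) ⊕ Fin (rk j)) R) * U (rk j) x

theorem gl_comp (h2 : (2 : R) = 0) (x : R)
    (d d' : ∀ j, Matrix (Fin (rk j)) (Fin (rk (j+1))) R)
    (hd : ∀ j, d j * d (j+1) = 0) (hd' : ∀ j, d' j * d' (j+1) = 0) (j : ℕ) :
    gl x d d' j * gl x d d' (j+1) = 0 := by
  unfold gl
  calc _ = U (rk j) x * (fromBlocks (d j) 0 0 (d' j) * (U (rk (j+1)) x * U (rk (j+1)) x) *
        fromBlocks (d (j+1)) 0 0 (d' (j+1))) * U (rk (j+2)) x := by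
        simp only [Matrix.mul_assoc]
    _ = 0 := by
        rw [U_mul_U h2, Matrix.mul_one, fromBlocks_multiply]
        simp [hd, hd', fromBlocks_zero]

theorem gl_homotopy (h2 : (2 : R) = 0) (x : R) {t : R}
    {d d' : ∀ j, Matrix (Fin (rk j)) (Fin (rk (j+1))) R}
    {h h' : ∀ j, Matrix (Fin (rk (j+1))) (Fin (rk j)) R}
    (hd : ∀ j, h j * d j + d (j+1) * h (j+1) = t • 1)
    (hd' : ∀ j, h' j * d' j + d' (j+1) * h' (j+1) = t • 1) (j : ℕ) :
    glh x h h' j * gl x d d' j + gl x d d' (j+1) * glh x h h' (j+1) = t • 1 := by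
  have e1 : glh x h h' j * gl x d d' j =
      U (rk (j+1)) x * (fromBlocks (h j * d j) 0 0 (h' j * d' j) :
        Matrix (Fin (rk (j+1)) ⊕ Fin (rk (j+1))) (Fin (rk (j+1)) ⊕ Fin (rk (j+1))) R) *
          U (rk (j+1)) x := by
    unfold gl glh
    calc _ = U (rk (j+1)) x * (fromBlocks (h j) 0 0 (h' j) * (U (rk j) x * U (rk j) x) *
        fromBlocks (d j) 0 0 (d' j)) * U (rk (j+1)) x := by
          simp only [Matrix.mul_assoc]
      _ = _ := by
          rw [U_mul_U h2, Matrix.mul_one, fromBlocks_multiply]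
          simp
  have e2 : gl x d d' (j+1) * glh x h h' (j+1) =
      U (rk (j+1)) x * (fromBlocks (d (j+1) * h (j+1)) 0 0 (d' (j+1) * h' (j+1)) :
        Matrix (Fin (rk (j+1)) ⊕ Fin (rk (j+1))) (Fin (rk (j+1)) ⊕ Fin (rk (j+1))) R) *
          U (rk (j+1)) x := by
    unfold gl glh
    calc _ = U (rk (j+1)) x * (fromBlocks (d (j+1)) 0 0 (d' (j+1)) *
        (U (rk (j+2)) x * U (rk (j+2)) x) *
        fromBlocks (h (j+1)) 0 0 (h' (j+1))) * U (rk (j+1)) x := by
          simp only [Matrix.mul_assoc]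
      _ = _ := by
          rw [U_mul_U h2, Matrix.mul_one, fromBlocks_multiply]
          simp
  rw [e1, e2, ← Matrix.add_mul, ← Matrix.mul_add, fromBlocks_add, hd j, hd' j]
  have e3 : fromBlocks (t • (1 : Matrix (Fin (rk (j+1))) (Fin (rk (j+1))) R)) (0 + 0) (0 + 0)
      (t • (1 : Matrix (Fin (rk (j+1))) (Fin (rk (j+1))) R)) =
      t • (1 : Matrix (Fin (rk (j+1)) ⊕ Fin (rk (j+1))) (Fin (rk (j+1)) ⊕ Fin (rk (j+1))) R) := by
    rw [← fromBlocks_one, fromBlocks_smul]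
    simp
  rw [e3, Matrix.mul_smul, Matrix.smul_mul, Matrix.mul_one, U_mul_U h2]

theorem gl_of_zero (d d' : ∀ j, Matrix (Fin (rk j)) (Fin (rk (j+1))) R) (j : ℕ) :
    gl 0 d d' j = fromBlocks (d j) 0 0 (d' j) := by
  have hU : ∀ n, U n (0 : R) = 1 := by
    intro n
    unfold U
    simp [fromBlocks_one]
  unfold gl
  rw [hU, hU, Matrix.one_mul, Matrix.mul_one]

theorem gl_of_one (h2 : (2 : R) = 0) (d d' : ∀ j, Matrix (Fin (rk j)) (Fin (rk (j+1))) R) (j : ℕ) :
    gl 1 d d' j = fromBlocks (d' j) 0 0 (d j) := by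
  have hU : ∀ n, U n (1 : R) = fromBlocks 0 1 1 0 := by
    intro n
    unfold U
    rw [one_add_one_eq_two, h2]
    simp
  unfold gl
  rw [hU, hU, fromBlocks_multiply, fromBlocks_multiply]
  simp

section map

variable {S : Type*} [CommRing S] (φ : R →+* S)

theorem U_map (n : ℕ) (x : R) : (U n x).map φ = U n (φ x) := by
  unfold U
  rw [fromBlocks_map]
  congr 1 <;> ext i j <;> simp [Matrix.one_apply, apply_ite φ] <;> split_ifs <;> simp

theorem gl_map (x : R) (d d' : ∀ j, Matrix (Fin (rk j)) (Fin (rk (j+1))) R) (j : ℕ) :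
    (gl x d d' j).map φ = gl (φ x) (fun j => (d j).map φ) (fun j => (d' j).map φ) j := by
  unfold gl
  rw [Matrix.map_mul, Matrix.map_mul, U_map, U_map, fromBlocks_map]
  simp

theorem F1_map (x y z w : R) : (F1 x y z w).map φ = F1 (φ x) (φ y) (φ z) (φ w) := by
  ext i k
  fin_cases i <;> fin_cases k <;> simp [F1]

theorem F2_map (x y z w : R) : (F2 x y z w).map φ = F2 (φ x) (φ y) (φ z) (φ w) := by
  ext i k
  fin_cases i <;> fin_cases k <;> simp [F2]

theorem F3_map (x y z w : R) : (F3 x y z w).map φ = F3 (φ x) (φ y) (φ z) (φ w) := by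
  ext i k
  fin_cases i <;> fin_cases k <;> simp [F3]

theorem F4_map (x y z w : R) : (F4 x y z w).map φ = F4 (φ x) (φ y) (φ z) (φ w) := by
  ext i k
  fin_cases i <;> fin_cases k <;> simp [F4]

theorem F5_map (x y z w : R) : (F5 x y z w).map φ = F5 (φ x) (φ y) (φ z) (φ w) := by
  ext i k
  fin_cases i <;> fin_cases k <;> simp [F5]

theorem dF_map (x y z w : R) (j : ℕ) :
    (dF x y z w j).map φ = dF (φ x) (φ y) (φ z) (φ w) j := by
  rcases j with _ | _ | _ | _ | _ | _ | j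
  · ext i; exact i.elim0
  · exact F1_map φ x y z w
  · exact F2_map φ x y z w
  · exact F3_map φ x y z w
  · exact F4_map φ x y z w
  · exact F5_map φ x y z w
  · ext i k; exact k.elim0

theorem G1_map (a b c e : R) : (G1 a b c e).map φ = G1 (φ a) (φ b) (φ c) (φ e) := by
  ext i k
  fin_cases i <;> fin_cases k <;> simp [G1]

theorem G2_map (a b c e : R) : (G2 a b c e).map φ = G2 (φ a) (φ b) (φ c) (φ e) := by
  ext i k
  fin_cases i <;> fin_cases k <;> simp [G2]

theorem G3_map (a b c e : R) : (G3 a b c e).map φ = G3 (φ a) (φ b) (φ c) (φ e) := by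
  ext i k
  fin_cases i <;> fin_cases k <;> simp [G3]

theorem G4_map (a b c e : R) : (G4 a b c e).map φ = G4 (φ a) (φ b) (φ c) (φ e) := by
  ext i k
  fin_cases i <;> fin_cases k <;> simp [G4]

theorem G5_map (a b c e : R) : (G5 a b c e).map φ = G5 (φ a) (φ b) (φ c) (φ e) := by
  ext i k
  fin_cases i <;> fin_cases k <;> simp [G5]

theorem dG_map (a b c e : R) (j : ℕ) :
    (dG a b c e j).map φ = dG (φ a) (φ b) (φ c) (φ e) j := by
  rcases j with _ | _ | _ | _ | _ | _ | j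
  · ext i; exact i.elim0
  · exact G1_map φ a b c e
  · exact G2_map φ a b c e
  · exact G3_map φ a b c e
  · exact G4_map φ a b c e
  · exact G5_map φ a b c e
  · ext i k; exact k.elim0

end map

theorem F1_zero : F1 (0 : R) 0 0 0 = 0 := by
  ext i k
  fin_cases i <;> fin_cases k <;> simp [F1]

theorem F2_zero : F2 (0 : R) 0 0 0 = 0 := by
  ext i k
  fin_cases i <;> fin_cases k <;> simp [F2]

theorem F3_zero : F3 (0 : R) 0 0 0 = 0 := by
  ext i k
  fin_cases i <;> fin_cases k <;> simp [F3]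

theorem F4_zero : F4 (0 : R) 0 0 0 = 0 := by
  ext i k
  fin_cases i <;> fin_cases k <;> simp [F4]

theorem F5_zero : F5 (0 : R) 0 0 0 = 0 := by
  ext i k
  fin_cases i <;> fin_cases k <;> simp [F5]

theorem dF_zero (j : ℕ) : dF (0 : R) 0 0 0 j = 0 := by
  rcases j with _ | _ | _ | _ | _ | _ | j
  · rfl
  · exact F1_zero
  · exact F2_zero
  · exact F3_zero
  · exact F4_zero
  · exact F5_zero
  · rfl

theorem G1_zero : G1 (0 : R) 0 0 0 = 0 := by
  ext i k
  fin_cases i <;> fin_cases k <;> simp [G1]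

theorem G2_zero : G2 (0 : R) 0 0 0 = 0 := by
  ext i k
  fin_cases i <;> fin_cases k <;> simp [G2]

theorem G3_zero : G3 (0 : R) 0 0 0 = 0 := by
  ext i k
  fin_cases i <;> fin_cases k <;> simp [G3]

theorem G4_zero : G4 (0 : R) 0 0 0 = 0 := by
  ext i k
  fin_cases i <;> fin_cases k <;> simp [G4]

theorem G5_zero : G5 (0 : R) 0 0 0 = 0 := by
  ext i k
  fin_cases i <;> fin_cases k <;> simp [G5]

theorem dG_zero (j : ℕ) : dG (0 : R) 0 0 0 j = 0 := by
  rcases j with _ | _ | _ | _ | _ | _ | j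
  · rfl
  · exact G1_zero
  · exact G2_zero
  · exact G3_zero
  · exact G4_zero
  · exact G5_zero
  · rfl

theorem F1_one : F1 (1 : R) 0 0 0 = G1 1 0 0 0 := by
  ext i k
  fin_cases i <;> fin_cases k <;> simp [F1, G1]

theorem F2_one : F2 (1 : R) 0 0 0 = G2 1 0 0 0 := by
  ext i k
  fin_cases i <;> fin_cases k <;> simp [F2, G2]

theorem F3_one : F3 (1 : R) 0 0 0 = G3 1 0 0 0 := by
  ext i k
  fin_cases i <;> fin_cases k <;> simp [F3, G3]

theorem F4_one : F4 (1 : R) 0 0 0 = G4 1 0 0 0 := by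
  ext i k
  fin_cases i <;> fin_cases k <;> simp [F4, G4]

theorem F5_one : F5 (1 : R) 0 0 0 = G5 1 0 0 0 := by
  ext i k
  fin_cases i <;> fin_cases k <;> simp [F5, G5]

theorem dF_one (j : ℕ) : dF (1 : R) 0 0 0 j = dG 1 0 0 0 j := by
  rcases j with _ | _ | _ | _ | _ | _ | j
  · rfl
  · exact F1_one
  · exact F2_one
  · exact F3_one
  · exact F4_one
  · exact F5_one
  · rfl

end Pool.Agent.TH210
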