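import Mathlib

/-!
Local rings of two rings which become equal after inverting one element; pullback rings.
-/

set_option autoImplicit false
set_option linter.all false

namespace Pool.Agent.TH210

open IsLocalRing

/-- If `R` and its subring `P` agree after inverting `t`, the local rings at a prime of `R` not
containing `t` and at its trace on `P` agree. -/
theorem localization_iso {P R : Type*} [CommRing P] [CommRing R] (ι : P →+* R)
    (hι : Function.Injective ι) (t : P) (ht : ∀ r : R, ∃ n : ℕ, (ι t) ^ n * r ∈ ι.range)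
    (q : Ideal R) [q.IsPrime] (hq : ι t ∉ q) :
    Nonempty (Localization.AtPrime (q.comap ι) ≃+* Localization.AtPrime q) := by
  letI : Algebra P (Localization.AtPrime q) :=
    ((algebraMap R (Localization.AtPrime q)).comp ι).toAlgebra
  have halg : ∀ a : P, algebraMap P (Localization.AtPrime q) a =
      algebraMap R (Localization.AtPrime q) (ι a) := fun a => rfl
  have hloc : IsLocalization (q.comap ι).primeCompl (Localization.AtPrime q) := by
    rw [isLocalization_iff]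
    refine ⟨?_, ?_, ?_⟩
    · rintro ⟨s, hs⟩
      rw [halg]
      exact IsLocalization.map_units (Localization.AtPrime q) (⟨ι s, hs⟩ : q.primeCompl)
    · intro z
      obtain ⟨⟨r, ⟨u, hu⟩⟩, hz⟩ := IsLocalization.surj q.primeCompl z
      obtain ⟨n, a, ha⟩ := ht r
      obtain ⟨m, b, hb⟩ := ht u
      have hb' : ι (t ^ n * b) = ι t ^ (n + m) * u := by
        rw [map_mul, map_pow, hb]; ring
      have ha' : ι (t ^ m * a) = ι t ^ (n + m) * r := by
        rw [map_mul, map_pow, ha]; ring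
      have hbq : t ^ n * b ∈ (q.comap ι).primeCompl := by
        intro h
        have h' : ι (t ^ n * b) ∈ q := h
        rw [hb'] at h'
        rcases (Ideal.IsPrime.mem_or_mem ‹q.IsPrime› h') with h1 | h1
        · exact hq (Ideal.IsPrime.mem_of_pow_mem ‹q.IsPrime› _ h1)
        · exact hu h1
      refine ⟨(t ^ m * a, ⟨t ^ n * b, hbq⟩), ?_⟩
      simp only [halg]
      rw [ha', hb', map_mul, map_mul, ← hz]
      ring
    · intro a b hab
      rw [halg, halg] at hab
      obtain ⟨⟨c, hc⟩, hcab⟩ := (IsLocalization.eq_iff_exists q.primeCompl _).mp hab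
      obtain ⟨n, d, hd⟩ := ht c
      have hdq : d ∈ (q.comap ι).primeCompl := by
        intro h
        have h' : ι d ∈ q := h
        rw [hd] at h'
        rcases (Ideal.IsPrime.mem_or_mem ‹q.IsPrime› h') with h1 | h1
        · exact hq (Ideal.IsPrime.mem_of_pow_mem ‹q.IsPrime› _ h1)
        · exact hc h1
      refine ⟨⟨d, hdq⟩, hι ?_⟩
      simp only at hcab ⊢
      rw [map_mul, map_mul, hd, mul_assoc, mul_assoc, hcab]
  exact ⟨(IsLocalization.algEquiv (q.comap ι).primeCompl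
    (Localization.AtPrime (q.comap ι)) (Localization.AtPrime q)).toRingEquiv⟩

theorem localization_iso' {R S : Type*} [CommRing R] [CommRing S] [Algebra R S]
    (M : Submonoid R) [IsLocalization M S] (q : Ideal S) [q.IsPrime] :
    Nonempty (Localization.AtPrime (q.comap (algebraMap R S)) ≃+* Localization.AtPrime q) := by
  haveI : IsLocalization.AtPrime (Localization.AtPrime q) (q.comap (algebraMap R S)) :=
    IsLocalization.isLocalization_isLocalization_atPrime_isLocalization M _ q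
  exact ⟨(IsLocalization.algEquiv (q.comap (algebraMap R S)).primeCompl
      (Localization.AtPrime (q.comap (algebraMap R S)))
      (Localization.AtPrime q)).toRingEquiv⟩

theorem regular_of_localization {R S : Type*} [CommRing R] [CommRing S] [Algebra R S]
    (M : Submonoid R) [IsLocalization M S] (q : Ideal S) [q.IsPrime]
    (h : IsRegularLocalRing (Localization.AtPrime (q.comap (algebraMap R S)))) :
    IsRegularLocalRing (Localization.AtPrime q) := by
  obtain ⟨e⟩ := localization_iso' M q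
  exact IsRegularLocalRing.of_ringEquiv e

/-- A regular local ring has a system of generators of its maximal ideal of length the dimension. -/
theorem exists_gens_of_regular (R : Type*) [CommRing R] [h : IsRegularLocalRing R] :
    ∃ s : Finset R, Ideal.span (s : Set R) = maximalIdeal R ∧
      (s.card : WithBot ℕ∞) ≤ ringKrullDim R := by
  have hfg : (maximalIdeal R).FG := IsNoetherian.noetherian _
  have hfin := Submodule.FG.finite_generators hfg
  refine ⟨hfin.toFinset, ?_, ?_⟩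
  · rw [Set.Finite.coe_toFinset]
    exact Submodule.span_generators _
  · rw [← Set.ncard_eq_toFinset_card _ hfin, Submodule.FG.generators_ncard hfg,
      h.spanFinrank_maximalIdeal]

section pullback

variable {B k : Type} [CommRing B] [Field k] (Φ₁ Φ₂ : B →+* k)

/-- the pullback ring: the functions with equal values at the two points -/
abbrev Apb : Subring B := Φ₁.eqLocus Φ₂

theorem mem_Apb {b : B} : b ∈ Apb Φ₁ Φ₂ ↔ Φ₁ b = Φ₂ b := Iff.rfl

variable (hunit : ∀ b, Φ₁ b ≠ 0 → Φ₂ b ≠ 0 → IsUnit b)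

include hunit in
theorem isUnit_iff (a : Apb Φ₁ Φ₂) : IsUnit a ↔ Φ₁ (a : B) ≠ 0 := by
  constructor
  · intro h
    have h' : IsUnit (Φ₁ (a : B)) := (h.map (Apb Φ₁ Φ₂).subtype).map Φ₁
    exact h'.ne_zero
  · intro h
    have ha : Φ₁ (a : B) = Φ₂ (a : B) := a.2
    obtain ⟨u, hu⟩ := hunit a h (ha ▸ h)
    have hinv1 : (a : B) * (u⁻¹ : Bˣ) = 1 := by rw [← hu]; simp
    have hinv : Φ₁ ((u⁻¹ : Bˣ) : B) = Φ₂ ((u⁻¹ : Bˣ) : B) := by
      have e1 := congrArg Φ₁ hinv1
      have e2 := congrArg Φ₂ hinv1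
      rw [map_mul, map_one] at e1 e2
      apply mul_left_cancel₀ h
      rw [e1, ha, e2]
    refine IsUnit.of_mul_eq_one (⟨((u⁻¹ : Bˣ) : B), hinv⟩ : Apb Φ₁ Φ₂) ?_
    apply Subtype.ext
    exact hinv1

include hunit in
theorem isLocalRing_Apb : IsLocalRing (Apb Φ₁ Φ₂) := by
  haveI : Nontrivial (Apb Φ₁ Φ₂) := by
    refine ⟨0, 1, fun h => ?_⟩
    have h' : (0 : B) = 1 := congrArg Subtype.val h
    have := congrArg Φ₁ h'
    rw [map_zero, map_one] at this
    exact zero_ne_one this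
  refine IsLocalRing.of_nonunits_add ?_
  intro a b ha hb
  rw [mem_nonunits_iff, isUnit_iff Φ₁ Φ₂ hunit, not_not] at ha hb ⊢
  rw [Subring.coe_add, map_add, ha, hb, add_zero]

include hunit in
theorem mem_maximalIdeal_Apb [IsLocalRing (Apb Φ₁ Φ₂)] (a : Apb Φ₁ Φ₂) :
    a ∈ maximalIdeal (Apb Φ₁ Φ₂) ↔ Φ₁ (a : B) = 0 := by
  rw [mem_maximalIdeal, mem_nonunits_iff, isUnit_iff Φ₁ Φ₂ hunit, not_not]

variable (hs1 : Function.Surjective Φ₁) (hs2 : Function.Surjective Φ₂)
  (e : B) (e1 : Φ₁ e = 0) (e2 : Φ₂ e = 1)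

include hs1 hs2 e1 e2 in
theorem exists_Apb (c : k) : ∃ a : Apb Φ₁ Φ₂, Φ₁ (a : B) = c := by
  obtain ⟨u, hu⟩ := hs1 c
  obtain ⟨v, hv⟩ := hs2 c
  refine ⟨⟨u * (1 - e) + v * e, ?_⟩, ?_⟩
  · change Φ₁ _ = Φ₂ _
    simp [e1, e2, hu, hv]
  · simp [e1, hu]

include hs1 hs2 e1 e2 in
theorem finite_Apb : Module.Finite (Apb Φ₁ Φ₂) B := by
  classical
  refine ⟨⟨({1, e} : Finset B), ?_⟩⟩
  rw [eq_top_iff]
  intro b _
  obtain ⟨a₂, ha₂⟩ := exists_Apb Φ₁ Φ₂ hs1 hs2 e e1 e2 (Φ₂ b - Φ₁ b)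
  have ha₂' : Φ₂ (a₂ : B) = Φ₂ b - Φ₁ b := by rw [← ha₂]; exact a₂.2.symm
  have hmem : b - a₂ * e ∈ Apb Φ₁ Φ₂ := by
    change Φ₁ _ = Φ₂ _
    rw [map_sub, map_sub, map_mul, map_mul, e1, e2, ha₂']
    ring
  have hb : b = (⟨b - a₂ * e, hmem⟩ : Apb Φ₁ Φ₂) • (1 : B) + a₂ • e := by
    rw [Subring.smul_def, Subring.smul_def]
    simp
  rw [hb]
  apply Submodule.add_mem
  · exact Submodule.smul_mem _ _ (Submodule.subset_span (by simp))
  · exact Submodule.smul_mem _ _ (Submodule.subset_span (by simp))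

include hunit hs1 hs2 e1 e2 in
theorem isNoetherianRing_Apb [IsNoetherianRing B] : IsNoetherianRing (Apb Φ₁ Φ₂) := by
  haveI := isLocalRing_Apb Φ₁ Φ₂ hunit
  haveI := finite_Apb Φ₁ Φ₂ hs1 hs2 e e1 e2
  haveI : Algebra.IsIntegral (Apb Φ₁ Φ₂) B := Algebra.IsIntegral.of_finite _ _
  refine IsNoetherianRing.of_prime ?_
  intro p hp
  obtain ⟨q, -, hq, hqp⟩ := Ideal.exists_ideal_over_prime_of_isIntegral p (⊥ : Ideal B) (by
    intro a ha
    have ha' : ((a : B)) = 0 := ha
    have : a = 0 := Subtype.ext ha'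
    rw [this]; exact p.zero_mem)
  have hpm : p ≤ maximalIdeal (Apb Φ₁ Φ₂) := le_maximalIdeal hp.ne_top
  -- the `B`-ideal `q ∩ J`
  set I : Ideal B := q ⊓ (RingHom.ker Φ₁ ⊓ RingHom.ker Φ₂) with hI
  haveI : Module.Finite B I := Module.Finite.iff_fg.mpr (IsNoetherian.noetherian I)
  haveI : Module.Finite (Apb Φ₁ Φ₂) I := Module.Finite.trans B I
  have key : ∀ a : Apb Φ₁ Φ₂, a ∈ p ↔ (a : B) ∈ I := by
    intro a
    have hpa : a ∈ p ↔ (a : B) ∈ q := by
      rw [← hqp]; rfl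
    constructor
    · intro ha
      have h1 := (mem_maximalIdeal_Apb Φ₁ Φ₂ hunit a).mp (hpm ha)
      refine ⟨hpa.mp ha, h1, ?_⟩
      change Φ₂ (a : B) = 0
      rw [← a.2]; exact h1
    · intro ha
      exact hpa.mpr ha.1
  let f : I →ₗ[Apb Φ₁ Φ₂] p :=
    { toFun := fun b => ⟨⟨b.1, by
          change Φ₁ b.1 = Φ₂ b.1
          rw [show Φ₁ b.1 = 0 from b.2.2.1, show Φ₂ b.1 = 0 from b.2.2.2]⟩,
          (key _).mpr b.2⟩
      map_add' := fun _ _ => rfl
      map_smul' := fun _ _ => rfl }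
  have hf : Function.Surjective f := by
    rintro ⟨a, ha⟩
    exact ⟨⟨a, (key a).mp ha⟩, rfl⟩
  haveI : Module.Finite (Apb Φ₁ Φ₂) p := Module.Finite.of_surjective f hf
  exact Module.Finite.iff_fg.mp inferInstance

include hunit hs1 hs2 e1 e2 in
/-- The local rings of the pullback ring off the maximal ideal are local rings of `B`. -/
theorem exists_prime_over [IsLocalRing (Apb Φ₁ Φ₂)] (p : Ideal (Apb Φ₁ Φ₂)) [p.IsPrime]
    (hp : p ≠ maximalIdeal (Apb Φ₁ Φ₂)) :
    ∃ (q : Ideal B) (_ : q.IsPrime), (∃ j, Φ₁ j = 0 ∧ Φ₂ j = 0 ∧ j ∉ q) ∧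
      Nonempty (Localization.AtPrime p ≃+* Localization.AtPrime q) := by
  haveI := finite_Apb Φ₁ Φ₂ hs1 hs2 e e1 e2
  haveI : Algebra.IsIntegral (Apb Φ₁ Φ₂) B := Algebra.IsIntegral.of_finite _ _
  obtain ⟨q, -, hq, hqp⟩ := Ideal.exists_ideal_over_prime_of_isIntegral p (⊥ : Ideal B) (by
    intro a ha
    have ha' : ((a : B)) = 0 := ha
    have : a = 0 := Subtype.ext ha'
    rw [this]; exact p.zero_mem)
  have hlt : ¬ maximalIdeal (Apb Φ₁ Φ₂) ≤ p := by
    intro h
    exact hp (le_antisymm (le_maximalIdeal (Ideal.IsPrime.ne_top ‹_›)) h)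
  obtain ⟨j, hj, hjp⟩ := SetLike.not_le_iff_exists.mp hlt
  have hj1 := (mem_maximalIdeal_Apb Φ₁ Φ₂ hunit j).mp hj
  have hj2 : Φ₂ (j : B) = 0 := by rw [← hj1]; exact j.2.symm
  have hjq : (j : B) ∉ q := by
    intro h
    apply hjp
    rw [← hqp]; exact h
  refine ⟨q, hq, ⟨j, hj1, hj2, hjq⟩, ?_⟩
  have hqp' : q.comap (Apb Φ₁ Φ₂).subtype = p := hqp
  subst hqp'
  refine localization_iso (Apb Φ₁ Φ₂).subtype Subtype.coe_injective j ?_ q hjq
  intro r
  refine ⟨1, ⟨(j : B) * r, ?_⟩, ?_⟩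
  · change Φ₁ _ = Φ₂ _
    rw [map_mul, map_mul, hj1, hj2, zero_mul, zero_mul]
  · simp

end pullback

end Pool.Agent.TH210
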