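import Pool.Agent.TH210.MatBase

set_option autoImplicit false
set_option linter.all false
set_option maxRecDepth 4000

namespace Pool.Agent.TH210

open Matrix

variable {R : Type*} [CommRing R]

theorem ka_id1 (a b c e : R) (h2 : (2 : R) = 0) :
    G1 a b c e * ka1 a b c e = !![a^3] := by
  ext i j
  fin_cases i <;> fin_cases j
  · rw [mul4]; change a*a^2 + b*0 + c*0 + e*0 = a^3; ring

theorem ka_id2 (a b c e : R) (h2 : (2 : R) = 0) :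
    ka1 a b c e * G1 a b c e + G2 a b c e * ka2 a b c e = !![a^3, 0, 0, 0; 0, a^3, 0, 0; 0, 0, a^3, 0; 0, 0, 0, a^3] := by
  ext i j
  fin_cases i <;> fin_cases j
  · rw [Matrix.add_apply, mul1, mul6]; change (a^2*a) + (c*0 + e*0 + 0*0 + 0*0 + b^2*0 + (a*b)*0) = a^3; ring
  · rw [Matrix.add_apply, mul1, mul6]; change (a^2*b) + (c*e + e*c + 0*0 + 0*0 + b^2*0 + (a*b)*a) = 0; linear_combination (a^2*b + c*e) * h2
  · rw [Matrix.add_apply, mul1, mul6]; change (a^2*c) + (c*a^2 + e*0 + 0*0 + 0*0 + b^2*0 + (a*b)*0) = 0; linear_combination (a^2*c) * h2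
  · rw [Matrix.add_apply, mul1, mul6]; change (a^2*e) + (c*0 + e*a^2 + 0*0 + 0*0 + b^2*0 + (a*b)*0) = 0; linear_combination (a^2*e) * h2
  · rw [Matrix.add_apply, mul1, mul6]; change (0*a) + (0*0 + 0*0 + c*0 + e*0 + (a*b)*0 + a^2*0) = 0; ring
  · rw [Matrix.add_apply, mul1, mul6]; change (0*b) + (0*e + 0*c + c*0 + e*0 + (a*b)*0 + a^2*a) = a^3; ring
  · rw [Matrix.add_apply, mul1, mul6]; change (0*c) + (0*a^2 + 0*0 + c*0 + e*0 + (a*b)*0 + a^2*0) = 0; ring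
  · rw [Matrix.add_apply, mul1, mul6]; change (0*e) + (0*0 + 0*a^2 + c*0 + e*0 + (a*b)*0 + a^2*0) = 0; ring
  · rw [Matrix.add_apply, mul1, mul6]; change (0*a) + (a*0 + 0*0 + b*0 + 0*0 + 0*0 + e*0) = 0; ring
  · rw [Matrix.add_apply, mul1, mul6]; change (0*b) + (a*e + 0*c + b*0 + 0*0 + 0*0 + e*a) = 0; linear_combination (a*e) * h2
  · rw [Matrix.add_apply, mul1, mul6]; change (0*c) + (a*a^2 + 0*0 + b*0 + 0*0 + 0*0 + e*0) = a^3; ring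
  · rw [Matrix.add_apply, mul1, mul6]; change (0*e) + (a*0 + 0*a^2 + b*0 + 0*0 + 0*0 + e*0) = 0; ring
  · rw [Matrix.add_apply, mul1, mul6]; change (0*a) + (0*0 + a*0 + 0*0 + b*0 + 0*0 + c*0) = 0; ring
  · rw [Matrix.add_apply, mul1, mul6]; change (0*b) + (0*e + a*c + 0*0 + b*0 + 0*0 + c*a) = 0; linear_combination (a*c) * h2
  · rw [Matrix.add_apply, mul1, mul6]; change (0*c) + (0*a^2 + a*0 + 0*0 + b*0 + 0*0 + c*0) = 0; ring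
  · rw [Matrix.add_apply, mul1, mul6]; change (0*e) + (0*0 + a*a^2 + 0*0 + b*0 + 0*0 + c*0) = a^3; ring

theorem ka_id3 (a b c e : R) (h2 : (2 : R) = 0) :
    ka2 a b c e * G2 a b c e + G3 a b c e * ka3 a b c e = !![a^3, 0, 0, 0, 0, 0; 0, a^3, 0, 0, 0, 0; 0, 0, a^3, 0, 0, 0; 0, 0, 0, a^3, 0, 0; 0, 0, 0, 0, a^3, 0; 0, 0, 0, 0, 0, a^3] := by
  ext i j
  fin_cases i <;> fin_cases j
  · rw [Matrix.add_apply, mul4, mul6]; change (0*c + e*0 + a^2*a + 0*0) + ((a^2*b + c*e)*0 + (b*e)*0 + 0*0 + b^2*0 + e^2*0 + 0*0) = a^3; ring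
  · rw [Matrix.add_apply, mul4, mul6]; change (0*e + e*0 + a^2*0 + 0*a) + ((a^2*b + c*e)*0 + (b*e)*0 + 0*0 + b^2*0 + e^2*0 + 0*0) = 0; ring
  · rw [Matrix.add_apply, mul4, mul6]; change (0*0 + e*c + a^2*b + 0*0) + ((a^2*b + c*e)*1 + (b*e)*0 + 0*0 + b^2*0 + e^2*0 + 0*0) = 0; linear_combination (a^2*b + c*e) * h2
  · rw [Matrix.add_apply, mul4, mul6]; change (0*0 + e*e + a^2*0 + 0*b) + ((a^2*b + c*e)*0 + (b*e)*0 + 0*0 + b^2*0 + e^2*1 + 0*0) = 0; linear_combination (e^2) * h2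
  · rw [Matrix.add_apply, mul4, mul6]; change (0*b^2 + e*(a*b) + a^2*0 + 0*0) + ((a^2*b + c*e)*0 + (b*e)*a + 0*a^2 + b^2*0 + e^2*0 + 0*0) = 0; linear_combination (a*b*e) * h2
  · rw [Matrix.add_apply, mul4, mul6]; change (0*(a*b) + e*a^2 + a^2*e + 0*c) + ((a^2*b + c*e)*0 + (b*e)*0 + 0*0 + b^2*0 + e^2*0 + 0*0) = 0; linear_combination (a^2*e) * h2
  · rw [Matrix.add_apply, mul4, mul6]; change (0*c + c*0 + 0*a + a^2*0) + (c^2*0 + (b*c)*0 + 0*0 + 0*0 + (a^2*b + c*e)*0 + b^2*0) = 0; ring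
  · rw [Matrix.add_apply, mul4, mul6]; change (0*e + c*0 + 0*0 + a^2*a) + (c^2*0 + (b*c)*0 + 0*0 + 0*0 + (a^2*b + c*e)*0 + b^2*0) = a^3; ring
  · rw [Matrix.add_apply, mul4, mul6]; change (0*0 + c*c + 0*b + a^2*0) + (c^2*1 + (b*c)*0 + 0*0 + 0*0 + (a^2*b + c*e)*0 + b^2*0) = 0; linear_combination (c^2) * h2
  · rw [Matrix.add_apply, mul4, mul6]; change (0*0 + c*e + 0*0 + a^2*b) + (c^2*0 + (b*c)*0 + 0*0 + 0*0 + (a^2*b + c*e)*1 + b^2*0) = 0; linear_combination (a^2*b + c*e) * h2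
  · rw [Matrix.add_apply, mul4, mul6]; change (0*b^2 + c*(a*b) + 0*0 + a^2*0) + (c^2*0 + (b*c)*a + 0*a^2 + 0*0 + (a^2*b + c*e)*0 + b^2*0) = 0; linear_combination (a*b*c) * h2
  · rw [Matrix.add_apply, mul4, mul6]; change (0*(a*b) + c*a^2 + 0*e + a^2*c) + (c^2*0 + (b*c)*0 + 0*0 + 0*0 + (a^2*b + c*e)*0 + b^2*0) = 0; linear_combination (a^2*c) * h2
  · rw [Matrix.add_apply, mul4, mul6]; change (0*c + 0*0 + 0*a + 0*0) + (a^3*0 + (a*e)*0 + e*0 + (a*b)*0 + 0*0 + 0*0) = 0; ring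
  · rw [Matrix.add_apply, mul4, mul6]; change (0*e + 0*0 + 0*0 + 0*a) + (a^3*0 + (a*e)*0 + e*0 + (a*b)*0 + 0*0 + 0*0) = 0; ring
  · rw [Matrix.add_apply, mul4, mul6]; change (0*0 + 0*c + 0*b + 0*0) + (a^3*1 + (a*e)*0 + e*0 + (a*b)*0 + 0*0 + 0*0) = a^3; ring
  · rw [Matrix.add_apply, mul4, mul6]; change (0*0 + 0*e + 0*0 + 0*b) + (a^3*0 + (a*e)*0 + e*0 + (a*b)*0 + 0*1 + 0*0) = 0; ring
  · rw [Matrix.add_apply, mul4, mul6]; change (0*b^2 + 0*(a*b) + 0*0 + 0*0) + (a^3*0 + (a*e)*a + e*a^2 + (a*b)*0 + 0*0 + 0*0) = 0; linear_combination (a^2*e) * h2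
  · rw [Matrix.add_apply, mul4, mul6]; change (0*(a*b) + 0*a^2 + 0*e + 0*c) + (a^3*0 + (a*e)*0 + e*0 + (a*b)*0 + 0*0 + 0*0) = 0; ring
  · rw [Matrix.add_apply, mul4, mul6]; change (0*c + 0*0 + 0*a + 0*0) + (0*0 + (a*c)*0 + c*0 + 0*0 + a^3*0 + (a*b)*0) = 0; ring
  · rw [Matrix.add_apply, mul4, mul6]; change (0*e + 0*0 + 0*0 + 0*a) + (0*0 + (a*c)*0 + c*0 + 0*0 + a^3*0 + (a*b)*0) = 0; ring
  · rw [Matrix.add_apply, mul4, mul6]; change (0*0 + 0*c + 0*b + 0*0) + (0*1 + (a*c)*0 + c*0 + 0*0 + a^3*0 + (a*b)*0) = 0; ring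
  · rw [Matrix.add_apply, mul4, mul6]; change (0*0 + 0*e + 0*0 + 0*b) + (0*0 + (a*c)*0 + c*0 + 0*0 + a^3*1 + (a*b)*0) = a^3; ring
  · rw [Matrix.add_apply, mul4, mul6]; change (0*b^2 + 0*(a*b) + 0*0 + 0*0) + (0*0 + (a*c)*a + c*a^2 + 0*0 + a^3*0 + (a*b)*0) = 0; linear_combination (a^2*c) * h2
  · rw [Matrix.add_apply, mul4, mul6]; change (0*(a*b) + 0*a^2 + 0*e + 0*c) + (0*0 + (a*c)*0 + c*0 + 0*0 + a^3*0 + (a*b)*0) = 0; ring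
  · rw [Matrix.add_apply, mul4, mul6]; change (0*c + 0*0 + 0*a + 0*0) + (0*0 + 0*0 + a*0 + c*0 + 0*0 + e*0) = 0; ring
  · rw [Matrix.add_apply, mul4, mul6]; change (0*e + 0*0 + 0*0 + 0*a) + (0*0 + 0*0 + a*0 + c*0 + 0*0 + e*0) = 0; ring
  · rw [Matrix.add_apply, mul4, mul6]; change (0*0 + 0*c + 0*b + 0*0) + (0*1 + 0*0 + a*0 + c*0 + 0*0 + e*0) = 0; ring
  · rw [Matrix.add_apply, mul4, mul6]; change (0*0 + 0*e + 0*0 + 0*b) + (0*0 + 0*0 + a*0 + c*0 + 0*1 + e*0) = 0; ring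
  · rw [Matrix.add_apply, mul4, mul6]; change (0*b^2 + 0*(a*b) + 0*0 + 0*0) + (0*0 + 0*a + a*a^2 + c*0 + 0*0 + e*0) = a^3; ring
  · rw [Matrix.add_apply, mul4, mul6]; change (0*(a*b) + 0*a^2 + 0*e + 0*c) + (0*0 + 0*0 + a*0 + c*0 + 0*0 + e*0) = 0; ring
  · rw [Matrix.add_apply, mul4, mul6]; change (0*c + a*0 + 0*a + 0*0) + ((a*c)*0 + 0*0 + b*0 + 0*0 + (a*e)*0 + 0*0) = 0; ring
  · rw [Matrix.add_apply, mul4, mul6]; change (0*e + a*0 + 0*0 + 0*a) + ((a*c)*0 + 0*0 + b*0 + 0*0 + (a*e)*0 + 0*0) = 0; ring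
  · rw [Matrix.add_apply, mul4, mul6]; change (0*0 + a*c + 0*b + 0*0) + ((a*c)*1 + 0*0 + b*0 + 0*0 + (a*e)*0 + 0*0) = 0; linear_combination (a*c) * h2
  · rw [Matrix.add_apply, mul4, mul6]; change (0*0 + a*e + 0*0 + 0*b) + ((a*c)*0 + 0*0 + b*0 + 0*0 + (a*e)*1 + 0*0) = 0; linear_combination (a*e) * h2
  · rw [Matrix.add_apply, mul4, mul6]; change (0*b^2 + a*(a*b) + 0*0 + 0*0) + ((a*c)*0 + 0*a + b*a^2 + 0*0 + (a*e)*0 + 0*0) = 0; linear_combination (a^2*b) * h2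
  · rw [Matrix.add_apply, mul4, mul6]; change (0*(a*b) + a*a^2 + 0*e + 0*c) + ((a*c)*0 + 0*0 + b*0 + 0*0 + (a*e)*0 + 0*0) = a^3; ring

theorem ka_id4 (a b c e : R) (h2 : (2 : R) = 0) :
    ka3 a b c e * G3 a b c e + G4 a b c e * ka4 a b c e = !![a^3, 0, 0, 0, 0, 0; 0, a^3, 0, 0, 0, 0; 0, 0, a^3, 0, 0, 0; 0, 0, 0, a^3, 0, 0; 0, 0, 0, 0, a^3, 0; 0, 0, 0, 0, 0, a^3] := by
  ext i j
  fin_cases i <;> fin_cases j
  · rw [Matrix.add_apply, mul6, mul4]; change (0*(a^2*b + c*e) + 0*c^2 + 1*a^3 + 0*0 + 0*0 + 0*(a*c)) + (b*0 + 0*0 + 0*0 + e*0) = a^3; ring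
  · rw [Matrix.add_apply, mul6, mul4]; change (0*(b*e) + 0*(b*c) + 1*(a*e) + 0*(a*c) + 0*0 + 0*0) + (b*0 + 0*0 + 0*0 + e*a) = 0; linear_combination (a*e) * h2
  · rw [Matrix.add_apply, mul6, mul4]; change (0*0 + 0*0 + 1*e + 0*c + 0*a + 0*b) + (b*0 + 0*0 + 0*0 + e*1) = 0; linear_combination (e) * h2
  · rw [Matrix.add_apply, mul6, mul4]; change (0*b^2 + 0*0 + 1*(a*b) + 0*0 + 0*c + 0*0) + (b*a + 0*0 + 0*0 + e*0) = 0; linear_combination (a*b) * h2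
  · rw [Matrix.add_apply, mul6, mul4]; change (0*e^2 + 0*(a^2*b + c*e) + 1*0 + 0*a^3 + 0*0 + 0*(a*e)) + (b*0 + 0*0 + 0*0 + e*0) = 0; ring
  · rw [Matrix.add_apply, mul6, mul4]; change (0*0 + 0*b^2 + 1*0 + 0*(a*b) + 0*e + 0*0) + (b*0 + 0*a + 0*0 + e*0) = 0; ring
  · rw [Matrix.add_apply, mul6, mul4]; change (0*(a^2*b + c*e) + 0*c^2 + 0*a^3 + 0*0 + a*0 + 0*(a*c)) + (c*0 + e*0 + b*0 + a^2*0) = 0; ring
  · rw [Matrix.add_apply, mul6, mul4]; change (0*(b*e) + 0*(b*c) + 0*(a*e) + 0*(a*c) + a*0 + 0*0) + (c*0 + e*0 + b*0 + a^2*a) = a^3; ring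
  · rw [Matrix.add_apply, mul6, mul4]; change (0*0 + 0*0 + 0*e + 0*c + a*a + 0*b) + (c*0 + e*0 + b*0 + a^2*1) = 0; linear_combination (a^2) * h2
  · rw [Matrix.add_apply, mul6, mul4]; change (0*b^2 + 0*0 + 0*(a*b) + 0*0 + a*c + 0*0) + (c*a + e*0 + b*0 + a^2*0) = 0; linear_combination (a*c) * h2
  · rw [Matrix.add_apply, mul6, mul4]; change (0*e^2 + 0*(a^2*b + c*e) + 0*0 + 0*a^3 + a*0 + 0*(a*e)) + (c*0 + e*0 + b*0 + a^2*0) = 0; ring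
  · rw [Matrix.add_apply, mul6, mul4]; change (0*0 + 0*b^2 + 0*0 + 0*(a*b) + a*e + 0*0) + (c*0 + e*a + b*0 + a^2*0) = 0; linear_combination (a*e) * h2
  · rw [Matrix.add_apply, mul6, mul4]; change (0*(a^2*b + c*e) + 0*c^2 + 0*a^3 + 0*0 + a^2*0 + 0*(a*c)) + ((a*c)*0 + (a*e)*0 + 0*0 + 0*0) = 0; ring
  · rw [Matrix.add_apply, mul6, mul4]; change (0*(b*e) + 0*(b*c) + 0*(a*e) + 0*(a*c) + a^2*0 + 0*0) + ((a*c)*0 + (a*e)*0 + 0*0 + 0*a) = 0; ring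
  · rw [Matrix.add_apply, mul6, mul4]; change (0*0 + 0*0 + 0*e + 0*c + a^2*a + 0*b) + ((a*c)*0 + (a*e)*0 + 0*0 + 0*1) = a^3; ring
  · rw [Matrix.add_apply, mul6, mul4]; change (0*b^2 + 0*0 + 0*(a*b) + 0*0 + a^2*c + 0*0) + ((a*c)*a + (a*e)*0 + 0*0 + 0*0) = 0; linear_combination (a^2*c) * h2
  · rw [Matrix.add_apply, mul6, mul4]; change (0*e^2 + 0*(a^2*b + c*e) + 0*0 + 0*a^3 + a^2*0 + 0*(a*e)) + ((a*c)*0 + (a*e)*0 + 0*0 + 0*0) = 0; ring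
  · rw [Matrix.add_apply, mul6, mul4]; change (0*0 + 0*b^2 + 0*0 + 0*(a*b) + a^2*e + 0*0) + ((a*c)*0 + (a*e)*a + 0*0 + 0*0) = 0; linear_combination (a^2*e) * h2
  · rw [Matrix.add_apply, mul6, mul4]; change (0*(a^2*b + c*e) + 0*c^2 + 0*a^3 + 0*0 + 0*0 + 0*(a*c)) + (a^2*0 + 0*0 + e*0 + 0*0) = 0; ring
  · rw [Matrix.add_apply, mul6, mul4]; change (0*(b*e) + 0*(b*c) + 0*(a*e) + 0*(a*c) + 0*0 + 0*0) + (a^2*0 + 0*0 + e*0 + 0*a) = 0; ring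
  · rw [Matrix.add_apply, mul6, mul4]; change (0*0 + 0*0 + 0*e + 0*c + 0*a + 0*b) + (a^2*0 + 0*0 + e*0 + 0*1) = 0; ring
  · rw [Matrix.add_apply, mul6, mul4]; change (0*b^2 + 0*0 + 0*(a*b) + 0*0 + 0*c + 0*0) + (a^2*a + 0*0 + e*0 + 0*0) = a^3; ring
  · rw [Matrix.add_apply, mul6, mul4]; change (0*e^2 + 0*(a^2*b + c*e) + 0*0 + 0*a^3 + 0*0 + 0*(a*e)) + (a^2*0 + 0*0 + e*0 + 0*0) = 0; ring
  · rw [Matrix.add_apply, mul6, mul4]; change (0*0 + 0*b^2 + 0*0 + 0*(a*b) + 0*e + 0*0) + (a^2*0 + 0*a + e*0 + 0*0) = 0; ring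
  · rw [Matrix.add_apply, mul6, mul4]; change (0*(a^2*b + c*e) + 0*c^2 + 0*a^3 + 1*0 + 0*0 + 0*(a*c)) + (0*0 + b*0 + 0*0 + c*0) = 0; ring
  · rw [Matrix.add_apply, mul6, mul4]; change (0*(b*e) + 0*(b*c) + 0*(a*e) + 1*(a*c) + 0*0 + 0*0) + (0*0 + b*0 + 0*0 + c*a) = 0; linear_combination (a*c) * h2
  · rw [Matrix.add_apply, mul6, mul4]; change (0*0 + 0*0 + 0*e + 1*c + 0*a + 0*b) + (0*0 + b*0 + 0*0 + c*1) = 0; linear_combination (c) * h2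
  · rw [Matrix.add_apply, mul6, mul4]; change (0*b^2 + 0*0 + 0*(a*b) + 1*0 + 0*c + 0*0) + (0*a + b*0 + 0*0 + c*0) = 0; ring
  · rw [Matrix.add_apply, mul6, mul4]; change (0*e^2 + 0*(a^2*b + c*e) + 0*0 + 1*a^3 + 0*0 + 0*(a*e)) + (0*0 + b*0 + 0*0 + c*0) = a^3; ring
  · rw [Matrix.add_apply, mul6, mul4]; change (0*0 + 0*b^2 + 0*0 + 1*(a*b) + 0*e + 0*0) + (0*0 + b*a + 0*0 + c*0) = 0; linear_combination (a*b) * h2
  · rw [Matrix.add_apply, mul6, mul4]; change (0*(a^2*b + c*e) + 0*c^2 + 0*a^3 + 0*0 + 0*0 + 0*(a*c)) + (0*0 + a^2*0 + c*0 + 0*0) = 0; ring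
  · rw [Matrix.add_apply, mul6, mul4]; change (0*(b*e) + 0*(b*c) + 0*(a*e) + 0*(a*c) + 0*0 + 0*0) + (0*0 + a^2*0 + c*0 + 0*a) = 0; ring
  · rw [Matrix.add_apply, mul6, mul4]; change (0*0 + 0*0 + 0*e + 0*c + 0*a + 0*b) + (0*0 + a^2*0 + c*0 + 0*1) = 0; ring
  · rw [Matrix.add_apply, mul6, mul4]; change (0*b^2 + 0*0 + 0*(a*b) + 0*0 + 0*c + 0*0) + (0*a + a^2*0 + c*0 + 0*0) = 0; ring
  · rw [Matrix.add_apply, mul6, mul4]; change (0*e^2 + 0*(a^2*b + c*e) + 0*0 + 0*a^3 + 0*0 + 0*(a*e)) + (0*0 + a^2*0 + c*0 + 0*0) = 0; ring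
  · rw [Matrix.add_apply, mul6, mul4]; change (0*0 + 0*b^2 + 0*0 + 0*(a*b) + 0*e + 0*0) + (0*0 + a^2*a + c*0 + 0*0) = a^3; ring

theorem ka_id5 (a b c e : R) (h2 : (2 : R) = 0) :
    ka4 a b c e * G4 a b c e + G5 a b c e * ka5 a b c e = !![a^3, 0, 0, 0; 0, a^3, 0, 0; 0, 0, a^3, 0; 0, 0, 0, a^3] := by
  ext i j
  fin_cases i <;> fin_cases j
  · rw [Matrix.add_apply, mul6, mul1]; change (0*b + 0*c + 0*(a*c) + a*a^2 + 0*0 + 0*0) + (e*0) = a^3; ring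
  · rw [Matrix.add_apply, mul6, mul1]; change (0*0 + 0*e + 0*(a*e) + a*0 + 0*b + 0*a^2) + (e*0) = 0; ring
  · rw [Matrix.add_apply, mul6, mul1]; change (0*0 + 0*b + 0*0 + a*e + 0*0 + 0*c) + (e*a) = 0; linear_combination (a*e) * h2
  · rw [Matrix.add_apply, mul6, mul1]; change (0*e + 0*a^2 + 0*0 + a*0 + 0*c + 0*0) + (e*0) = 0; ring
  · rw [Matrix.add_apply, mul6, mul1]; change (0*b + 0*c + 0*(a*c) + 0*a^2 + 0*0 + a*0) + (c*0) = 0; ring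
  · rw [Matrix.add_apply, mul6, mul1]; change (0*0 + 0*e + 0*(a*e) + 0*0 + 0*b + a*a^2) + (c*0) = a^3; ring
  · rw [Matrix.add_apply, mul6, mul1]; change (0*0 + 0*b + 0*0 + 0*e + 0*0 + a*c) + (c*a) = 0; linear_combination (a*c) * h2
  · rw [Matrix.add_apply, mul6, mul1]; change (0*e + 0*a^2 + 0*0 + 0*0 + 0*c + a*0) + (c*0) = 0; ring
  · rw [Matrix.add_apply, mul6, mul1]; change (0*b + 0*c + 0*(a*c) + 0*a^2 + 0*0 + 0*0) + (a^2*0) = 0; ring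
  · rw [Matrix.add_apply, mul6, mul1]; change (0*0 + 0*e + 0*(a*e) + 0*0 + 0*b + 0*a^2) + (a^2*0) = 0; ring
  · rw [Matrix.add_apply, mul6, mul1]; change (0*0 + 0*b + 0*0 + 0*e + 0*0 + 0*c) + (a^2*a) = a^3; ring
  · rw [Matrix.add_apply, mul6, mul1]; change (0*e + 0*a^2 + 0*0 + 0*0 + 0*c + 0*0) + (a^2*0) = 0; ring
  · rw [Matrix.add_apply, mul6, mul1]; change (0*b + a*c + 1*(a*c) + 0*a^2 + 0*0 + 0*0) + (b*0) = 0; linear_combination (a*c) * h2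
  · rw [Matrix.add_apply, mul6, mul1]; change (0*0 + a*e + 1*(a*e) + 0*0 + 0*b + 0*a^2) + (b*0) = 0; linear_combination (a*e) * h2
  · rw [Matrix.add_apply, mul6, mul1]; change (0*0 + a*b + 1*0 + 0*e + 0*0 + 0*c) + (b*a) = 0; linear_combination (a*b) * h2
  · rw [Matrix.add_apply, mul6, mul1]; change (0*e + a*a^2 + 1*0 + 0*0 + 0*c + 0*0) + (b*0) = a^3; ring

theorem ka_id6 (a b c e : R) (h2 : (2 : R) = 0) :
    ka5 a b c e * G5 a b c e = !![a^3] := by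
  ext i j
  fin_cases i <;> fin_cases j
  · rw [mul4]; change 0*e + 0*c + a*a^2 + 0*b = a^3; ring

theorem ka_null (a b c e : R) (h2 : (2 : R) = 0) (j : ℕ) :
    ka a b c e j * dG a b c e j + dG a b c e (j+1) * ka a b c e (j+1) =
      (a^3) • (1 : Matrix (Fin (rk (j+1))) (Fin (rk (j+1))) R) := by
  rcases j with _ | _ | _ | _ | _ | _ | j
  · exact end_left _ _ _ _ ((ka_id1 a b c e h2).trans (smul_one_one _).symm)
  · exact (ka_id2 a b c e h2).trans (smul_one_four _).symm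
  · exact (ka_id3 a b c e h2).trans (smul_one_six _).symm
  · exact (ka_id4 a b c e h2).trans (smul_one_six _).symm
  · exact (ka_id5 a b c e h2).trans (smul_one_four _).symm
  · exact end_right _ _ _ _ ((ka_id6 a b c e h2).trans (smul_one_one _).symm)
  · ext i; exact i.elim0

end Pool.Agent.TH210
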