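import Pool.Agent.TH210.Block
import Pool.Agent.TH210.Mat_ka

/-!
Homology of the glued complex tensored with the two-dimensional module.
-/

set_option autoImplicit false
set_option linter.all false

namespace Pool.Agent.TH210

open Matrix

variable (A : Type*) [CommRing A] {P : Type*} [CommRing P] [Algebra A P]

/-- matrices over `P` acting `A`-linearly on vectors -/
noncomputable def mvl {m n : Type*} [Fintype m] [Fintype n] (K : Matrix m n P) :
    (n → P) →ₗ[A] (m → P) :=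
  (K.mulVecLin).restrictScalars A

theorem mvl_apply {m n : Type*} [Fintype m] [Fintype n] (K : Matrix m n P) (v : n → P) :
    mvl A K v = K *ᵥ v := rfl

/-- the F-part of the glued complex on the module computes the homology -/
theorem hlen_blocks {n₂ n₁ n₀ : ℕ}
    (f : Matrix (Fin n₁) (Fin n₂) P) (g : Matrix (Fin n₀) (Fin n₁) P)
    (f' : Matrix (Fin n₁) (Fin n₂) P) (g' : Matrix (Fin n₀) (Fin n₁) P)
    (s : Matrix (Fin n₂) (Fin n₁) P)
    (s' : Matrix (Fin n₁) (Fin n₀) P) (hs : s' * g' + f' * s = 1) :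
    hlen (mvl A (fromBlocks f 0 0 f')) (mvl A (fromBlocks g 0 0 g')) =
      hlen (mvl A f) (mvl A g) := by
  have hk : ∀ v : Fin n₁ ⊕ Fin n₁ → P, (fromBlocks g 0 0 g') *ᵥ v = 0 →
      g *ᵥ (v ∘ Sum.inl) = 0 ∧ g' *ᵥ (v ∘ Sum.inr) = 0 := by
    intro v hv
    rw [fromBlocks_mulVec] at hv
    simp only [Matrix.zero_mulVec, add_zero, zero_add] at hv
    constructor
    · ext i
      exact congrFun hv (Sum.inl i)
    · ext i
      exact congrFun hv (Sum.inr i)
  set π : ↥(LinearMap.ker (mvl A g)) →ₗ[A]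
      ↥(Submodule.map (LinearMap.range (mvl A f)).mkQ (LinearMap.ker (mvl A g))) :=
    ((LinearMap.range (mvl A f)).mkQ ∘ₗ (LinearMap.ker (mvl A g)).subtype).codRestrict _ (by
      rintro ⟨v, hv⟩
      exact ⟨v, hv, rfl⟩) with hπ
  set ρ : ↥(LinearMap.ker (mvl A (fromBlocks g 0 0 g'))) →ₗ[A] ↥(LinearMap.ker (mvl A g)) :=
    ((LinearMap.funLeft A P (Sum.inl : Fin n₁ → Fin n₁ ⊕ Fin n₁)) ∘ₗ
      (LinearMap.ker (mvl A (fromBlocks g 0 0 g'))).subtype).codRestrict _ (by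
      rintro ⟨v, hv⟩
      exact (hk v hv).1) with hρ
  refine hlen_eq_of_surj _ _ (π ∘ₗ ρ) ?_ ?_
  · rintro ⟨t, v, hv, rfl⟩
    refine ⟨⟨Sum.elim v 0, ?_⟩, ?_⟩
    · change (fromBlocks g 0 0 g') *ᵥ (Sum.elim v 0) = 0
      rw [fromBlocks_mulVec]
      have hv' : g *ᵥ v = 0 := hv
      simp [hv']
    · apply Subtype.ext
      rfl
  · rintro ⟨v, hv⟩
    have : (π ∘ₗ ρ) ⟨v, hv⟩ = 0 ↔ (LinearMap.range (mvl A f)).mkQ (v ∘ Sum.inl) = 0 := by
      rw [← Submodule.coe_eq_zero]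
      rfl
    rw [this, Submodule.mkQ_apply, Submodule.Quotient.mk_eq_zero]
    constructor
    · rintro ⟨u, hu⟩
      refine ⟨Sum.elim u (s *ᵥ (v ∘ Sum.inr)), ?_⟩
      change (fromBlocks f 0 0 f') *ᵥ (Sum.elim u (s *ᵥ (v ∘ Sum.inr))) = v
      rw [fromBlocks_mulVec]
      have hu' : f *ᵥ u = v ∘ Sum.inl := hu
      have hG : f' *ᵥ (s *ᵥ (v ∘ Sum.inr)) = v ∘ Sum.inr := by
        have h1 := congrArg (fun M => M *ᵥ (v ∘ Sum.inr)) hs
        simp only [Matrix.add_mulVec, Matrix.one_mulVec, ← Matrix.mulVec_mulVec,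
          (hk v hv).2, Matrix.mulVec_zero, zero_add] at h1
        exact h1
      have e1 : (Sum.elim u (s *ᵥ (v ∘ Sum.inr))) ∘ Sum.inl = u := rfl
      have e2 : (Sum.elim u (s *ᵥ (v ∘ Sum.inr))) ∘ Sum.inr = s *ᵥ (v ∘ Sum.inr) := rfl
      rw [e1, e2, hu', hG]
      ext i
      rcases i with i | i <;> simp
    · rintro ⟨u, hu⟩
      refine ⟨u ∘ Sum.inl, ?_⟩
      have hu' : (fromBlocks f 0 0 f') *ᵥ u = v := hu
      rw [fromBlocks_mulVec] at hu'
      change f *ᵥ (u ∘ Sum.inl) = v ∘ Sum.inl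
      rw [← hu']
      ext i
      simp

section HF

variable {y w : P}

theorem F1_mulVec (v : Fin 4 → P) : F1 0 y 0 w *ᵥ v = ![y * v 1 + w * v 3] := by
  ext i
  fin_cases i
  simp [F1, Matrix.mulVec, dotProduct, Fin.sum_univ_four]

theorem F2_mulVec (v : Fin 6 → P) : F2 0 y 0 w *ᵥ v =
    ![w * v 1 + y * v 4, w * v 3, y * v 2 + w * v 4, y * v 3] := by
  ext i
  fin_cases i <;> simp [F2, Matrix.mulVec, dotProduct, Fin.sum_univ_six]

theorem F3_mulVec (v : Fin 6 → P) : F3 0 y 0 w *ᵥ v =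
    ![w * v 2 + y * v 3, y^2 * v 1, w^2 * v 1, 0, y * w * v 1,
      y * w * v 1 + w * v 4 + y * v 5] := by
  ext i
  fin_cases i <;> simp [F3, Matrix.mulVec, dotProduct, Fin.sum_univ_six]

theorem F4_mulVec (v : Fin 4 → P) : F4 0 y 0 w *ᵥ v =
    ![y * v 0 + w * v 1, 0, y * v 2, w * v 2, y * v 3, w * v 3] := by
  ext i
  fin_cases i <;> simp [F4, Matrix.mulVec, dotProduct, Fin.sum_univ_four]

theorem F5_mulVec (v : Fin 1 → P) : F5 0 y 0 w *ᵥ v =
    ![w * v 0, y * v 0, 0, 0] := by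
  ext i
  fin_cases i <;> simp [F5, Matrix.mulVec, dotProduct]

end HF

section values

variable [IsDomain P] (h2 : (2 : P) = 0) {y w : P} (hy : y ≠ 0)
  (hreg : ∀ m : P, y ∣ w * m → y ∣ m)
  (hlen1 : Module.length A (P ⧸ (Ideal.span {y, w} : Ideal P)) = 1)

/-- reduction modulo `(y,w)` as an `A`-linear map -/
noncomputable def red (y w : P) : P →ₗ[A] (P ⧸ (Ideal.span {y, w} : Ideal P)) :=
  (Ideal.Quotient.mkₐ A (Ideal.span {y, w} : Ideal P)).toLinearMap

theorem red_eq_zero {y w m : P} : red A y w m = 0 ↔ ∃ a b, m = y * a + w * b := by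
  change Ideal.Quotient.mk _ m = 0 ↔ _
  rw [Ideal.Quotient.eq_zero_iff_mem, Ideal.mem_span_pair]
  constructor
  · rintro ⟨a, b, h⟩
    exact ⟨a, b, by rw [← h]; ring⟩
  · rintro ⟨a, b, h⟩
    exact ⟨a, b, by rw [h]; ring⟩

theorem red_surj (y w : P) : Function.Surjective (red A y w) := Ideal.Quotient.mk_surjective

include hlen1 in
theorem one_not_mem (a b : P) : (1 : P) ≠ y * a + w * b := by
  intro h
  have h0 : (Ideal.span {y, w} : Ideal P) = ⊤ := by
    rw [Ideal.eq_top_iff_one, Ideal.mem_span_pair]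
    exact ⟨a, b, by rw [h]; ring⟩
  have : Subsingleton (P ⧸ (Ideal.span {y, w} : Ideal P)) := Ideal.Quotient.subsingleton_iff.mpr h0
  rw [Module.length_eq_zero] at hlen1
  exact zero_ne_one hlen1

include hy in
theorem cancel {a b : P} (h : y * a = y * b) : a = b := mul_left_cancel₀ hy h

include hlen1 in
theorem HF0 : hlen (mvl A (F1 0 y 0 w)) (mvl A (0 : Matrix (Fin 0) (Fin 1) P)) = 1 := by
  rw [hlen_eq_of_theta (T := P ⧸ (Ideal.span {y, w} : Ideal P)) _ _
    ((red A y w) ∘ₗ (LinearMap.proj 0)), hlen1]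
  · intro v _ hv
    obtain ⟨a, b, hab⟩ := (red_eq_zero A).mp hv
    refine ⟨![0, a, 0, b], ?_⟩
    rw [mvl_apply, F1_mulVec]
    ext i
    fin_cases i
    simp at hab
    simp [hab]
  · intro u
    apply (red_eq_zero A).mpr
    refine ⟨u 1, u 3, ?_⟩
    rw [mvl_apply, F1_mulVec]
    simp
  · intro t
    obtain ⟨p, rfl⟩ := red_surj A y w t
    refine ⟨![p], ?_, ?_⟩
    · ext i; exact i.elim0
    · simp

include hy hreg hlen1 in
theorem HF1 : 3 ≤ hlen (mvl A (F2 0 y 0 w)) (mvl A (F1 0 y 0 w)) := by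
  have h := length_add_one_le_hlen (T := (P ⧸ (Ideal.span {y, w} : Ideal P)) ×
      (P ⧸ (Ideal.span {y, w} : Ideal P)))
    (mvl A (F2 0 y 0 w)) (mvl A (F1 0 y 0 w))
    (((red A y w) ∘ₗ (LinearMap.proj 0)).prod ((red A y w) ∘ₗ (LinearMap.proj 2)))
    ?_ ?_ ![y, 0, 0, 0] ?_ ?_ ?_
  · rw [Module.length_prod, hlen1] at h
    refine le_trans (le_of_eq ?_) h
    norm_num
  · intro u
    rw [mvl_apply, F2_mulVec]
    apply Prod.ext
    · apply (red_eq_zero A).mpr
      exact ⟨u 4, u 1, by simp; ring⟩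
    · apply (red_eq_zero A).mpr
      exact ⟨u 2, u 4, by simp⟩
  · rintro ⟨t1, t2⟩
    obtain ⟨p, rfl⟩ := red_surj A y w t1
    obtain ⟨q, rfl⟩ := red_surj A y w t2
    refine ⟨![p, 0, q, 0], ?_, ?_⟩
    · rw [mvl_apply, F1_mulVec]
      ext i
      fin_cases i
      simp
    · simp
  · rw [mvl_apply, F1_mulVec]
    ext i
    fin_cases i
    simp
  · apply Prod.ext
    · apply (red_eq_zero A).mpr
      exact ⟨1, 0, by simp⟩
    · apply (red_eq_zero A).mpr
      exact ⟨0, 0, by simp⟩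
  · intro u hu
    rw [mvl_apply, F2_mulVec] at hu
    have e0 : w * u 1 + y * u 4 = y := by simpa using congrFun hu 0
    have e2 : y * u 2 + w * u 4 = 0 := by simpa using congrFun hu 2
    obtain ⟨c, hc⟩ := hreg (u 4) ⟨-u 2, by linear_combination e2⟩
    obtain ⟨d, hd⟩ := hreg (u 1) ⟨1 - u 4, by linear_combination e0⟩
    have h1 : y * (w * d + y * c) = y * 1 := by
      rw [hc, hd] at e0
      linear_combination e0
    have h3 := cancel hy h1
    exact one_not_mem A hlen1 c d (by rw [← h3]; ring)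

include h2 hy hreg hlen1 in
theorem HF2 : hlen (mvl A (F3 0 y 0 w)) (mvl A (F2 0 y 0 w)) = 2 := by
  rw [hlen_eq_of_theta (T := (P ⧸ (Ideal.span {y, w} : Ideal P)) ×
      (P ⧸ (Ideal.span {y, w} : Ideal P))) _ _
    (((red A y w) ∘ₗ (LinearMap.proj 0)).prod ((red A y w) ∘ₗ (LinearMap.proj 5)))]
  · rw [Module.length_prod, hlen1]
    norm_num
  · intro v hv hθ
    rw [mvl_apply, F2_mulVec] at hv
    have e0 : w * v 1 + y * v 4 = 0 := by simpa using congrFun hv 0
    have e2 : y * v 2 + w * v 4 = 0 := by simpa using congrFun hv 2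
    have e3 : y * v 3 = 0 := congrFun hv 3
    have hv3 : v 3 = 0 := cancel hy (by rw [e3, mul_zero])
    obtain ⟨c, hc⟩ := hreg (v 1) ⟨-v 4, by linear_combination e0⟩
    have h4 : v 4 = w * c := cancel hy (by
      rw [hc] at e0; linear_combination e0 - (y * w * c) * h2)
    obtain ⟨e, he⟩ := hreg c (hreg (w * c) ⟨-v 2, by rw [h4] at e2; linear_combination e2⟩)
    have hv2 : v 2 = w ^ 2 * e := cancel hy (by
      rw [h4, he] at e2; linear_combination e2 - (y * w ^ 2 * e) * h2)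
    have hθ' := Prod.ext_iff.mp hθ
    obtain ⟨a, b, hab⟩ := (red_eq_zero A).mp hθ'.1
    obtain ⟨a', b', hab'⟩ := (red_eq_zero A).mp hθ'.2
    simp at hab hab'
    refine ⟨![0, e, b, a, b', a' - w * e], ?_⟩
    rw [mvl_apply, F3_mulVec]
    ext i
    fin_cases i
    · simp [hab]; ring
    · simp [hc, he]; ring
    · simp [hv2]
    · simp [hv3]
    · simp [h4, he]; ring
    · simp [hab']; ring
  · intro u
    rw [mvl_apply, F3_mulVec]
    apply Prod.ext
    · apply (red_eq_zero A).mpr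
      exact ⟨u 3, u 2, by simp; ring⟩
    · apply (red_eq_zero A).mpr
      exact ⟨w * u 1 + u 5, u 4, by simp; ring⟩
  · rintro ⟨t1, t2⟩
    obtain ⟨p, rfl⟩ := red_surj A y w t1
    obtain ⟨q, rfl⟩ := red_surj A y w t2
    refine ⟨![p, 0, 0, 0, 0, q], ?_, ?_⟩
    · rw [mvl_apply, F2_mulVec]
      ext i
      fin_cases i <;> simp
    · simp

include h2 hy hreg hlen1 in
theorem HF3 : hlen (mvl A (F4 0 y 0 w)) (mvl A (F3 0 y 0 w)) = 1 := by
  rw [hlen_eq_of_theta (T := P ⧸ (Ideal.span {y, w} : Ideal P)) _ _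
    ((red A y w) ∘ₗ (LinearMap.proj 0)), hlen1]
  · intro v hv hθ
    rw [mvl_apply, F3_mulVec] at hv
    have e0 : w * v 2 + y * v 3 = 0 := by simpa using congrFun hv 0
    have e1 : y ^ 2 * v 1 = 0 := congrFun hv 1
    have e5 : y * w * v 1 + w * v 4 + y * v 5 = 0 := congrFun hv 5
    have hv1 : v 1 = 0 := (mul_eq_zero.mp e1).resolve_left (pow_ne_zero 2 hy)
    rw [hv1] at e5
    obtain ⟨c, hc⟩ := hreg (v 2) ⟨-v 3, by linear_combination e0⟩
    have h3 : v 3 = w * c := cancel hy (by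
      rw [hc] at e0; linear_combination e0 - (y * w * c) * h2)
    obtain ⟨c', hc'⟩ := hreg (v 4) ⟨-v 5, by linear_combination e5⟩
    have h5 : v 5 = w * c' := cancel hy (by
      rw [hc'] at e5; linear_combination e5 - (y * w * c') * h2)
    obtain ⟨a, b, hab⟩ := (red_eq_zero A).mp hθ
    simp at hab
    refine ⟨![a, b, c, c'], ?_⟩
    rw [mvl_apply, F4_mulVec]
    ext i
    fin_cases i
    · simp [hab]
    · simp [hv1]
    · simp [hc]
    · simp [h3]
    · simp [hc']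
    · simp [h5]
  · intro u
    rw [mvl_apply, F4_mulVec]
    apply (red_eq_zero A).mpr
    exact ⟨u 0, u 1, by simp⟩
  · intro t
    obtain ⟨p, rfl⟩ := red_surj A y w t
    refine ⟨![p, 0, 0, 0, 0, 0], ?_, ?_⟩
    · rw [mvl_apply, F3_mulVec]
      ext i
      fin_cases i <;> simp
    · simp

include h2 hy hreg hlen1 in
theorem HF4 : hlen (mvl A (F5 0 y 0 w)) (mvl A (F4 0 y 0 w)) = 0 := by
  apply hlen_eq_zero
  intro v hv
  rw [mvl_apply, F4_mulVec] at hv
  have e0 : y * v 0 + w * v 1 = 0 := by simpa using congrFun hv 0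
  have e2 : y * v 2 = 0 := congrFun hv 2
  have e4 : y * v 3 = 0 := congrFun hv 4
  have hv2 : v 2 = 0 := cancel hy (by rw [e2, mul_zero])
  have hv3 : v 3 = 0 := cancel hy (by rw [e4, mul_zero])
  obtain ⟨c, hc⟩ := hreg (v 1) ⟨-v 0, by linear_combination e0⟩
  have h0 : v 0 = w * c := cancel hy (by
    rw [hc] at e0; linear_combination e0 - (y * w * c) * h2)
  refine ⟨![c], ?_⟩
  rw [mvl_apply, F5_mulVec]
  ext i
  fin_cases i
  · simp [h0]
  · simp [hc]
  · simp [hv2]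
  · simp [hv3]

include hy in
theorem HF5 : hlen (mvl A (0 : Matrix (Fin 1) (Fin 0) P)) (mvl A (F5 0 y 0 w)) = 0 := by
  apply hlen_eq_zero
  intro v hv
  rw [mvl_apply, F5_mulVec] at hv
  have e1 : y * v 0 = 0 := congrFun hv 1
  have hv0 : v 0 = 0 := cancel hy (by rw [e1, mul_zero])
  refine ⟨0, ?_⟩
  rw [map_zero]
  ext i
  fin_cases i
  simp [hv0]

end values

end Pool.Agent.TH210
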