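import Mathlib

/-!
Explicit matrices for MP_6babc4_ag (frozen statement S00234).

`dF x y z w` : a free complex of ranks 1,4,6,6,4,1 over a ring of characteristic two in which
`x*y = z*w`; the squares of `x`, `y`, `z`, `w` are null-homotopic on it.
`dG a b c e` : a free complex of the same ranks; `a^3`, `b^2`, `c^2`, `e^2` are null-homotopic on it.
-/

set_option autoImplicit false
set_option linter.all false

namespace Pool.Agent.TH210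

open Matrix

variable {R : Type*} [CommRing R]

/-- ranks, shifted by one -/
def rk : ℕ → ℕ
  | 1 => 1
  | 2 => 4
  | 3 => 6
  | 4 => 6
  | 5 => 4
  | 6 => 1
  | _ => 0

def F1 (x y z w : R) : Matrix (Fin 1) (Fin 4) R :=
    !![x, y, z, w]

def F2 (x y z w : R) : Matrix (Fin 4) (Fin 6) R :=
    !![z, w, 0, 0, y, 0;
      0, 0, z, w, 0, x;
      x, 0, y, 0, w, 0;
      0, x, 0, y, 0, z]

def F3 (x y z w : R) : Matrix (Fin 6) (Fin 6) R :=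
    !![0, 0, w, y, 0, 0;
      z^2, y^2, y*z, 0, 0, y*z;
      x^2, w^2, x*w, 0, 0, x*w;
      0, 0, 0, 0, x, z;
      x*z, y*w, x*y + x, z, 0, x*y;
      x*z, y*w, x*y, 0, w, x*y + y]

def F4 (x y z w : R) : Matrix (Fin 6) (Fin 4) R :=
    !![y, w, 0, 0;
      0, 0, z, x;
      z, 0, y, 0;
      x, 0, w, 0;
      0, z, 0, y;
      0, x, 0, w]

def F5 (x y z w : R) : Matrix (Fin 4) (Fin 1) R :=
    !![w;
      y;
      x;
      z]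

/-- the differentials, `dF j : C_(j+1) → C_j` -/
def dF (x y z w : R) : ∀ j, Matrix (Fin (rk j)) (Fin (rk (j+1))) R
  | 1 => F1 x y z w
  | 2 => F2 x y z w
  | 3 => F3 x y z w
  | 4 => F4 x y z w
  | 5 => F5 x y z w
  | 0 => 0
  | (_ + 6) => 0

def G1 (a b c e : R) : Matrix (Fin 1) (Fin 4) R :=
    !![a, b, c, e]

def G2 (a b c e : R) : Matrix (Fin 4) (Fin 6) R :=
    !![c, e, 0, 0, b^2, a*b;
      0, 0, c, e, a*b, a^2;
      a, 0, b, 0, 0, e;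
      0, a, 0, b, 0, c]

def G3 (a b c e : R) : Matrix (Fin 6) (Fin 6) R :=
    !![a^2*b + c*e, b*e, 0, b^2, e^2, 0;
      c^2, b*c, 0, 0, a^2*b + c*e, b^2;
      a^3, a*e, e, a*b, 0, 0;
      0, a*c, c, 0, a^3, a*b;
      0, 0, a, c, 0, e;
      a*c, 0, b, 0, a*e, 0]

def G4 (a b c e : R) : Matrix (Fin 6) (Fin 4) R :=
    !![b, 0, 0, e;
      c, e, b, a^2;
      a*c, a*e, 0, 0;
      a^2, 0, e, 0;
      0, b, 0, c;
      0, a^2, c, 0]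

def G5 (a b c e : R) : Matrix (Fin 4) (Fin 1) R :=
    !![e;
      c;
      a^2;
      b]

/-- the differentials, `dG j : C_(j+1) → C_j` -/
def dG (a b c e : R) : ∀ j, Matrix (Fin (rk j)) (Fin (rk (j+1))) R
  | 1 => G1 a b c e
  | 2 => G2 a b c e
  | 3 => G3 a b c e
  | 4 => G4 a b c e
  | 5 => G5 a b c e
  | 0 => 0
  | (_ + 6) => 0

def hx1 (x y z w : R) : Matrix (Fin 4) (Fin 1) R :=
    !![x;
      0;
      0;
      0]

def hx2 (x y z w : R) : Matrix (Fin 6) (Fin 4) R :=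
    !![0, w, x, 0;
      0, z, 0, x;
      0, 0, 0, 0;
      0, 0, 0, 0;
      0, x, 0, 0;
      0, x, 0, 0]

def hx3 (x y z w : R) : Matrix (Fin 6) (Fin 6) R :=
    !![0, 0, 1, 0, w, w;
      0, 0, 0, x, 0, 0;
      0, 0, 0, w, x, x;
      0, 0, 0, 0, 0, 0;
      0, 0, 0, x, 0, 0;
      0, 0, 0, 0, 0, 0]

def hx4 (x y z w : R) : Matrix (Fin 4) (Fin 6) R :=
    !![0, 0, 0, x, 0, w;
      0, w, 0, 0, w, x;
      0, 0, 0, 0, 0, x;
      0, x, 0, 0, x, 0]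

def hx5 (x y z w : R) : Matrix (Fin 1) (Fin 4) R :=
    !![0, x, x, w]

def hx (x y z w : R) : ∀ j, Matrix (Fin (rk (j+1))) (Fin (rk j)) R
  | 1 => hx1 x y z w
  | 2 => hx2 x y z w
  | 3 => hx3 x y z w
  | 4 => hx4 x y z w
  | 5 => hx5 x y z w
  | 0 => 0
  | (_ + 6) => 0

def hy1 (x y z w : R) : Matrix (Fin 4) (Fin 1) R :=
    !![0;
      y;
      0;
      0]

def hy2 (x y z w : R) : Matrix (Fin 6) (Fin 4) R :=
    !![0, 0, 0, 0;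
      0, 0, 0, 0;
      w, 0, y, 0;
      z, 0, 0, y;
      y, 0, 0, 0;
      y, 0, 0, 0]

def hy3 (x y z w : R) : Matrix (Fin 6) (Fin 6) R :=
    !![y, 0, 0, 0, 0, 0;
      0, 1, 0, 0, z, z;
      0, 0, 0, 0, 0, 0;
      y, 0, 0, 0, 0, 0;
      0, 0, 0, 0, 0, 0;
      z, 0, 0, 0, y, y]

def hy4 (x y z w : R) : Matrix (Fin 4) (Fin 6) R :=
    !![y, 0, 0, y, 0, 0;
      0, 0, y, 0, 0, 0;
      z, 0, y, z, 0, 0;
      0, 0, z, 0, y, 0]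

def hy5 (x y z w : R) : Matrix (Fin 1) (Fin 4) R :=
    !![z, y, y, 0]

def hy (x y z w : R) : ∀ j, Matrix (Fin (rk (j+1))) (Fin (rk j)) R
  | 1 => hy1 x y z w
  | 2 => hy2 x y z w
  | 3 => hy3 x y z w
  | 4 => hy4 x y z w
  | 5 => hy5 x y z w
  | 0 => 0
  | (_ + 6) => 0

def hz1 (x y z w : R) : Matrix (Fin 4) (Fin 1) R :=
    !![0;
      0;
      z;
      0]

def hz2 (x y z w : R) : Matrix (Fin 6) (Fin 4) R :=
    !![z, 0, 0, y;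
      0, 0, 0, 0;
      0, z, 0, x;
      0, 0, 0, 0;
      0, 0, 0, z;
      0, 0, 0, z]

def hz3 (x y z w : R) : Matrix (Fin 6) (Fin 6) R :=
    !![0, 1, 0, y, 0, 0;
      0, 0, 0, 0, 0, 0;
      0, 0, 0, 0, 0, 0;
      0, 0, 0, y, z, z;
      0, 0, 0, 0, 0, 0;
      0, 0, 0, z, 0, 0]

def hz4 (x y z w : R) : Matrix (Fin 4) (Fin 6) R :=
    !![0, y, z, 0, 0, 0;
      0, 0, 0, 0, z, 0;
      0, z, 0, 0, 0, 0;
      0, 0, 0, 0, 0, 0]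

def hz5 (x y z w : R) : Matrix (Fin 1) (Fin 4) R :=
    !![0, 0, 0, z]

def hz (x y z w : R) : ∀ j, Matrix (Fin (rk (j+1))) (Fin (rk j)) R
  | 1 => hz1 x y z w
  | 2 => hz2 x y z w
  | 3 => hz3 x y z w
  | 4 => hz4 x y z w
  | 5 => hz5 x y z w
  | 0 => 0
  | (_ + 6) => 0

def hw1 (x y z w : R) : Matrix (Fin 4) (Fin 1) R :=
    !![0;
      0;
      0;
      w]

def hw2 (x y z w : R) : Matrix (Fin 6) (Fin 4) R :=
    !![0, 0, 0, 0;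
      w, 0, y, 0;
      0, 0, 0, 0;
      0, w, x, 0;
      0, 0, w, 0;
      0, 0, w, 0]

def hw3 (x y z w : R) : Matrix (Fin 6) (Fin 6) R :=
    !![0, 0, 0, 0, 0, 0;
      x, 0, 1, 0, 0, 0;
      w, 0, 0, 0, 0, 0;
      0, 0, 0, 0, 0, 0;
      x, 0, 0, 0, w, w;
      0, 0, 0, 0, 0, 0]

def hw4 (x y z w : R) : Matrix (Fin 4) (Fin 6) R :=
    !![0, 0, 0, 0, 0, 0;
      w, 0, 0, 0, 0, 0;
      0, 0, 0, w, 0, 0;
      x, 0, 0, 0, 0, w]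

def hw5 (x y z w : R) : Matrix (Fin 1) (Fin 4) R :=
    !![w, 0, 0, 0]

def hw (x y z w : R) : ∀ j, Matrix (Fin (rk (j+1))) (Fin (rk j)) R
  | 1 => hw1 x y z w
  | 2 => hw2 x y z w
  | 3 => hw3 x y z w
  | 4 => hw4 x y z w
  | 5 => hw5 x y z w
  | 0 => 0
  | (_ + 6) => 0

def ka1 (a b c e : R) : Matrix (Fin 4) (Fin 1) R :=
    !![a^2;
      0;
      0;
      0]

def ka2 (a b c e : R) : Matrix (Fin 6) (Fin 4) R :=
    !![0, e, a^2, 0;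
      0, c, 0, a^2;
      0, 0, 0, 0;
      0, 0, 0, 0;
      0, 0, 0, 0;
      0, a, 0, 0]

def ka3 (a b c e : R) : Matrix (Fin 6) (Fin 6) R :=
    !![0, 0, 1, 0, 0, 0;
      0, 0, 0, 0, a, 0;
      0, 0, 0, 0, a^2, 0;
      0, 0, 0, 0, 0, 0;
      0, 0, 0, 1, 0, 0;
      0, 0, 0, 0, 0, 0]

def ka4 (a b c e : R) : Matrix (Fin 4) (Fin 6) R :=
    !![0, 0, 0, a, 0, 0;
      0, 0, 0, 0, 0, a;
      0, 0, 0, 0, 0, 0;
      0, a, 1, 0, 0, 0]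

def ka5 (a b c e : R) : Matrix (Fin 1) (Fin 4) R :=
    !![0, 0, a, 0]

def ka (a b c e : R) : ∀ j, Matrix (Fin (rk (j+1))) (Fin (rk j)) R
  | 1 => ka1 a b c e
  | 2 => ka2 a b c e
  | 3 => ka3 a b c e
  | 4 => ka4 a b c e
  | 5 => ka5 a b c e
  | 0 => 0
  | (_ + 6) => 0

def kb1 (a b c e : R) : Matrix (Fin 4) (Fin 1) R :=
    !![0;
      b;
      0;
      0]

def kb2 (a b c e : R) : Matrix (Fin 6) (Fin 4) R :=
    !![0, 0, 0, 0;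
      0, 0, 0, 0;
      0, 0, b, 0;
      0, 0, 0, b;
      1, 0, 0, 0;
      0, 0, 0, 0]

def kb3 (a b c e : R) : Matrix (Fin 6) (Fin 6) R :=
    !![0, 0, 0, 0, 0, 0;
      0, 0, 0, 0, 0, 0;
      0, 0, 0, 0, 0, b;
      1, 0, 0, 0, 0, 0;
      0, 0, 0, 0, 0, 0;
      0, 1, 0, 0, 0, 0]

def kb4 (a b c e : R) : Matrix (Fin 4) (Fin 6) R :=
    !![b, 0, 0, 0, 0, 0;
      0, 0, 0, 0, b, 0;
      c, b, 0, 0, e, 0;
      0, 0, 0, 0, 0, 0]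

def kb5 (a b c e : R) : Matrix (Fin 1) (Fin 4) R :=
    !![0, 0, 0, b]

def kb (a b c e : R) : ∀ j, Matrix (Fin (rk (j+1))) (Fin (rk j)) R
  | 1 => kb1 a b c e
  | 2 => kb2 a b c e
  | 3 => kb3 a b c e
  | 4 => kb4 a b c e
  | 5 => kb5 a b c e
  | 0 => 0
  | (_ + 6) => 0

def kc1 (a b c e : R) : Matrix (Fin 4) (Fin 1) R :=
    !![0;
      0;
      c;
      0]

def kc2 (a b c e : R) : Matrix (Fin 6) (Fin 4) R :=
    !![c, 0, 0, a*b;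
      0, 0, 0, 0;
      0, c, 0, a^2;
      0, 0, 0, 0;
      0, 0, 0, 0;
      0, 0, 0, c]

def kc3 (a b c e : R) : Matrix (Fin 6) (Fin 6) R :=
    !![0, 1, 0, 0, 0, 0;
      0, 0, 0, 0, 0, 0;
      0, 0, 0, c, 0, 0;
      0, 0, 0, a, c, 0;
      0, 0, 0, 0, 0, 0;
      0, 0, 0, 0, 0, 0]

def kc4 (a b c e : R) : Matrix (Fin 4) (Fin 6) R :=
    !![0, c, 0, 0, a^2, b;
      0, 0, 0, 0, 0, 0;
      0, 0, 0, 0, 0, c;
      0, 0, 0, 0, c, 0]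

def kc5 (a b c e : R) : Matrix (Fin 1) (Fin 4) R :=
    !![0, c, 0, 0]

def kc (a b c e : R) : ∀ j, Matrix (Fin (rk (j+1))) (Fin (rk j)) R
  | 1 => kc1 a b c e
  | 2 => kc2 a b c e
  | 3 => kc3 a b c e
  | 4 => kc4 a b c e
  | 5 => kc5 a b c e
  | 0 => 0
  | (_ + 6) => 0

def ke1 (a b c e : R) : Matrix (Fin 4) (Fin 1) R :=
    !![0;
      0;
      0;
      e]

def ke2 (a b c e : R) : Matrix (Fin 6) (Fin 4) R :=
    !![0, 0, 0, 0;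
      e, 0, a*b, 0;
      0, 0, 0, 0;
      0, e, a^2, 0;
      0, 0, 0, 0;
      0, 0, e, 0]

def ke3 (a b c e : R) : Matrix (Fin 6) (Fin 6) R :=
    !![0, 0, 0, 0, 0, 0;
      0, 0, 0, 0, 0, 0;
      0, 0, e, 0, 0, 0;
      0, 0, 0, 0, 0, 0;
      1, 0, 0, 0, 0, 0;
      0, 0, a, 0, e, 0]

def ke4 (a b c e : R) : Matrix (Fin 4) (Fin 6) R :=
    !![0, 0, 0, 0, 0, 0;
      a^2, e, 0, b, 0, 0;
      0, 0, 0, e, 0, 0;
      e, 0, 0, 0, 0, 0]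

def ke5 (a b c e : R) : Matrix (Fin 1) (Fin 4) R :=
    !![e, 0, 0, 0]

def ke (a b c e : R) : ∀ j, Matrix (Fin (rk (j+1))) (Fin (rk j)) R
  | 1 => ke1 a b c e
  | 2 => ke2 a b c e
  | 3 => ke3 a b c e
  | 4 => ke4 a b c e
  | 5 => ke5 a b c e
  | 0 => 0
  | (_ + 6) => 0

end Pool.Agent.TH210
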