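import Pool.Agent.TH210.Mat

set_option autoImplicit false
set_option linter.all false

namespace Pool.Agent.TH210

open Matrix

variable {R : Type*} [CommRing R]

theorem mul1 {l m : Type*} (M : Matrix l (Fin 1) R) (N : Matrix (Fin 1) m R) (i : l) (j : m) :
    (M * N) i j = M i 0 * N 0 j := by
  rw [Matrix.mul_apply, Fin.sum_univ_one]

theorem mul4 {l m : Type*} (M : Matrix l (Fin 4) R) (N : Matrix (Fin 4) m R) (i : l) (j : m) :
    (M * N) i j = M i 0 * N 0 j + M i 1 * N 1 j + M i 2 * N 2 j + M i 3 * N 3 j := by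
  rw [Matrix.mul_apply, Fin.sum_univ_four]

theorem mul6 {l m : Type*} (M : Matrix l (Fin 6) R) (N : Matrix (Fin 6) m R) (i : l) (j : m) :
    (M * N) i j = M i 0 * N 0 j + M i 1 * N 1 j + M i 2 * N 2 j + M i 3 * N 3 j +
      M i 4 * N 4 j + M i 5 * N 5 j := by
  rw [Matrix.mul_apply, Fin.sum_univ_six]

theorem smul_one_one (t : R) : t • (1 : Matrix (Fin 1) (Fin 1) R) = !![t] := by
  ext i j
  fin_cases i <;> fin_cases j <;> simp

theorem smul_one_four (t : R) : t • (1 : Matrix (Fin 4) (Fin 4) R) =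
    !![t, 0, 0, 0; 0, t, 0, 0; 0, 0, t, 0; 0, 0, 0, t] := by
  ext i j
  fin_cases i <;> fin_cases j <;> simp [Matrix.one_apply]

theorem smul_one_six (t : R) : t • (1 : Matrix (Fin 6) (Fin 6) R) =
    !![t, 0, 0, 0, 0, 0; 0, t, 0, 0, 0, 0; 0, 0, t, 0, 0, 0; 0, 0, 0, t, 0, 0;
      0, 0, 0, 0, t, 0; 0, 0, 0, 0, 0, t] := by
  ext i j
  fin_cases i <;> fin_cases j <;> simp [Matrix.one_apply]

theorem end_left {n : ℕ} (M : Matrix (Fin n) (Fin 0) R) (N : Matrix (Fin 0) (Fin n) R)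
    (P Q : Matrix (Fin n) (Fin n) R) (h : P = Q) : M * N + P = Q := by
  have h0 : M * N = 0 := by
    ext i j
    simp [Matrix.mul_apply]
  rw [h0, zero_add, h]

theorem end_right {n : ℕ} (M : Matrix (Fin n) (Fin 0) R) (N : Matrix (Fin 0) (Fin n) R)
    (P Q : Matrix (Fin n) (Fin n) R) (h : P = Q) : P + M * N = Q := by
  have h0 : M * N = 0 := by
    ext i j
    simp [Matrix.mul_apply]
  rw [h0, add_zero, h]

end Pool.Agent.TH210
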