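import Pool.Agent.TH210.Loc

/-!
The ring `R₁[x,y,z,w]/(xy - zw)` as a subring of the polynomial ring `R₁[a,b,c,d]`,
`x = ac`, `y = bd`, `z = ad`, `w = bc`.
-/

set_option autoImplicit false
set_option linter.all false

namespace Pool.Agent.TH210

open MvPolynomial IsLocalRing

section R0

variable (R₁ : Type) [CommRing R₁]

/-- the generators -/
noncomputable def gens : Fin 4 → MvPolynomial (Fin 4) R₁ :=
  ![X 0 * X 2, X 1 * X 3, X 0 * X 3, X 1 * X 2]

/-- the Segre ring -/
noncomputable abbrev R0 : Subalgebra R₁ (MvPolynomial (Fin 4) R₁) :=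
  Algebra.adjoin R₁ (Set.range (gens R₁))

/-- the generators as elements of the Segre ring -/
noncomputable def g0 (i : Fin 4) : R0 R₁ := ⟨gens R₁ i, Algebra.subset_adjoin ⟨i, rfl⟩⟩

noncomputable abbrev x0 : R0 R₁ := g0 R₁ 0
noncomputable abbrev y0 : R0 R₁ := g0 R₁ 1
noncomputable abbrev z0 : R0 R₁ := g0 R₁ 2
noncomputable abbrev w0 : R0 R₁ := g0 R₁ 3

theorem x0_val : (x0 R₁ : MvPolynomial (Fin 4) R₁) = X 0 * X 2 := rfl
theorem y0_val : (y0 R₁ : MvPolynomial (Fin 4) R₁) = X 1 * X 3 := rfl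
theorem z0_val : (z0 R₁ : MvPolynomial (Fin 4) R₁) = X 0 * X 3 := rfl
theorem w0_val : (w0 R₁ : MvPolynomial (Fin 4) R₁) = X 1 * X 2 := rfl

theorem rel0 : x0 R₁ * y0 R₁ = z0 R₁ * w0 R₁ := by
  apply Subtype.ext
  change (X 0 * X 2) * (X 1 * X 3) = (X 0 * X 3) * (X 1 * X 2)
  ring

variable {R₁}

theorem R0_induction {p : R0 R₁ → Prop} (hg : ∀ i, p (g0 R₁ i))
    (hC : ∀ c, p (algebraMap R₁ (R0 R₁) c)) (hadd : ∀ r s, p r → p s → p (r + s))
    (hmul : ∀ r s, p r → p s → p (r * s)) (r : R0 R₁) : p r := by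
  obtain ⟨r, hr⟩ := r
  refine Algebra.adjoin_induction (p := fun x hx => p ⟨x, hx⟩) ?_ ?_ ?_ ?_ hr
  · rintro _ ⟨i, rfl⟩
    exact hg i
  · intro c
    exact hC c
  · intro a b ha hb h1 h2
    exact hadd _ _ h1 h2
  · intro a b ha hb h1 h2
    exact hmul _ _ h1 h2

theorem R0_mod_ideal (I : Ideal (R0 R₁)) (hI : ∀ i, ∃ c : R₁, g0 R₁ i - algebraMap R₁ (R0 R₁) c ∈ I)
    (r : R0 R₁) : ∃ c : R₁, r - algebraMap R₁ (R0 R₁) c ∈ I := by
  induction r using R0_induction with
  | hg i => exact hI i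
  | hC c => exact ⟨c, by rw [sub_self]; exact I.zero_mem⟩
  | hadd r s hr hs =>
    obtain ⟨c, hc⟩ := hr
    obtain ⟨d, hd⟩ := hs
    refine ⟨c + d, ?_⟩
    rw [map_add]
    have := I.add_mem hc hd
    convert this using 1
    ring
  | hmul r s hr hs =>
    obtain ⟨c, hc⟩ := hr
    obtain ⟨d, hd⟩ := hs
    refine ⟨c * d, ?_⟩
    rw [map_mul]
    have := I.add_mem (I.mul_mem_right s hc) (I.mul_mem_left (algebraMap R₁ (R0 R₁) c) hd)
    convert this using 1
    ring

variable (R₁)

instance [IsNoetherianRing R₁] : IsNoetherianRing (R0 R₁) := by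
  apply isNoetherianRing_of_fg
  exact Subalgebra.fg_def.2 ⟨_, Set.finite_range _, rfl⟩

end R0

section regular

variable {R₁ : Type} [CommRing R₁] [IsDomain R₁]

/-- The polynomial subring generated by three of the four generators. -/
noncomputable def eta (t u v : R0 R₁) : MvPolynomial (Fin 3) R₁ →ₐ[R₁] R0 R₁ :=
  aeval ![t, u, v]

theorem eta_good (t u v r' : R0 R₁) (hr : t * r' = u * v)
    (hg : ∀ i, g0 R₁ i = t ∨ g0 R₁ i = u ∨ g0 R₁ i = v ∨ g0 R₁ i = r') (r : R0 R₁) :
    ∃ n : ℕ, t ^ n * r ∈ (eta t u v).toRingHom.range := by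
  have ht : ∀ n : ℕ, t ^ n ∈ (eta t u v).toRingHom.range := by
    intro n
    refine ⟨X 0 ^ n, ?_⟩
    change eta t u v (X 0 ^ n) = t ^ n
    simp [eta]
  induction r using R0_induction with
  | hg i =>
    rcases hg i with h | h | h | h
    · refine ⟨0, X 0, ?_⟩
      change eta t u v (X 0) = _
      simp [eta, h]
    · refine ⟨0, X 1, ?_⟩
      change eta t u v (X 1) = _
      simp [eta, h]
    · refine ⟨0, X 2, ?_⟩
      change eta t u v (X 2) = _
      simp [eta, h]
    · refine ⟨1, X 1 * X 2, ?_⟩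
      change eta t u v (X 1 * X 2) = _
      rw [h, pow_one, hr]
      simp [eta]
  | hC c =>
    refine ⟨0, C c, ?_⟩
    change eta t u v (C c) = _
    simp [eta]
  | hadd r s hr hs =>
    obtain ⟨n, hn⟩ := hr
    obtain ⟨m, hm⟩ := hs
    refine ⟨n + m, ?_⟩
    have := add_mem (mul_mem (ht m) hn) (mul_mem (ht n) hm)
    convert this using 1
    ring
  | hmul r s hr hs =>
    obtain ⟨n, hn⟩ := hr
    obtain ⟨m, hm⟩ := hs
    refine ⟨n + m, ?_⟩
    have := mul_mem hn hm
    convert this using 1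
    ring

theorem eta_inj (t u v : R0 R₁) (E : Fin 4 → FractionRing (MvPolynomial (Fin 3) R₁))
    (ht : aeval E (t : MvPolynomial (Fin 4) R₁) = algebraMap (MvPolynomial (Fin 3) R₁) _ (X 0))
    (hu : aeval E (u : MvPolynomial (Fin 4) R₁) = algebraMap (MvPolynomial (Fin 3) R₁) _ (X 1))
    (hv : aeval E (v : MvPolynomial (Fin 4) R₁) = algebraMap (MvPolynomial (Fin 3) R₁) _ (X 2)) :
    Function.Injective (eta t u v) := by
  have h : ((aeval E).comp ((R0 R₁).val.comp (eta t u v))) =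
      IsScalarTower.toAlgHom R₁ (MvPolynomial (Fin 3) R₁)
        (FractionRing (MvPolynomial (Fin 3) R₁)) := by
    apply MvPolynomial.algHom_ext
    intro i
    fin_cases i
    · simp [eta, ht]
    · simp [eta, hu]
    · simp [eta, hv]
  have hinj : Function.Injective ((aeval E).comp ((R0 R₁).val.comp (eta t u v))) := by
    rw [h]
    exact IsFractionRing.injective (MvPolynomial (Fin 3) R₁)
      (FractionRing (MvPolynomial (Fin 3) R₁))
  intro a b hab
  apply hinj
  simp [hab]

theorem regular_of_eta [IsRegularRing R₁] (t u v r' : R0 R₁) (hr : t * r' = u * v)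
    (hg : ∀ i, g0 R₁ i = t ∨ g0 R₁ i = u ∨ g0 R₁ i = v ∨ g0 R₁ i = r')
    (E : Fin 4 → FractionRing (MvPolynomial (Fin 3) R₁))
    (ht : aeval E (t : MvPolynomial (Fin 4) R₁) = algebraMap (MvPolynomial (Fin 3) R₁) _ (X 0))
    (hu : aeval E (u : MvPolynomial (Fin 4) R₁) = algebraMap (MvPolynomial (Fin 3) R₁) _ (X 1))
    (hv : aeval E (v : MvPolynomial (Fin 4) R₁) = algebraMap (MvPolynomial (Fin 3) R₁) _ (X 2))
    (q : Ideal (R0 R₁)) [q.IsPrime] (hq : t ∉ q) : IsRegularLocalRing (Localization.AtPrime q) := by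
  have h0 : eta t u v (X 0) = t := by simp [eta]
  obtain ⟨e⟩ := localization_iso (eta t u v).toRingHom (eta_inj t u v E ht hu hv) (X 0)
    (by
      intro r
      obtain ⟨n, hn⟩ := eta_good t u v r' hr hg r
      refine ⟨n, ?_⟩
      change (eta t u v (X 0)) ^ n * r ∈ _
      rw [h0]; exact hn) q (by
      change eta t u v (X 0) ∉ q
      rw [h0]; exact hq)
  haveI : IsRegularRing (MvPolynomial (Fin 3) R₁) := inferInstance
  haveI : IsRegularLocalRing (Localization.AtPrime (q.comap (eta t u v).toRingHom)) :=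
    IsRegularRing.isRegularLocalRing_localization _
  exact IsRegularLocalRing.of_ringEquiv e

/-- The Segre ring is regular off the vertex. -/
theorem regular_R0 [IsRegularRing R₁] (q : Ideal (R0 R₁)) [q.IsPrime] (i : Fin 4)
    (hq : g0 R₁ i ∉ q) : IsRegularLocalRing (Localization.AtPrime q) := by
  set Q := FractionRing (MvPolynomial (Fin 3) R₁) with hQ
  set f : MvPolynomial (Fin 3) R₁ →+* Q := algebraMap (MvPolynomial (Fin 3) R₁) Q with hf
  have hX : ∀ j, f (X j) ≠ 0 := by
    intro j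
    rw [hf, Ne, map_eq_zero_iff _ (IsFractionRing.injective (MvPolynomial (Fin 3) R₁) Q)]
    exact X_ne_zero j
  have h0 := hX 0
  have hrel := rel0 R₁
  fin_cases i
  · refine regular_of_eta (x0 R₁) (z0 R₁) (w0 R₁) (y0 R₁) hrel ?_
      ![1, f (X 2) / f (X 0), f (X 0), f (X 1)] ?_ ?_ ?_ q hq
    · intro i; fin_cases i
      · left; rfl
      · right; right; right; rfl
      · right; left; rfl
      · right; right; left; rfl
    · rw [x0_val]; simp; rfl
    · rw [z0_val]; simp; rfl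
    · rw [w0_val]; simp; field_simp; rfl
  · refine regular_of_eta (y0 R₁) (z0 R₁) (w0 R₁) (x0 R₁) (by rw [← hrel]; ring) ?_
      ![f (X 1) / f (X 0), 1, f (X 2), f (X 0)] ?_ ?_ ?_ q hq
    · intro i; fin_cases i
      · right; right; right; rfl
      · left; rfl
      · right; left; rfl
      · right; right; left; rfl
    · rw [y0_val]; simp; rfl
    · rw [z0_val]; simp; field_simp; rfl
    · rw [w0_val]; simp; rfl
  · refine regular_of_eta (z0 R₁) (x0 R₁) (y0 R₁) (w0 R₁) hrel.symm ?_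
      ![1, f (X 2) / f (X 0), f (X 1), f (X 0)] ?_ ?_ ?_ q hq
    · intro i; fin_cases i
      · right; left; rfl
      · right; right; left; rfl
      · left; rfl
      · right; right; right; rfl
    · rw [z0_val]; simp; rfl
    · rw [x0_val]; simp; rfl
    · rw [y0_val]; simp; field_simp; rfl
  · refine regular_of_eta (w0 R₁) (x0 R₁) (y0 R₁) (z0 R₁) (by rw [hrel]; ring) ?_
      ![f (X 1) / f (X 0), 1, f (X 0), f (X 2)] ?_ ?_ ?_ q hq
    · intro i; fin_cases i
      · right; left; rfl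
      · right; right; left; rfl
      · right; right; right; rfl
      · left; rfl
    · rw [w0_val]; simp; rfl
    · rw [x0_val]; simp; field_simp; rfl
    · rw [y0_val]; simp; rfl

end regular

end Pool.Agent.TH210
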